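import Mathlib
import Pool.Agent.Lib.MP_db50ff_an.Sign

/-!
# DBX.Mom: moments of Rademacher sums (counting form, `sg true = 1`, `sg false = -1`)

PROOFS.
* `mgf_le`: `exp(∑ sg(ε p) c p) = ∏ exp(sg(ε p) c p)`, and
  `∑_ε ∏_p f p (ε p) = ∏_p ∑_{b : Bool} f p b` (`Finset.prod_univ_sum`/`Fintype.piFinset_univ`), so
  the left side is `∏_p (exp(c p) + exp(-c p)) = ∏_p 2 cosh(c p) ≤ ∏_p 2 exp(c p ^ 2 / 2)`
  (`Real.cosh_le_exp_half_sq`); `Fintype.card (V → Bool) = 2 ^ card V`.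
* `sum_sq`: expand the square; for `p ≠ p'` the map flipping the coordinate `p` is an involution
  which changes the sign of `sg(ε p) sg(ε p')`, so its sum is `0`; `sg² = 1`.
* `sum_odd`: the global sign flip `ε ↦ !ε` (cf. `sum_neg_signs` in `Sign.lean`) changes the sign of
  the sum `X`, so `∑ X = ∑ X³ = 0`.
* `sum_four_le`: if `v = ∑ c² = 0` all is `0`. Otherwise let `s > 0` with `s² v = 2`, i.e.
  `s² = 2/v`. From `cosh y ≥ 1 + y²/2 + y⁴/24` (e.g. from `Real.cosh` as a sum, or from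
  `exp y ≥ ∑_{k<5} y^k/k!` for `y ≥ 0`, `Real.sum_le_exp_of_nonneg`, and `exp(-y)`..., or avoid it:
  for all real `y`, `exp y + exp(-y) ≥ 2 + y² + y⁴/12`) and `∑_ε exp(±s X) ≤ card exp(s² v/2)
  = card e`: `card (1 + s² v / 2) + s⁴ ∑ X⁴ / 24 ≤ card e`, hence
  `∑ X⁴ ≤ 24 (e - 2) card / s⁴ = 6 (e - 2) v² card ≤ 5 v² card` (`e < 2.7183`).
  (Alternatively prove `∑ X⁴ ≤ 3 v² card` by induction on the number of variables.)
-/

set_option autoImplicit false

namespace Pool.Agent.DBX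

open Finset Pool.Agent.MPdb50ff

variable {V : Type*} [Fintype V] [DecidableEq V]

theorem mgf_le (c : V → ℝ) :
    ∑ ε : V → Bool, Real.exp (∑ p, sg (ε p) * c p) ≤
      (Fintype.card (V → Bool) : ℝ) * Real.exp ((∑ p, c p ^ 2) / 2) := by
  have h1 : ∀ ε : V → Bool, Real.exp (∑ p, sg (ε p) * c p) =
      ∏ p, Real.exp (sg (ε p) * c p) := fun ε => Real.exp_sum _ _
  simp_rw [h1]
  have h2 : ∑ ε : V → Bool, ∏ p, Real.exp (sg (ε p) * c p) =
      ∏ p, ∑ b : Bool, Real.exp (sg b * c p) := by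
    rw [Finset.prod_univ_sum, Fintype.piFinset_univ]
  rw [h2]
  have h3 : (Fintype.card (V → Bool) : ℝ) * Real.exp ((∑ p, c p ^ 2) / 2) =
      ∏ p : V, (2 * Real.exp (c p ^ 2 / 2)) := by
    rw [Finset.prod_mul_distrib, ← Real.exp_sum, Finset.prod_const, Finset.card_univ,
      Fintype.card_fun, Fintype.card_bool, Finset.sum_div]
    push_cast
    rfl
  rw [h3]
  refine Finset.prod_le_prod (fun p _ => Finset.sum_nonneg fun b _ => (Real.exp_pos _).le)
    (fun p _ => ?_)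
  rw [Fintype.sum_bool]
  have h4 := Real.cosh_le_exp_half_sq (c p)
  rw [Real.cosh_eq] at h4
  have e1 : sg true * c p = c p := by simp [sg]
  have e2 : sg false * c p = -c p := by simp [sg]
  rw [e1, e2]
  linarith

theorem sum_odd_one (c : V → ℝ) : ∑ ε : V → Bool, (∑ p, sg (ε p) * c p) = 0 := by
  have h := sum_neg_signs (fun x => x) c
  have h2 : ∑ ε : V → Bool, (-∑ p, sg (ε p) * c p) = -∑ ε : V → Bool, (∑ p, sg (ε p) * c p) :=
    Finset.sum_neg_distrib _
  have h3 : ∑ ε : V → Bool, (∑ p, sg (ε p) * c p) =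
      ∑ ε : V → Bool, (-∑ p, sg (ε p) * c p) := h
  linarith

theorem sum_odd_three (c : V → ℝ) : ∑ ε : V → Bool, (∑ p, sg (ε p) * c p) ^ 3 = 0 := by
  have h3 : ∑ ε : V → Bool, (∑ p, sg (ε p) * c p) ^ 3 =
      ∑ ε : V → Bool, (-∑ p, sg (ε p) * c p) ^ 3 := sum_neg_signs (fun x => x ^ 3) c
  have h2 : ∑ ε : V → Bool, (-∑ p, sg (ε p) * c p) ^ 3 =
      -∑ ε : V → Bool, (∑ p, sg (ε p) * c p) ^ 3 := by
    rw [← Finset.sum_neg_distrib]
    exact Finset.sum_congr rfl fun ε _ => by ring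
  linarith

theorem sum_sq (c : V → ℝ) :
    ∑ ε : V → Bool, (∑ p, sg (ε p) * c p) ^ 2 =
      (Fintype.card (V → Bool) : ℝ) * ∑ p, c p ^ 2 := by
  have h1 : ∀ ε : V → Bool, (∑ p, sg (ε p) * c p) ^ 2 =
      ∑ p, ∑ q, (c p * c q) * (sg (ε p) * sg (ε q)) := by
    intro ε
    rw [sq, Finset.sum_mul_sum]
    refine Finset.sum_congr rfl fun p _ => Finset.sum_congr rfl fun q _ => ?_
    ring
  simp_rw [h1]
  rw [Finset.sum_comm]
  have h2 : ∀ p q : V, ∑ ε : V → Bool, (c p * c q) * (sg (ε p) * sg (ε q)) =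
      if p = q then (Fintype.card (V → Bool) : ℝ) * c p ^ 2 else 0 := by
    intro p q
    rw [← Finset.mul_sum]
    by_cases hpq : p = q
    · subst hpq
      rw [if_pos rfl]
      have e : ∀ ε : V → Bool, sg (ε p) * sg (ε p) = 1 := fun ε => by
        rw [← sq, sg_sq]
      simp_rw [e]
      rw [Finset.sum_const, nsmul_eq_mul, Finset.card_univ]
      ring
    · rw [if_neg hpq]
      have h3 : ∑ ε : V → Bool, sg (ε p) * sg (ε q) = 0 := by
        have hinv : Function.Involutive (fun ε : V → Bool => Function.update ε p (!(ε p))) := by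
          intro ε; simp
        have h4 : ∑ ε : V → Bool, sg (ε p) * sg (ε q) =
            ∑ ε : V → Bool, sg (Function.update ε p (!(ε p)) p) *
              sg (Function.update ε p (!(ε p)) q) := by
          rw [← Equiv.sum_comp hinv.toPerm]
          rfl
        have h5 : ∑ ε : V → Bool, sg (Function.update ε p (!(ε p)) p) *
              sg (Function.update ε p (!(ε p)) q) = -∑ ε : V → Bool, sg (ε p) * sg (ε q) := by
          rw [← Finset.sum_neg_distrib]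
          refine Finset.sum_congr rfl fun ε _ => ?_
          rw [Function.update_self, Function.update_of_ne (Ne.symm hpq), sg_not]
          ring
        linarith
      rw [h3, mul_zero]
  have h6 : ∀ p : V, ∑ ε : V → Bool, ∑ q, (c p * c q) * (sg (ε p) * sg (ε q)) =
      (Fintype.card (V → Bool) : ℝ) * c p ^ 2 := by
    intro p
    rw [Finset.sum_comm]
    simp_rw [h2]
    rw [Finset.sum_ite_eq]
    simp
  simp_rw [h6]
  rw [← Finset.mul_sum]

theorem sum_four_le (c : V → ℝ) :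
    ∑ ε : V → Bool, (∑ p, sg (ε p) * c p) ^ 4 ≤
      (Fintype.card (V → Bool) : ℝ) * (5 * (∑ p, c p ^ 2) ^ 2) := by
  have hv0 : 0 ≤ ∑ p, c p ^ 2 := Finset.sum_nonneg fun p _ => sq_nonneg _
  rcases hv0.eq_or_lt with hv | hv
  · have hc : ∀ p, c p = 0 := by
      intro p
      have := (Finset.sum_eq_zero_iff_of_nonneg (fun p _ => sq_nonneg (c p))).1 hv.symm p
        (Finset.mem_univ p)
      exact pow_eq_zero_iff (two_ne_zero) |>.1 this
    simp [hc]
  obtain ⟨v, hvdef⟩ : ∃ v, v = ∑ p, c p ^ 2 := ⟨_, rfl⟩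
  rw [← hvdef] at hv ⊢
  obtain ⟨s, hs0, hs⟩ : ∃ s : ℝ, 0 < s ∧ s ^ 2 * v = 2 := by
    refine ⟨Real.sqrt (2 / v), Real.sqrt_pos.2 (by positivity), ?_⟩
    rw [Real.sq_sqrt (by positivity)]
    field_simp
  have hcosh : ∀ y : ℝ, 1 + y ^ 2 / 2 + y ^ 4 / 24 ≤ Real.cosh y := by
    intro y
    have h := sum_le_hasSum (Finset.range 3) (fun n _ => by
      have h1 : 0 ≤ y ^ (2 * n) := (even_two_mul n).pow_nonneg y
      positivity) (Real.hasSum_cosh y)
    simp only [Finset.sum_range_succ, Finset.sum_range_zero] at h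
    norm_num [Nat.factorial] at h
    linarith
  have hm := mgf_le (fun p => s * c p)
  have e1 : ∀ ε : V → Bool, ∑ p, sg (ε p) * (s * c p) = s * ∑ p, sg (ε p) * c p := by
    intro ε
    rw [Finset.mul_sum]
    exact Finset.sum_congr rfl fun p _ => by ring
  have e2 : ∑ p, (s * c p) ^ 2 = 2 := by
    rw [← hs, hvdef, Finset.mul_sum]
    exact Finset.sum_congr rfl fun p _ => by ring
  have hneg : ∑ ε : V → Bool, Real.exp (s * ∑ p, sg (ε p) * c p) =
      ∑ ε : V → Bool, Real.exp (-(s * ∑ p, sg (ε p) * c p)) := by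
    have := sum_neg_signs (fun x => Real.exp (s * x)) c
    simpa only [mul_neg] using this
  simp_rw [e1] at hm
  rw [e2] at hm
  have h3 : ∑ ε : V → Bool, Real.cosh (s * ∑ p, sg (ε p) * c p) ≤
      (Fintype.card (V → Bool) : ℝ) * Real.exp (2 / 2) := by
    have h4 : ∑ ε : V → Bool, Real.cosh (s * ∑ p, sg (ε p) * c p) =
        ∑ ε : V → Bool, Real.exp (s * ∑ p, sg (ε p) * c p) := by
      simp_rw [Real.cosh_eq]
      rw [← Finset.sum_div, Finset.sum_add_distrib, ← hneg]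
      ring
    rw [h4]
    exact hm
  have h5 : ∑ ε : V → Bool, (1 + (s * ∑ p, sg (ε p) * c p) ^ 2 / 2 +
      (s * ∑ p, sg (ε p) * c p) ^ 4 / 24) ≤
      (Fintype.card (V → Bool) : ℝ) * Real.exp (2 / 2) :=
    (Finset.sum_le_sum fun ε _ => hcosh _).trans h3
  have h6 : ∑ ε : V → Bool, (1 + (s * ∑ p, sg (ε p) * c p) ^ 2 / 2 +
      (s * ∑ p, sg (ε p) * c p) ^ 4 / 24) =
      (Fintype.card (V → Bool) : ℝ) + s ^ 2 / 2 * ∑ ε : V → Bool, (∑ p, sg (ε p) * c p) ^ 2 +
        s ^ 4 / 24 * ∑ ε : V → Bool, (∑ p, sg (ε p) * c p) ^ 4 := by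
    rw [Finset.sum_add_distrib, Finset.sum_add_distrib, Finset.mul_sum, Finset.mul_sum,
      Finset.sum_const, nsmul_eq_mul, Finset.card_univ, mul_one]
    congr 1
    · congr 1
      exact Finset.sum_congr rfl fun ε _ => by ring
    · exact Finset.sum_congr rfl fun ε _ => by ring
  rw [h6, sum_sq, ← hvdef] at h5
  have hN : (0 : ℝ) ≤ (Fintype.card (V → Bool) : ℝ) := Nat.cast_nonneg _
  have h7 : s ^ 4 * v ^ 2 = 4 := by
    have : s ^ 4 * v ^ 2 = (s ^ 2 * v) ^ 2 := by ring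
    rw [this, hs]
    norm_num
  have he : Real.exp (2 / 2) < 2.7182818286 := by
    have := Real.exp_one_lt_d9
    norm_num at this ⊢
    linarith
  obtain ⟨F, hF⟩ : ∃ F, F = ∑ ε : V → Bool, (∑ p, sg (ε p) * c p) ^ 4 := ⟨_, rfl⟩
  obtain ⟨N, hNdef⟩ : ∃ N : ℝ, N = (Fintype.card (V → Bool) : ℝ) := ⟨_, rfl⟩
  rw [← hF] at h5 ⊢
  rw [← hNdef] at h5 hN ⊢
  have h8 : s ^ 2 / 2 * (N * v) = N := by
    have : s ^ 2 / 2 * (N * v) = (s ^ 2 * v) * N / 2 := by ring
    rw [this, hs]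
    ring
  rw [h8] at h5
  have h9 : s ^ 4 / 24 * F ≤ N * (Real.exp (2 / 2) - 2) := by linarith
  have h10 : N * (Real.exp (2 / 2) - 2) ≤ N * (5 / 6) :=
    mul_le_mul_of_nonneg_left (by linarith) hN
  have h11 : s ^ 4 * F ≤ 20 * N := by linarith
  have h12 : s ^ 4 * F * v ^ 2 ≤ 20 * N * v ^ 2 :=
    mul_le_mul_of_nonneg_right h11 (sq_nonneg v)
  have h13 : s ^ 4 * F * v ^ 2 = 4 * F := by
    have : s ^ 4 * F * v ^ 2 = (s ^ 4 * v ^ 2) * F := by ring
    rw [this, h7]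
  rw [h13] at h12
  linarith

end Pool.Agent.DBX
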