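import Mathlib
import Pool.Agent.Lib.MP_db50ff_an.Step
import Pool.Agent.Lib.MP_db50ff_an.A1

/-!
# Project DBX (problem MP_db50ff_an): Hölder order `c / (n log² n)`

Definitions. `rho z w = |1 - ⟨z, w⟩|`; `Pz w r t` is the balanced set
`{x : |⟨w, x⟩| ≤ t r, |x| ≤ t √r}`; `JS` is the potential on the sphere; `IsFrame` is a finite
`r`-separated `r`-covering set of the sphere with weights such that the weighted sum of
`|base|^(-2q)` is comparable with `1`. The parameters are `ell n = log₂ n + 1`, `LL n = n * ell n`,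
`qq n = 10^5 * LL n`, `rr n D = 1 / (10^6 q² (2 D))`, `MM n = 10^6 q²`,
`c0 n = (1 / (2 * 10^13 * LL n))^(1/2)`, `thet n = 1 / (10^18 * LL n)`.
-/

set_option autoImplicit false

namespace Pool.Agent.DBX

open MeasureTheory Metric Complex Real Pool.Agent.MPdb50ff

open scoped InnerProductSpace ComplexConjugate

/-- `ρ(z, w) = |1 - ⟨z, w⟩|`. -/
noncomputable def rho {n : ℕ} (z w : Cn n) : ℝ := ‖1 - ⟪z, w⟫_ℂ‖

/-- The balanced set `{x : |⟨w, x⟩| ≤ t r, |x| ≤ t √r}`. -/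
def Pz {n : ℕ} (w : Cn n) (r t : ℝ) : Set (Cn n) :=
  {x | ‖⟪w, x⟫_ℂ‖ ≤ t * r ∧ ‖x‖ ≤ t * Real.sqrt r}

/-- The potential `∫ min(1, √(Re h / T)) dσ`. -/
noncomputable def JS (n : ℕ) (h : Cn n → ℂ) (T : ℝ) : ℝ :=
  ∫ ζ : sphere (0 : Cn n) 1, min 1 (Real.sqrt ((h ζ).re / T)) ∂(sigma n)

/-- A finite weighted frame of points of the sphere. -/
structure IsFrame (n N q : ℕ) (r : ℝ) (s : Finset (Cn n)) (b : Cn n → ℝ) : Prop where
  unit : ∀ ζ ∈ s, ‖ζ‖ = 1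
  sep : ∀ ζ ∈ s, ∀ ζ' ∈ s, ζ ≠ ζ' → r < rho ζ ζ'
  cov : ∀ z : Cn n, ‖z‖ = 1 → ∃ ζ ∈ s, rho ζ z ≤ r
  b_nonneg : ∀ ζ ∈ s, 0 ≤ b ζ
  b_le : ∀ ζ ∈ s, b ζ ≤ 11 / 10
  lower : ∀ z : Cn n, ‖z‖ = 1 → 9 / 10 ≤ ∑ ζ ∈ s, b ζ * (‖base N ζ z‖ ^ (2 * q))⁻¹
  upper : ∀ z : Cn n, ‖z‖ = 1 → ∑ ζ ∈ s, b ζ * (‖base N ζ z‖ ^ (2 * q))⁻¹ ≤ 11 / 10

/-- `ℓ = log₂ n + 1`. -/
def ell (n : ℕ) : ℕ := Nat.log 2 n + 1

/-- `L = n ℓ`. -/
def LL (n : ℕ) : ℕ := n * ell n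

/-- The exponent `q = 10^5 L`. -/
def qq (n : ℕ) : ℕ := 10 ^ 5 * LL n

/-- The ratio of consecutive scales, `M = 10^6 q²`. -/
def MM (n : ℕ) : ℕ := 10 ^ 6 * qq n ^ 2

/-- The mesh `r = 1 / (10^6 q² N)`, `N = 2 D`. -/
noncomputable def rr (n D : ℕ) : ℝ := 1 / (10 ^ 6 * (qq n : ℝ) ^ 2 * (2 * D))

/-- The size of the coefficients. -/
noncomputable def c0 (n : ℕ) : ℝ := Real.sqrt (1 / (2 * 10 ^ 13 * (LL n : ℝ)))

/-- The gain of one step. -/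
noncomputable def thet (n : ℕ) : ℝ := 1 / (10 ^ 18 * (LL n : ℝ))

/-- The situation of one step: `h` is holomorphic on the ball of radius `1 + 1/D` with positive
real part on the closed ball of radius `1 + 1/(2D)`, and `(s, b)` is a frame of mesh `rr n D`. -/
structure Ctx (n D : ℕ) (h : Cn n → ℂ) (T : ℝ) (s : Finset (Cn n)) (b : Cn n → ℝ) : Prop where
  hn : 2 ≤ n
  hD : 1 ≤ D
  hT : 0 < T
  hd : DifferentiableOn ℂ h (ball 0 (1 + 1 / (D : ℝ)))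
  hpos : ∀ z ∈ closedBall (0 : Cn n) (1 + 1 / (2 * (D : ℝ))), 0 < (h z).re
  frame : IsFrame n (2 * D) (qq n) (rr n D) s b

/-- The coefficient `c₀ min(Re h(ζ), T) √b(ζ)` of the peak at `ζ`. -/
noncomputable def amp (n : ℕ) (h : Cn n → ℂ) (T : ℝ) (b : Cn n → ℝ) (ζ : Cn n) : ℝ :=
  c0 n * min (h ζ).re T * Real.sqrt (b ζ)

/-- The index set of the random signs. -/
abbrev VV {n : ℕ} (s : Finset (Cn n)) : Type := {ζ // ζ ∈ s} × Bool

/-- The function attached to one sign. -/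
noncomputable def gg (n D : ℕ) (h : Cn n → ℂ) (T : ℝ) (s : Finset (Cn n)) (b : Cn n → ℝ)
    (p : VV s) (z : Cn n) : ℂ :=
  (if p.2 then Complex.I else 1) * ((amp n h T b p.1.1 : ℝ) : ℂ) * peak (2 * D) (qq n) p.1.1 z

/-- The indices whose peak point `ζ` satisfies `N ρ(ζ, z₀) ≤ 1/10`. -/
noncomputable def near {n : ℕ} (D : ℕ) (s : Finset (Cn n)) (z₀ : Cn n) : Finset (VV s) :=
  (Finset.univ : Finset (VV s)).filter fun p => (2 * D : ℝ) * rho p.1.1 z₀ ≤ 1 / 10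

/-- The indices whose peak point `ζ` satisfies `1/10 < N ρ(ζ, z₀)`. -/
noncomputable def far {n : ℕ} (D : ℕ) (s : Finset (Cn n)) (z₀ : Cn n) : Finset (VV s) :=
  (Finset.univ : Finset (VV s)).filter fun p => 1 / 10 < (2 * D : ℝ) * rho p.1.1 z₀

/-- The random function, restricted to the indices in `F`. -/
noncomputable def GG (n D : ℕ) (h : Cn n → ℂ) (T : ℝ) (s : Finset (Cn n)) (b : Cn n → ℝ)
    (F : Finset (VV s)) (ε : VV s → Bool) (z : Cn n) : ℂ :=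
  ∑ p ∈ F, ((sg (ε p) : ℝ) : ℂ) * gg n D h T s b p z

/-- `f` depends only on the coordinates in `F`. -/
def DepOn {V α : Type*} (F : Finset V) (f : (V → Bool) → α) : Prop :=
  ∀ ε ε' : V → Bool, (∀ p ∈ F, ε p = ε' p) → f ε = f ε'

end Pool.Agent.DBX
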