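import Mathlib
import Pool.Agent.Lib.DBX.Defs

/-!
# DBX.SubMean: the submean value inequality over the balanced sets `Pz w r t`

PROOFS.
* `Pz w r t` (`t ≥ 0`) is closed and contained in `closedBall 0 (t √r)`, hence compact and of finite
  volume; for `r, t > 0` it contains `ball 0 (min (t r) (t √r) / (1 + ‖w‖))`, so its volume is
  positive.
* `Pz_scale`: `Pz w r 3 = (3 : ℝ) • Pz w r 1`, so `vol (Pz w r 3) = 3^(2n) vol (Pz w r 1)`
  (`Measure.addHaar_smul`, `finrank ℝ (Cn n) = 2 n`).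
* `submean`: let `P = Pz w r 1`. `P` is invariant under `x ↦ e^{iθ} x` (`rotIso`, which preserves
  the volume, `vol_pres`), so for each `θ`, `∫_P F(z + x) dx = ∫_P F(z + e^{iθ} x) dx`. Average over
  `θ ∈ [0, 2π]` and exchange the integrals (`F` is continuous on the compact `z + P`, bounded):
  `∫_P F(z + x) dx = ∫_P (1/2π) ∫_0^{2π} F(z + e^{iθ} x) dθ dx`, and the inner average is `F(z)`:
  mean value property for `λ ↦ F(z + λ x)`, which is holomorphic near the closed unit disc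
  (`λ x ∈ P` for `|λ| ≤ 1`, `z + P ⊆ U` open); cf. the proof of `mean_value` in
  `MP_db50ff_an/A1.lean`. So `vol P * F z = ∫_P F(z + x) dx`, whence
  `‖F z‖ vol P ≤ ∫_P ‖F(z + x)‖ dx`.
* `submean3`: for `z = w₀ + y` with `|⟨w, y⟩| ≤ 2r`, `|y| ≤ 2√r` one has `y + Pz w r 1 ⊆ Pz w r 3`;
  so `‖F(w₀ + y)‖ vol(Pz w r 1) ≤ ∫_{Pz w r 1} ‖F(w₀ + y + x)‖ dx ≤ ∫_{Pz w r 3} ‖F(w₀ + x)‖ dx`
  (translation invariance and monotonicity, `F` continuous on the compact set `w₀ + Pz w r 3`).
  Multiply by `3^(2n)` and use `Pz_scale`.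
-/

set_option autoImplicit false

namespace Pool.Agent.DBX

open MeasureTheory Metric Complex Real Pool.Agent.MPdb50ff

open scoped InnerProductSpace ComplexConjugate

theorem isCompact_Pz {n : ℕ} (w : Cn n) (r t : ℝ) : IsCompact (Pz w r t) := by
  apply (isCompact_closedBall (0 : Cn n) (t * Real.sqrt r)).of_isClosed_subset
  · have h1 : IsClosed {x : Cn n | ‖⟪w, x⟫_ℂ‖ ≤ t * r} :=
      isClosed_le (by fun_prop) continuous_const
    have h2 : IsClosed {x : Cn n | ‖x‖ ≤ t * Real.sqrt r} :=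
      isClosed_le (by fun_prop) continuous_const
    exact h1.inter h2
  · intro x hx
    rw [mem_closedBall_zero_iff]
    exact hx.2

private theorem subMean_ball_subset {n : ℕ} (w : Cn n) {r t : ℝ} (hr : 0 < r) (ht : 0 < t) :
    ball (0 : Cn n) (min (t * r) (t * Real.sqrt r) / (1 + ‖w‖)) ⊆ Pz w r t := by
  intro x hx
  rw [mem_ball_zero_iff] at hx
  have hw : 0 ≤ ‖w‖ := norm_nonneg _
  have h1 : (1 + ‖w‖) * ‖x‖ < min (t * r) (t * Real.sqrt r) := by
    rw [lt_div_iff₀ (by positivity)] at hx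
    linarith
  have hx0 : 0 ≤ ‖x‖ := norm_nonneg _
  refine ⟨?_, ?_⟩
  · have h2 : ‖⟪w, x⟫_ℂ‖ ≤ ‖w‖ * ‖x‖ := norm_inner_le_norm _ _
    have h3 := min_le_left (t * r) (t * Real.sqrt r)
    nlinarith
  · have h3 := min_le_right (t * r) (t * Real.sqrt r)
    nlinarith [mul_nonneg hw hx0]

theorem volume_Pz_pos {n : ℕ} (w : Cn n) {r t : ℝ} (hr : 0 < r) (ht : 0 < t) :
    0 < (volume (Pz w r t)).toReal := by
  rw [ENNReal.toReal_pos_iff]
  refine ⟨?_, (isCompact_Pz w r t).measure_lt_top⟩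
  refine lt_of_lt_of_le ?_ (measure_mono (subMean_ball_subset w hr ht))
  apply measure_ball_pos
  have : 0 < Real.sqrt r := Real.sqrt_pos.2 hr
  have hw : 0 ≤ ‖w‖ := norm_nonneg _
  have : 0 < min (t * r) (t * Real.sqrt r) := lt_min (by positivity) (by positivity)
  positivity

private theorem subMean_finrank (n : ℕ) : Module.finrank ℝ (Cn n) = 2 * n := by
  have h := finrank_real_of_complex (Cn n)
  rw [h]
  simp

private theorem subMean_Pz_scale {n : ℕ} (w : Cn n) (r : ℝ) :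
    Pz w r 3 = (fun x : Cn n => (3 : ℝ) • x) '' Pz w r 1 := by
  ext x
  constructor
  · rintro ⟨h1, h2⟩
    refine ⟨(1 / 3 : ℝ) • x, ⟨?_, ?_⟩, ?_⟩
    · have : ⟪w, (1 / 3 : ℝ) • x⟫_ℂ = ((1 / 3 : ℝ) : ℂ) * ⟪w, x⟫_ℂ := by
        rw [← Complex.coe_smul, inner_smul_right]
      rw [this, norm_mul, Complex.norm_real, Real.norm_of_nonneg (by norm_num)]
      linarith
    · rw [norm_smul, Real.norm_of_nonneg (by norm_num)]
      linarith
    · simp only
      rw [smul_smul]
      norm_num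
  · rintro ⟨y, ⟨h1, h2⟩, rfl⟩
    refine ⟨?_, ?_⟩
    · have : ⟪w, (3 : ℝ) • y⟫_ℂ = ((3 : ℝ) : ℂ) * ⟪w, y⟫_ℂ := by
        rw [← Complex.coe_smul, inner_smul_right]
      simp only
      rw [this, norm_mul, Complex.norm_real, Real.norm_of_nonneg (by norm_num)]
      linarith
    · simp only
      rw [norm_smul, Real.norm_of_nonneg (by norm_num)]
      linarith

theorem volume_Pz_three {n : ℕ} (w : Cn n) (r : ℝ) :
    (volume (Pz w r 3)).toReal = 3 ^ (2 * n) * (volume (Pz w r 1)).toReal := by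
  rw [subMean_Pz_scale]
  have h := Measure.addHaar_image_homothety (μ := (volume : Measure (Cn n))) 0 3 (Pz w r 1)
  have h0 : (fun x : Cn n => (3 : ℝ) • x) = AffineMap.homothety (0 : Cn n) (3 : ℝ) := by
    ext x : 1
    simp [AffineMap.homothety_apply]
  rw [h0, h, subMean_finrank, ENNReal.toReal_mul]
  congr 1
  rw [ENNReal.toReal_ofReal (by positivity), abs_of_nonneg (by positivity)]

private theorem subMean_smul_mem {n : ℕ} {w : Cn n} {r t : ℝ} {x : Cn n} (hx : x ∈ Pz w r t)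
    {c : ℂ} (hc : ‖c‖ ≤ 1) : c • x ∈ Pz w r t := by
  obtain ⟨h1, h2⟩ := hx
  refine ⟨?_, ?_⟩
  · rw [inner_smul_right, norm_mul]
    have : 0 ≤ ‖⟪w, x⟫_ℂ‖ := norm_nonneg _
    nlinarith
  · rw [norm_smul]
    have : 0 ≤ ‖x‖ := norm_nonneg _
    nlinarith

private theorem subMean_rot_preimage {n : ℕ} (w : Cn n) (r t : ℝ) (c : ℂ) (hc : ‖c‖ = 1) :
    (fun x : Cn n => rotIso n c hc x) ⁻¹' (Pz w r t) = Pz w r t := by
  ext x
  simp only [Set.mem_preimage, rotIso_apply]
  constructor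
  · intro h
    have hc0 : c ≠ 0 := by
      rintro rfl
      simp at hc
    have h2 := subMean_smul_mem h (c := c⁻¹) (by rw [norm_inv, hc]; norm_num)
    rwa [smul_smul, inv_mul_cancel₀ hc0, one_smul] at h2
  · intro h
    exact subMean_smul_mem h hc.le

private theorem subMean_rot_integral {n : ℕ} (w : Cn n) (r t : ℝ) (c : ℂ) (hc : ‖c‖ = 1)
    (G : Cn n → ℂ) :
    ∫ x in Pz w r t, G (c • x) = ∫ x in Pz w r t, G x := by
  have hmp := vol_pres (rotIso n c hc)
  have hemb : MeasurableEmbedding (fun x : Cn n => rotIso n c hc x) :=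
    (toRealIso (rotIso n c hc)).toHomeomorph.measurableEmbedding
  have h := hmp.setIntegral_preimage_emb hemb G (Pz w r t)
  rw [subMean_rot_preimage] at h
  exact h

private theorem subMean_mean {n : ℕ} (w z : Cn n) {r : ℝ} {F : Cn n → ℂ} {U : Set (Cn n)}
    (hU : IsOpen U) (hF : DifferentiableOn ℂ F U) (hsub : ∀ x ∈ Pz w r 1, z + x ∈ U) :
    ∫ x in Pz w r 1, F (z + x) = (volume (Pz w r 1)).toReal • F z := by
  have hPc := isCompact_Pz w r 1
  have hPm : MeasurableSet (Pz w r 1) := hPc.isClosed.measurableSet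
  have hnorm : ∀ t : ℝ, ‖circleMap 0 1 t‖ = 1 := by
    intro t
    rw [norm_circleMap_zero, abs_one]
  have h1 : ∀ t : ℝ, ∫ x in Pz w r 1, F (z + circleMap 0 1 t • x) =
      ∫ x in Pz w r 1, F (z + x) := by
    intro t
    exact subMean_rot_integral w r 1 _ (hnorm t) (fun x => F (z + x))
  have h2 : ∀ x ∈ Pz w r 1,
      ∫ t in (0 : ℝ)..(2 * Real.pi), F (z + circleMap 0 1 t • x) = (2 * Real.pi) • F z := by
    intro x hx
    have h3 : Real.circleAverage (fun c : ℂ => F (z + c • x)) 0 1 = F (z + (0 : ℂ) • x) := by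
      apply DiffContOnCl.circleAverage
      have hd : DifferentiableOn ℂ (fun c : ℂ => F (z + c • x)) (closedBall 0 |1|) := by
        intro c hc
        have hc' : ‖c‖ ≤ 1 := by
          rwa [mem_closedBall_zero_iff, abs_one] at hc
        have hz' := hsub _ (subMean_smul_mem hx hc')
        have h4 : DifferentiableAt ℂ F (z + c • x) :=
          (hF _ hz').differentiableAt (hU.mem_nhds hz')
        exact (h4.comp c (by fun_prop :
          DifferentiableAt ℂ (fun c : ℂ => z + c • x) c)).differentiableWithinAt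
      exact hd.diffContOnCl_ball subset_rfl
    rw [Real.circleAverage_def] at h3
    rw [zero_smul, add_zero] at h3
    rw [← h3, smul_smul, mul_inv_cancel₀ (by positivity), one_smul]
  have hFc : ContinuousOn (fun x => F (z + x)) (Pz w r 1) := by
    apply hF.continuousOn.comp (by fun_prop)
    intro x hx
    exact hsub x hx
  obtain ⟨C, hC⟩ := hPc.exists_bound_of_continuousOn hFc
  have hint : Integrable (Function.uncurry fun (t : ℝ) (x : Cn n) =>
      F (z + circleMap 0 1 t • x))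
      ((volume.restrict (Set.Ioc 0 (2 * Real.pi))).prod (volume.restrict (Pz w r 1))) := by
    rw [Measure.prod_restrict]
    have hc : ContinuousOn (Function.uncurry fun (t : ℝ) (x : Cn n) =>
        F (z + circleMap 0 1 t • x)) (Set.univ ×ˢ Pz w r 1) := by
      apply hF.continuousOn.comp
      · fun_prop
      · rintro ⟨t, x⟩ ⟨_, hx⟩
        exact hsub _ (subMean_smul_mem hx (hnorm t).le)
    have hms : MeasurableSet ((Set.univ : Set ℝ) ×ˢ Pz w r 1) := MeasurableSet.univ.prod hPm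
    have hms' : MeasurableSet ((Set.Ioc 0 (2 * Real.pi) : Set ℝ) ×ˢ Pz w r 1) :=
      measurableSet_Ioc.prod hPm
    have hfin : (volume.prod volume : Measure (ℝ × Cn n))
        ((Set.Ioc 0 (2 * Real.pi) : Set ℝ) ×ˢ Pz w r 1) < ⊤ := by
      rw [Measure.prod_prod]
      exact ENNReal.mul_lt_top (by rw [Real.volume_Ioc]; exact ENNReal.ofReal_lt_top)
        hPc.measure_lt_top
    refine IntegrableOn.of_bound hfin ?_ C ?_
    · exact ((hc.mono (Set.prod_mono (Set.subset_univ _) subset_rfl)).aestronglyMeasurable hms')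
    · refine (ae_restrict_mem hms').mono ?_
      rintro ⟨t, x⟩ ⟨_, hx⟩
      exact hC _ (subMean_smul_mem hx (hnorm t).le)
  have h5 := integral_integral_swap hint
  simp_rw [h1] at h5
  have h6 : ∫ x in Pz w r 1, ∫ t in Set.Ioc (0 : ℝ) (2 * Real.pi),
      F (z + circleMap 0 1 t • x) = ∫ x in Pz w r 1, (2 * Real.pi) • F z := by
    apply setIntegral_congr_fun hPm
    intro x hx
    simp only
    rw [← h2 x hx, intervalIntegral.integral_of_le (by positivity)]
  rw [h6] at h5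
  simp only [integral_const, measureReal_restrict_apply_univ, Real.volume_real_Ioc] at h5
  rw [sub_zero, max_eq_left (by positivity), smul_comm] at h5
  exact smul_right_injective ℂ (by positivity : (2 * Real.pi) ≠ 0) h5

theorem submean {n : ℕ} (w z : Cn n) {r : ℝ} {F : Cn n → ℂ} {U : Set (Cn n)} (hU : IsOpen U)
    (hF : DifferentiableOn ℂ F U) (hsub : ∀ x ∈ Pz w r 1, z + x ∈ U) :
    ‖F z‖ * (volume (Pz w r 1)).toReal ≤ ∫ x in Pz w r 1, ‖F (z + x)‖ := by
  have h := subMean_mean w z hU hF hsub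
  calc ‖F z‖ * (volume (Pz w r 1)).toReal
      = ‖∫ x in Pz w r 1, F (z + x)‖ := by
        rw [h, norm_smul, Real.norm_of_nonneg ENNReal.toReal_nonneg, mul_comm]
    _ ≤ ∫ x in Pz w r 1, ‖F (z + x)‖ := norm_integral_le_integral_norm _

theorem submean3 {n : ℕ} (w w₀ : Cn n) {r : ℝ} (hr : 0 < r) {F : Cn n → ℂ} {U : Set (Cn n)}
    (hU : IsOpen U) (hF : DifferentiableOn ℂ F U) (hsub : ∀ x ∈ Pz w r 3, w₀ + x ∈ U)
    {y : Cn n} (hy1 : ‖⟪w, y⟫_ℂ‖ ≤ 2 * r) (hy2 : ‖y‖ ≤ 2 * Real.sqrt r) :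
    ‖F (w₀ + y)‖ * (volume (Pz w r 3)).toReal ≤ 3 ^ (2 * n) * ∫ x in Pz w r 3, ‖F (w₀ + x)‖ := by
  have hin : ∀ x ∈ Pz w r 1, y + x ∈ Pz w r 3 := by
    rintro x ⟨h1, h2⟩
    refine ⟨?_, ?_⟩
    · rw [inner_add_right]
      refine (norm_add_le _ _).trans ?_
      linarith
    · refine (norm_add_le _ _).trans ?_
      linarith
  have h1 := submean w (w₀ + y) hU hF (fun x hx => by
    rw [add_assoc]
    exact hsub _ (hin x hx))
  have hPc3 := isCompact_Pz w r 3
  have hFc : ContinuousOn (fun x => ‖F (w₀ + x)‖) (Pz w r 3) := by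
    apply ContinuousOn.norm
    apply hF.continuousOn.comp (by fun_prop)
    intro x hx
    exact hsub x hx
  have hint3 : IntegrableOn (fun x => ‖F (w₀ + x)‖) (Pz w r 3) := hFc.integrableOn_compact hPc3
  have h2 : ∫ x in Pz w r 1, ‖F (w₀ + y + x)‖ ≤ ∫ x in Pz w r 3, ‖F (w₀ + x)‖ := by
    have hmp : MeasurePreserving (fun x : Cn n => y + x) volume volume :=
      measurePreserving_add_left volume y
    have hemb : MeasurableEmbedding (fun x : Cn n => y + x) :=
      (Homeomorph.addLeft y).measurableEmbedding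
    have h3 := hmp.setIntegral_image_emb hemb (fun x => ‖F (w₀ + x)‖) (Pz w r 1)
    have h4 : ∫ x in Pz w r 1, ‖F (w₀ + y + x)‖ =
        ∫ x in (fun x : Cn n => y + x) '' Pz w r 1, ‖F (w₀ + x)‖ := by
      rw [h3]
      simp only [add_assoc]
    rw [h4]
    apply setIntegral_mono_set hint3 (Filter.Eventually.of_forall fun x => norm_nonneg _)
    apply Filter.Eventually.of_forall
    rintro _ ⟨x, hx, rfl⟩
    exact hin x hx
  rw [volume_Pz_three]
  have h3 : ‖F (w₀ + y)‖ * (volume (Pz w r 1)).toReal ≤ ∫ x in Pz w r 3, ‖F (w₀ + x)‖ :=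
    h1.trans h2
  calc ‖F (w₀ + y)‖ * (3 ^ (2 * n) * (volume (Pz w r 1)).toReal)
      = 3 ^ (2 * n) * (‖F (w₀ + y)‖ * (volume (Pz w r 1)).toReal) := by ring
    _ ≤ 3 ^ (2 * n) * ∫ x in Pz w r 3, ‖F (w₀ + x)‖ :=
        mul_le_mul_of_nonneg_left h3 (by positivity)

end Pool.Agent.DBX
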