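import Mathlib
import Pool.Agent.Lib.DBX.SubMean
import Pool.Agent.Lib.DBX.Mom

/-!
# DBX.EvProb: probability of a large exponential integral

PROOF. For fixed `x ∈ Pz w r 3`, `mgf_le` with `c p = κ * (g p (w + x)).re` for `p ∈ F`, `0` for
`p ∉ F`, gives `∑_ε exp(κ ∑_{p ∈ F} sg(ε p) Re g_p(w + x)) ≤ K exp(κ² v / 2)`, `K = card (V → Bool)`.
Integrate over the compact set `Pz w r 3` (the integrands are continuous there, finite sum of
integrals): `∑_ε Y(ε) ≤ K exp(κ² v/2) vol`, `Y(ε) = ∫_{Pz w r 3} exp(...)`, `vol > 0`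
(`volume_Pz_pos`). Markov: `#{ε : Y(ε) > e^m vol} e^m vol ≤ ∑_ε Y(ε)` (`Y ≥ 0`). Divide.
-/

set_option autoImplicit false

namespace Pool.Agent.DBX

open MeasureTheory Metric Complex Real Pool.Agent.MPdb50ff

open scoped InnerProductSpace ComplexConjugate

open scoped Classical in
private theorem evProb_point {n : ℕ} {V : Type*} [Fintype V] (F : Finset V) (g : V → Cn n → ℂ)
    (y : Cn n) {v : ℝ} (hv : ∑ p ∈ F, (g p y).re ^ 2 ≤ v) (κ : ℝ) :
    ∑ ε : V → Bool, Real.exp (κ * (∑ p ∈ F, ((sg (ε p) : ℝ) : ℂ) * g p y).re) ≤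
      (Fintype.card (V → Bool) : ℝ) * Real.exp (κ ^ 2 * v / 2) := by
  have h := mgf_le (fun p : V => if p ∈ F then κ * (g p y).re else 0)
  have h1 : ∀ ε : V → Bool, κ * (∑ p ∈ F, ((sg (ε p) : ℝ) : ℂ) * g p y).re =
      ∑ p, sg (ε p) * (if p ∈ F then κ * (g p y).re else 0) := by
    intro ε
    rw [Complex.re_sum, Finset.mul_sum]
    simp only [mul_ite, mul_zero]
    rw [Finset.sum_ite_mem, Finset.univ_inter]
    refine Finset.sum_congr rfl fun p _ => ?_
    rw [Complex.re_ofReal_mul]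
    ring
  have h2 : ∑ p, (if p ∈ F then κ * (g p y).re else 0) ^ 2 ≤ κ ^ 2 * v := by
    have h3 : ∑ p, (if p ∈ F then κ * (g p y).re else 0) ^ 2 =
        κ ^ 2 * ∑ p ∈ F, (g p y).re ^ 2 := by
      rw [Finset.mul_sum]
      simp only [ite_pow, ne_eq, OfNat.ofNat_ne_zero, not_false_eq_true, zero_pow]
      rw [Finset.sum_ite_mem, Finset.univ_inter]
      refine Finset.sum_congr rfl fun p _ => ?_
      ring
    rw [h3]
    exact mul_le_mul_of_nonneg_left hv (sq_nonneg κ)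
  calc ∑ ε : V → Bool, Real.exp (κ * (∑ p ∈ F, ((sg (ε p) : ℝ) : ℂ) * g p y).re)
      = ∑ ε : V → Bool,
          Real.exp (∑ p, sg (ε p) * (if p ∈ F then κ * (g p y).re else 0)) :=
        Finset.sum_congr rfl fun ε _ => by rw [h1 ε]
    _ ≤ _ := h
    _ ≤ _ := by
        refine mul_le_mul_of_nonneg_left ?_ (Nat.cast_nonneg _)
        refine Real.exp_le_exp.mpr ?_
        linarith

open scoped Classical in
theorem ev_prob {n : ℕ} {V : Type*} [Fintype V] (F : Finset V) (g : V → Cn n → ℂ)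
    (w : Cn n) {r : ℝ} (hr : 0 < r)
    (hg : ∀ p ∈ F, ContinuousOn (fun x => g p (w + x)) (Pz w r 3)) {v : ℝ}
    (hv : ∀ x ∈ Pz w r 3, ∑ p ∈ F, (g p (w + x)).re ^ 2 ≤ v) (κ m : ℝ) :
    (((Finset.univ : Finset (V → Bool)).filter fun ε =>
        Real.exp m * (volume (Pz w r 3)).toReal <
          ∫ x in Pz w r 3, Real.exp (κ * (∑ p ∈ F, ((sg (ε p) : ℝ) : ℂ) * g p (w + x)).re)).card : ℝ)
      ≤ Real.exp (κ ^ 2 * v / 2 - m) * (Fintype.card (V → Bool) : ℝ) := by
  have hcomp : IsCompact (Pz w r 3) := isCompact_Pz w r 3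
  have hvol : 0 < (volume (Pz w r 3)).toReal := volume_Pz_pos w hr (by norm_num)
  have hfin : volume (Pz w r 3) < ⊤ := hcomp.measure_lt_top
  have hcont : ∀ ε : V → Bool, ContinuousOn
      (fun x => Real.exp (κ * (∑ p ∈ F, ((sg (ε p) : ℝ) : ℂ) * g p (w + x)).re)) (Pz w r 3) := by
    intro ε
    refine Real.continuous_exp.comp_continuousOn ?_
    refine continuousOn_const.mul ?_
    refine Complex.continuous_re.comp_continuousOn ?_
    refine continuousOn_finsetSum F fun p hp => ?_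
    exact continuousOn_const.mul (hg p hp)
  have hint : ∀ ε : V → Bool, IntegrableOn
      (fun x => Real.exp (κ * (∑ p ∈ F, ((sg (ε p) : ℝ) : ℂ) * g p (w + x)).re)) (Pz w r 3) :=
    fun ε => (hcont ε).integrableOn_compact hcomp
  have hsum : ∑ ε : V → Bool,
      ∫ x in Pz w r 3, Real.exp (κ * (∑ p ∈ F, ((sg (ε p) : ℝ) : ℂ) * g p (w + x)).re) ≤
      (Fintype.card (V → Bool) : ℝ) * Real.exp (κ ^ 2 * v / 2) *
        (volume (Pz w r 3)).toReal := by
    rw [← integral_finsetSum _ fun ε _ => hint ε]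
    have hle : ∫ x in Pz w r 3, ∑ ε : V → Bool,
        Real.exp (κ * (∑ p ∈ F, ((sg (ε p) : ℝ) : ℂ) * g p (w + x)).re) ≤
        ∫ _ in Pz w r 3, (Fintype.card (V → Bool) : ℝ) * Real.exp (κ ^ 2 * v / 2) := by
      refine setIntegral_mono_on ?_ ?_ hcomp.measurableSet ?_
      · exact integrable_finsetSum _ fun ε _ => hint ε
      · exact (continuousOn_const (c := (Fintype.card (V → Bool) : ℝ) *
          Real.exp (κ ^ 2 * v / 2))).integrableOn_compact hcomp
      · intro x hx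
        exact evProb_point F g (w + x) (hv x hx) κ
    refine hle.trans (le_of_eq ?_)
    rw [setIntegral_const, smul_eq_mul, mul_comm]
    rfl
  have hYnn : ∀ ε : V → Bool, 0 ≤
      ∫ x in Pz w r 3, Real.exp (κ * (∑ p ∈ F, ((sg (ε p) : ℝ) : ℂ) * g p (w + x)).re) :=
    fun ε => integral_nonneg fun x => (Real.exp_pos _).le
  have hmark : (((Finset.univ : Finset (V → Bool)).filter fun ε =>
        Real.exp m * (volume (Pz w r 3)).toReal <
          ∫ x in Pz w r 3, Real.exp (κ * (∑ p ∈ F, ((sg (ε p) : ℝ) : ℂ) * g p (w + x)).re)).card : ℝ)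
      * (Real.exp m * (volume (Pz w r 3)).toReal) ≤
      ∑ ε : V → Bool,
        ∫ x in Pz w r 3, Real.exp (κ * (∑ p ∈ F, ((sg (ε p) : ℝ) : ℂ) * g p (w + x)).re) := by
    rw [← nsmul_eq_mul]
    refine (Finset.card_nsmul_le_sum _ _ _ ?_).trans
      (Finset.sum_le_sum_of_subset_of_nonneg (Finset.filter_subset _ _) fun ε _ _ => hYnn ε)
    intro ε hε
    exact (Finset.mem_filter.mp hε).2.le
  have hpos : 0 < Real.exp m * (volume (Pz w r 3)).toReal := mul_pos (Real.exp_pos m) hvol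
  refine le_of_mul_le_mul_right ((hmark.trans hsum).trans (le_of_eq ?_)) hpos
  have hexp : Real.exp (κ ^ 2 * v / 2) = Real.exp (κ ^ 2 * v / 2 - m) * Real.exp m := by
    rw [← Real.exp_add]
    congr 1
    ring
  rw [hexp]
  ring

end Pool.Agent.DBX
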