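import Mathlib
import Pool.Agent.Lib.DBX.SubMean

/-!
# DBX.NearSup: from an exponential integral to a pointwise bound

PROOF. Apply `submean3` to `F = exp (κ G)`, `‖F‖ = exp (κ Re G)`:
`exp(κ Re G(w + y)) vol ≤ 3^(2n) ∫_{Pz w r 3} exp(κ Re G(w + x)) dx ≤ 3^(2n) e^m vol`,
`vol = vol (Pz w r 3) > 0`. Take logarithms: `κ Re G(w + y) ≤ m + 2 n log 3`.
-/

set_option autoImplicit false

namespace Pool.Agent.DBX

open MeasureTheory Metric Complex Real Pool.Agent.MPdb50ff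

open scoped InnerProductSpace ComplexConjugate

theorem near_sup {n : ℕ} (w : Cn n) {r : ℝ} (hr : 0 < r) {G : Cn n → ℂ} {U : Set (Cn n)}
    (hU : IsOpen U) (hG : DifferentiableOn ℂ G U) (hsub : ∀ x ∈ Pz w r 3, w + x ∈ U) {κ m : ℝ}
    (hY : ∫ x in Pz w r 3, Real.exp (κ * (G (w + x)).re) ≤
      Real.exp m * (volume (Pz w r 3)).toReal)
    {y : Cn n} (hy1 : ‖⟪w, y⟫_ℂ‖ ≤ 2 * r) (hy2 : ‖y‖ ≤ 2 * Real.sqrt r) :
    κ * (G (w + y)).re ≤ m + 2 * n * Real.log 3 := by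
  have hF : DifferentiableOn ℂ (fun x => Complex.exp ((κ : ℂ) * G x)) U :=
    (hG.const_mul (κ : ℂ)).cexp
  have h := submean3 w w hr hU hF hsub hy1 hy2
  have hnorm : ∀ z : Cn n, ‖Complex.exp ((κ : ℂ) * G z)‖ = Real.exp (κ * (G z).re) := by
    intro z
    rw [Complex.norm_exp, Complex.re_ofReal_mul]
  simp only [hnorm] at h
  have hvol := volume_Pz_pos w hr (by norm_num : (0 : ℝ) < 3)
  have h2 : Real.exp (κ * (G (w + y)).re) * (volume (Pz w r 3)).toReal ≤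
      (3 ^ (2 * n) * Real.exp m) * (volume (Pz w r 3)).toReal := by
    refine h.trans ?_
    calc (3 : ℝ) ^ (2 * n) * ∫ x in Pz w r 3, Real.exp (κ * (G (w + x)).re)
        ≤ 3 ^ (2 * n) * (Real.exp m * (volume (Pz w r 3)).toReal) :=
          mul_le_mul_of_nonneg_left hY (by positivity)
      _ = (3 ^ (2 * n) * Real.exp m) * (volume (Pz w r 3)).toReal := by ring
  have h3 := le_of_mul_le_mul_right h2 hvol
  have h4 : (3 : ℝ) ^ (2 * n) * Real.exp m = Real.exp (m + 2 * n * Real.log 3) := by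
    rw [Real.exp_add, mul_comm]
    congr 1
    rw [mul_comm (2 * (n : ℝ)), Real.exp_mul, Real.exp_log (by norm_num)]
    rw [← Real.rpow_natCast]
    push_cast
    rfl
  rw [h4] at h3
  exact Real.exp_le_exp.1 h3

end Pool.Agent.DBX
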