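import Mathlib
import Pool.Agent.Lib.DBX.Defs

/-!
# DBX.Num: numerical facts on the parameters (`n ≥ 2`)

PROOFS. `ℓ = Nat.log 2 n + 1 ≥ 2`, `n < 2^ℓ` (`Nat.lt_pow_succ_log_self`), `L = n ℓ ≥ 4`,
`2 n ≤ L`, `L ≤ 2^ℓ * 2^ℓ = 2^(2ℓ)` (`Nat.lt_two_pow_self`).
* `kappa_le`: `15 * 10^6 * q² = 15 * 10^16 * L² ≤ 2^58 * 2^(4ℓ) ≤ 2^(29ℓ) * 2^(4ℓ) = 2^(33ℓ)`
  (`15 * 10^16 ≤ 2^58`, `58 ≤ 29 ℓ`). The power `2n`: `(2^(33ℓ))^(2n) = 2^(66 L)`.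
* `log_MM_le`: `M = 10^6 q² = 10^16 L² ≤ 2^54 * 2^(4ℓ) ≤ 2^(27ℓ + 4ℓ)`, so
  `log M ≤ 31 ℓ log 2 ≤ 22 ℓ` (`log 2 < 0.6931471808`, `Real.log_two_lt_d9`; `31 * 0.69315 = 21.49`).
* `two_pow_le_exp`: `2^(k L) ≤ exp((7/10) k L)` since `2 ≤ exp(0.7)` (`log 2 ≤ 0.7`).
* `ell_le_log`: `2^(ℓ - 1) ≤ n` (`Nat.pow_log_le_self`), so `(ℓ - 1) log 2 ≤ log n`, and
  `log 2 ≤ log n`; `ℓ log 2 ≤ 2 log n`, `2 / log 2 ≤ 2.886 ≤ 3` (`Real.log_two_gt_d9`).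
-/

set_option autoImplicit false

namespace Pool.Agent.DBX

open MeasureTheory Metric Complex Real Pool.Agent.MPdb50ff

theorem two_le_ell {n : ℕ} (hn : 2 ≤ n) : 2 ≤ ell n := by
  unfold ell
  have h : 1 ≤ Nat.log 2 n := Nat.log_pos (by norm_num) hn
  omega

theorem four_le_LL {n : ℕ} (hn : 2 ≤ n) : 4 ≤ LL n := by
  unfold LL
  have h := two_le_ell hn
  calc 4 = 2 * 2 := by norm_num
    _ ≤ n * ell n := Nat.mul_le_mul hn h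

theorem two_mul_le_LL {n : ℕ} (hn : 2 ≤ n) : 2 * n ≤ LL n := by
  unfold LL
  have h := two_le_ell hn
  calc 2 * n = n * 2 := by ring
    _ ≤ n * ell n := Nat.mul_le_mul le_rfl h

theorem one_le_qq {n : ℕ} (hn : 2 ≤ n) : 1 ≤ qq n := by
  unfold qq
  have h := four_le_LL hn
  omega

theorem LL_le {n : ℕ} (hn : 2 ≤ n) : LL n ≤ 2 ^ (2 * ell n) := by
  have h1 : n < 2 ^ ell n := by
    unfold ell
    exact Nat.lt_pow_succ_log_self (by norm_num) n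
  have h2 : ell n < 2 ^ ell n := Nat.lt_two_pow_self
  calc LL n = n * ell n := rfl
    _ ≤ 2 ^ ell n * 2 ^ ell n := Nat.mul_le_mul h1.le h2.le
    _ = 2 ^ (2 * ell n) := by rw [two_mul, pow_add]

private theorem Num_LL_sq {n : ℕ} (hn : 2 ≤ n) : LL n ^ 2 ≤ 2 ^ (4 * ell n) := by
  have h := LL_le hn
  calc LL n ^ 2 ≤ (2 ^ (2 * ell n)) ^ 2 := Nat.pow_le_pow_left h 2
    _ = 2 ^ (4 * ell n) := by rw [← pow_mul]; congr 1; ring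

private theorem Num_aux1 {n : ℕ} (hn : 2 ≤ n) :
    15 * 10 ^ 6 * qq n ^ 2 ≤ 2 ^ (33 * ell n) := by
  have h := Num_LL_sq hn
  have hl := two_le_ell hn
  have h3 : (2 : ℕ) ^ 58 ≤ 2 ^ (29 * ell n) := Nat.pow_le_pow_right (by norm_num) (by omega)
  calc 15 * 10 ^ 6 * qq n ^ 2 = (15 * 10 ^ 16) * LL n ^ 2 := by unfold qq; ring
    _ ≤ 2 ^ 58 * 2 ^ (4 * ell n) := Nat.mul_le_mul (by norm_num) h
    _ ≤ 2 ^ (29 * ell n) * 2 ^ (4 * ell n) := Nat.mul_le_mul h3 le_rfl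
    _ = 2 ^ (33 * ell n) := by rw [← pow_add]; congr 1; ring

private theorem Num_aux2 {n : ℕ} (hn : 2 ≤ n) : MM n ≤ 2 ^ (31 * ell n) := by
  have h := Num_LL_sq hn
  have hl := two_le_ell hn
  have h3 : (2 : ℕ) ^ 54 ≤ 2 ^ (27 * ell n) := Nat.pow_le_pow_right (by norm_num) (by omega)
  calc MM n = (10 ^ 16) * LL n ^ 2 := by unfold MM qq; ring
    _ ≤ 2 ^ 54 * 2 ^ (4 * ell n) := Nat.mul_le_mul (by norm_num) h
    _ ≤ 2 ^ (27 * ell n) * 2 ^ (4 * ell n) := Nat.mul_le_mul h3 le_rfl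
    _ = 2 ^ (31 * ell n) := by rw [← pow_add]; congr 1; ring

theorem kappa_le {n : ℕ} (hn : 2 ≤ n) :
    (15 * 10 ^ 6 * (qq n : ℝ) ^ 2) ^ (2 * n) ≤ (2 : ℝ) ^ (66 * LL n) := by
  have h0 : (0 : ℝ) ≤ 15 * 10 ^ 6 * (qq n : ℝ) ^ 2 :=
    mul_nonneg (by norm_num) (sq_nonneg _)
  have h := Num_aux1 hn
  have h' : (15 * 10 ^ 6 * (qq n : ℝ) ^ 2) ≤ (2 : ℝ) ^ (33 * ell n) := by exact_mod_cast h
  calc (15 * 10 ^ 6 * (qq n : ℝ) ^ 2) ^ (2 * n) ≤ ((2 : ℝ) ^ (33 * ell n)) ^ (2 * n) :=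
        pow_le_pow_left₀ h0 h' _
    _ = (2 : ℝ) ^ (66 * LL n) := by
        rw [← pow_mul]; congr 1; unfold LL; ring

theorem log_MM_le {n : ℕ} (hn : 2 ≤ n) : Real.log (MM n : ℝ) ≤ 22 * (ell n : ℝ) := by
  have hpos' : 0 < MM n :=
    Nat.mul_pos (by norm_num) (Nat.pow_pos (one_le_qq hn))
  have hpos : (0 : ℝ) < (MM n : ℝ) := Nat.cast_pos.2 hpos'
  have h := Num_aux2 hn
  have h' : (MM n : ℝ) ≤ (2 : ℝ) ^ (31 * ell n) := by exact_mod_cast h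
  have h1 : Real.log (MM n : ℝ) ≤ Real.log ((2 : ℝ) ^ (31 * ell n)) := Real.log_le_log hpos h'
  rw [Real.log_pow] at h1
  clear h h' hpos hpos'
  have h2 := Real.log_two_lt_d9
  have h3 : (0 : ℝ) ≤ (ell n : ℝ) := Nat.cast_nonneg _
  push_cast at h1
  generalize (ell n : ℝ) = x at *
  nlinarith

theorem two_pow_le_exp (k L : ℕ) : (2 : ℝ) ^ (k * L) ≤ Real.exp (7 / 10 * (k * L)) := by
  have h2 := Real.log_two_lt_d9
  have h1 : (2 : ℝ) ≤ Real.exp (7 / 10) := by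
    rw [← Real.log_le_iff_le_exp (by norm_num)]
    linarith
  calc (2 : ℝ) ^ (k * L) ≤ (Real.exp (7 / 10)) ^ (k * L) :=
        pow_le_pow_left₀ (by norm_num) h1 _
    _ = Real.exp (7 / 10 * (k * L)) := by
        rw [← Real.exp_nat_mul]; congr 1; push_cast; ring

theorem ell_le_log {n : ℕ} (hn : 2 ≤ n) : (ell n : ℝ) ≤ 3 * Real.log n := by
  have hn0 : n ≠ 0 := by omega
  have h1 : 2 ^ Nat.log 2 n ≤ n := Nat.pow_log_le_self 2 hn0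
  have h1' : (2 : ℝ) ^ Nat.log 2 n ≤ (n : ℝ) := by exact_mod_cast h1
  have h2 : Real.log ((2 : ℝ) ^ Nat.log 2 n) ≤ Real.log (n : ℝ) :=
    Real.log_le_log (by positivity) h1'
  rw [Real.log_pow] at h2
  have h3 : Real.log 2 ≤ Real.log (n : ℝ) :=
    Real.log_le_log (by norm_num) (by exact_mod_cast hn)
  have h4 := Real.log_two_gt_d9
  have h5 : (0 : ℝ) ≤ (Nat.log 2 n : ℝ) := Nat.cast_nonneg _
  have h6 : (ell n : ℝ) = (Nat.log 2 n : ℝ) + 1 := by unfold ell; push_cast; ring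
  rw [h6]
  nlinarith

end Pool.Agent.DBX
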