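import Mathlib
import Pool.Agent.Lib.DBX.Num

/-!
# DBX.NumR: the parameters `rr`, `c0`, `thet` (`n ≥ 2`, `D ≥ 1`, `q = qq n ≥ 1`, `L = LL n ≥ 4`)

PROOFS. `rr n D = 1/(10^6 q² (2 D))`.
* `rr_le`: `q ≥ 1`, `2 D ≥ 1`. `Nr_eq`: `2 D * r = 1/(10^6 q²)`. `sqrt_Nr`: square root of `Nr_eq`.
  `sqrt_Nr_le`: `1/(1000 q) ≤ 1/1000`.
* `MM_rr`: `M = 10^6 q²`, so `1/(2 (M D)) = 1/(10^6 q² (2 D))`.
* `eight_rr_le`: `8 r = 4/(10^6 q² D) ≤ 1/(4 D)`.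
* `c0_sq`: `Real.sq_sqrt`. `c0_le`: `c0² ≤ 1/(8 * 10^13) ≤ (1/10^6)²`.
* `thet_eq`: `1/(2 * 10^13 * L)/50000 = 1/(10^18 L)`.
-/

set_option autoImplicit false

namespace Pool.Agent.DBX

open MeasureTheory Metric Complex Real Pool.Agent.MPdb50ff

private theorem numR_q {n : ℕ} (hn : 2 ≤ n) : (1 : ℝ) ≤ (qq n : ℝ) := by
  exact_mod_cast one_le_qq hn

private theorem numR_D {D : ℕ} (hD : 1 ≤ D) : (1 : ℝ) ≤ (D : ℝ) := by
  exact_mod_cast hD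

private theorem numR_L {n : ℕ} (hn : 2 ≤ n) : (4 : ℝ) ≤ (LL n : ℝ) := by
  exact_mod_cast four_le_LL hn

theorem rr_pos {n D : ℕ} (hn : 2 ≤ n) (hD : 1 ≤ D) : 0 < rr n D := by
  have hq := numR_q hn
  have hD' := numR_D hD
  unfold rr
  positivity

theorem rr_le {n D : ℕ} (hn : 2 ≤ n) (hD : 1 ≤ D) : rr n D ≤ 1 / 10 ^ 6 := by
  have hq := numR_q hn
  have hD' := numR_D hD
  unfold rr
  apply one_div_le_one_div_of_le (by norm_num)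
  have h1 : (1 : ℝ) ≤ (qq n : ℝ) ^ 2 := one_le_pow₀ hq
  have h2 : (1 : ℝ) ≤ 2 * (D : ℝ) := by linarith
  have h3 : (1 : ℝ) ≤ (qq n : ℝ) ^ 2 * (2 * (D : ℝ)) := by nlinarith
  nlinarith

theorem Nr_eq {n D : ℕ} (hn : 2 ≤ n) (hD : 1 ≤ D) :
    ((2 * D : ℕ) : ℝ) * rr n D = (1 / (1000 * (qq n : ℝ))) ^ 2 := by
  have hq := numR_q hn
  have hD' := numR_D hD
  have hq0 : (qq n : ℝ) ≠ 0 := by positivity
  have hD0 : (D : ℝ) ≠ 0 := by positivity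
  unfold rr
  push_cast
  field_simp
  norm_num

theorem sqrt_Nr {n D : ℕ} (hn : 2 ≤ n) (hD : 1 ≤ D) :
    Real.sqrt (((2 * D : ℕ) : ℝ) * rr n D) = 1 / (1000 * (qq n : ℝ)) := by
  have hq := numR_q hn
  rw [Nr_eq hn hD]
  exact Real.sqrt_sq (by positivity)

theorem sqrt_Nr_le {n D : ℕ} (hn : 2 ≤ n) (hD : 1 ≤ D) :
    Real.sqrt (((2 * D : ℕ) : ℝ) * rr n D) ≤ 1 / 100 := by
  have hq := numR_q hn
  rw [sqrt_Nr hn hD]
  apply one_div_le_one_div_of_le (by norm_num)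
  nlinarith

theorem MM_rr {n D : ℕ} (hn : 2 ≤ n) (hD : 1 ≤ D) :
    1 / (2 * ((MM n * D : ℕ) : ℝ)) = rr n D := by
  have hq := numR_q hn
  have hD' := numR_D hD
  unfold rr MM
  push_cast
  congr 1
  ring

theorem eight_rr_le {n D : ℕ} (hn : 2 ≤ n) (hD : 1 ≤ D) :
    1 + 8 * rr n D ≤ 1 + 1 / (2 * ((2 * D : ℕ) : ℝ)) := by
  have hq := numR_q hn
  have hD' := numR_D hD
  have h1 : (1 : ℝ) ≤ (qq n : ℝ) ^ 2 := one_le_pow₀ hq
  have hD0 : (0 : ℝ) < (D : ℝ) := by positivity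
  have h2 : rr n D ≤ 1 / (10 ^ 6 * (2 * (D : ℝ))) := by
    unfold rr
    apply one_div_le_one_div_of_le (by positivity)
    nlinarith
  have h3 : 8 * (1 / (10 ^ 6 * (2 * (D : ℝ)))) ≤ 1 / (2 * ((2 * D : ℕ) : ℝ)) := by
    push_cast
    rw [← mul_div_assoc, div_le_div_iff₀ (by positivity) (by positivity)]
    nlinarith
  linarith

theorem c0_pos {n : ℕ} (hn : 2 ≤ n) : 0 < c0 n := by
  have hL := numR_L hn
  unfold c0
  apply Real.sqrt_pos.mpr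
  positivity

theorem c0_sq {n : ℕ} (hn : 2 ≤ n) : c0 n ^ 2 = 1 / (2 * 10 ^ 13 * (LL n : ℝ)) := by
  have hL := numR_L hn
  unfold c0
  rw [Real.sq_sqrt (by positivity)]

theorem c0_le {n : ℕ} (hn : 2 ≤ n) : c0 n ≤ 1 / 10 ^ 6 := by
  have hL := numR_L hn
  unfold c0
  rw [Real.sqrt_le_left (by norm_num)]
  rw [one_div_pow]
  apply one_div_le_one_div_of_le (by norm_num)
  nlinarith

theorem thet_eq {n : ℕ} (hn : 2 ≤ n) : thet n = c0 n ^ 2 / 50000 := by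
  have hL := numR_L hn
  rw [c0_sq hn]
  unfold thet
  rw [div_div]
  congr 1
  ring

theorem thet_pos {n : ℕ} (hn : 2 ≤ n) : 0 < thet n := by
  have hL := numR_L hn
  unfold thet
  positivity

theorem thet_le {n : ℕ} (hn : 2 ≤ n) : thet n ≤ 1 / 10 ^ 18 := by
  have hL := numR_L hn
  unfold thet
  apply one_div_le_one_div_of_le (by norm_num)
  nlinarith

end Pool.Agent.DBX
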