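import Mathlib
import Pool.Agent.Lib.DBX.Defs

/-!
# DBX.RhoA: elementary facts on `ρ(z, w) = |1 - ⟨z, w⟩|` for unit vectors

PROOFS.
* `rho_comm`: `⟨w, z⟩ = conj ⟨z, w⟩`. `rho_self`: `⟨z, z⟩ = 1`. `rho_le_two`: Cauchy-Schwarz.
* `one_sub_sq_le`: for unit vectors `1 - |⟨ζ, z⟩|² = (1 - |⟨ζ, z⟩|)(1 + |⟨ζ, z⟩|)
  ≤ 2 (1 - |⟨ζ, z⟩|) ≤ 2 |1 - ⟨ζ, z⟩|`.
* `norm_sub_sq_le`: `|z - w|² = 2 - 2 Re ⟨z, w⟩ = 2 Re (1 - ⟨z, w⟩) ≤ 2 ρ(z, w)`.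
* `rho_tri`: write `x = p • y + x'`, `z = p' • y + z'` with `p = ⟨y, x⟩`, `p' = ⟨y, z⟩` and
  `x', z'` orthogonal to `y`. Then `⟨x, z⟩ = conj p * p' + ⟨x', z'⟩` and
  `|x'|² = 1 - |p|² ≤ 2 ρ(x, y)`, `|z'|² ≤ 2 ρ(y, z)` (`one_sub_sq_le`). Moreover
  `1 - conj p * p' = (1 - conj p) + conj p * (1 - p')`, so
  `ρ(x, z) ≤ |1 - conj p| + |1 - p'| + |x'| |z'| ≤ ρ(x, y) + ρ(y, z) + 2 √(ρ(x, y) ρ(y, z))`.
-/

set_option autoImplicit false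

namespace Pool.Agent.DBX

open MeasureTheory Metric Complex Real Pool.Agent.MPdb50ff

open scoped InnerProductSpace ComplexConjugate

theorem rho_nonneg {n : ℕ} (z w : Cn n) : 0 ≤ rho z w := norm_nonneg _

theorem rho_comm {n : ℕ} (z w : Cn n) : rho z w = rho w z := by
  unfold rho
  have h : (1 : ℂ) - ⟪z, w⟫_ℂ = (starRingEnd ℂ) (1 - ⟪w, z⟫_ℂ) := by
    rw [map_sub, map_one, inner_conj_symm]
  rw [h, RCLike.norm_conj]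

theorem rho_self {n : ℕ} {z : Cn n} (hz : ‖z‖ = 1) : rho z z = 0 := by
  unfold rho
  rw [inner_self_eq_norm_sq_to_K, hz]
  simp

theorem rho_le_two {n : ℕ} {z w : Cn n} (hz : ‖z‖ = 1) (hw : ‖w‖ = 1) : rho z w ≤ 2 := by
  unfold rho
  have h1 : ‖⟪z, w⟫_ℂ‖ ≤ 1 := by
    have := norm_inner_le_norm (𝕜 := ℂ) z w
    rwa [hz, hw, one_mul] at this
  calc ‖(1 : ℂ) - ⟪z, w⟫_ℂ‖ ≤ ‖(1 : ℂ)‖ + ‖⟪z, w⟫_ℂ‖ := norm_sub_le _ _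
    _ ≤ 1 + 1 := by rw [norm_one]; linarith
    _ = 2 := by norm_num

theorem one_sub_sq_le {n : ℕ} {z w : Cn n} (hz : ‖z‖ = 1) (hw : ‖w‖ = 1) :
    1 - ‖⟪z, w⟫_ℂ‖ ^ 2 ≤ 2 * rho z w := by
  unfold rho
  have h1 : ‖⟪z, w⟫_ℂ‖ ≤ 1 := by
    have := norm_inner_le_norm (𝕜 := ℂ) z w
    rwa [hz, hw, one_mul] at this
  have h0 : 0 ≤ ‖⟪z, w⟫_ℂ‖ := norm_nonneg _
  have h2 : 1 - ‖⟪z, w⟫_ℂ‖ ≤ ‖(1 : ℂ) - ⟪z, w⟫_ℂ‖ := by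
    have := norm_sub_norm_le (1 : ℂ) ⟪z, w⟫_ℂ
    rwa [norm_one] at this
  nlinarith

theorem norm_sub_sq_le {n : ℕ} {z w : Cn n} (hz : ‖z‖ = 1) (hw : ‖w‖ = 1) :
    ‖z - w‖ ^ 2 ≤ 2 * rho z w := by
  have h := @norm_sub_sq ℂ (Cn n) _ _ _ z w
  rw [hz, hw] at h
  have h2 : (1 - ⟪z, w⟫_ℂ).re ≤ ‖(1 : ℂ) - ⟪z, w⟫_ℂ‖ := Complex.re_le_norm _
  rw [Complex.sub_re, Complex.one_re] at h2
  have h3 : RCLike.re ⟪z, w⟫_ℂ = (⟪z, w⟫_ℂ).re := rfl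
  rw [h3] at h
  unfold rho
  linarith

private theorem rhoA_orth {n : ℕ} {x y : Cn n} (hx : ‖x‖ = 1) (hy : ‖y‖ = 1) :
    ‖x - ⟪y, x⟫_ℂ • y‖ ^ 2 ≤ 2 * rho x y := by
  have hyy : ⟪y, y⟫_ℂ = 1 := by
    rw [inner_self_eq_norm_sq_to_K, hy]
    simp
  have h := @norm_sub_sq ℂ (Cn n) _ _ _ x (⟪y, x⟫_ℂ • y)
  have h1 : ⟪x, ⟪y, x⟫_ℂ • y⟫_ℂ = ((‖⟪x, y⟫_ℂ‖ ^ 2 : ℝ) : ℂ) := by
    rw [inner_smul_right]
    have : ⟪y, x⟫_ℂ = (starRingEnd ℂ) ⟪x, y⟫_ℂ := (inner_conj_symm _ _).symm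
    rw [this, mul_comm, Complex.mul_conj, Complex.normSq_eq_norm_sq]
  have h2 : ‖⟪y, x⟫_ℂ • y‖ ^ 2 = ‖⟪x, y⟫_ℂ‖ ^ 2 := by
    rw [norm_smul, hy, mul_one, norm_inner_symm]
  have h3 : RCLike.re ⟪x, ⟪y, x⟫_ℂ • y⟫_ℂ = ‖⟪x, y⟫_ℂ‖ ^ 2 := by
    rw [h1]
    exact Complex.ofReal_re _
  rw [h3, h2, hx] at h
  have h4 := one_sub_sq_le hx hy
  linarith

theorem rho_tri {n : ℕ} {x y z : Cn n} (hx : ‖x‖ = 1) (hy : ‖y‖ = 1) (hz : ‖z‖ = 1) :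
    rho x z ≤ rho x y + rho y z + 2 * Real.sqrt (rho x y * rho y z) := by
  have hyy : ⟪y, y⟫_ℂ = 1 := by
    rw [inner_self_eq_norm_sq_to_K, hy]
    simp
  set p : ℂ := ⟪y, x⟫_ℂ with hp
  set p' : ℂ := ⟪y, z⟫_ℂ with hp'
  have hxy : ⟪x, y⟫_ℂ = (starRingEnd ℂ) p := by rw [hp, inner_conj_symm]
  have hxz : ⟪x, z⟫_ℂ = (starRingEnd ℂ) p * p' + ⟪x - p • y, z - p' • y⟫_ℂ := by
    rw [inner_sub_left, inner_sub_right, inner_sub_right, inner_smul_left, inner_smul_left,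
      inner_smul_right, inner_smul_right, hyy, hxy, ← hp']
    ring
  have hkey : (1 : ℂ) - ⟪x, z⟫_ℂ = (1 - (starRingEnd ℂ) p) + (starRingEnd ℂ) p * (1 - p')
      - ⟪x - p • y, z - p' • y⟫_ℂ := by
    rw [hxz]
    ring
  have hp1 : ‖(starRingEnd ℂ) p‖ ≤ 1 := by
    rw [RCLike.norm_conj, hp]
    have := norm_inner_le_norm (𝕜 := ℂ) y x
    rwa [hy, hx, one_mul] at this
  have ha : ‖(1 : ℂ) - (starRingEnd ℂ) p‖ = rho x y := by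
    unfold rho
    rw [hxy]
  have hb : ‖(1 : ℂ) - p'‖ = rho y z := rfl
  have hc1 : ‖x - p • y‖ ^ 2 ≤ 2 * rho x y := rhoA_orth hx hy
  have hc2 : ‖z - p' • y‖ ^ 2 ≤ 2 * rho y z := by
    rw [rho_comm y z]
    exact rhoA_orth hz hy
  have hc : ‖⟪x - p • y, z - p' • y⟫_ℂ‖ ≤ 2 * Real.sqrt (rho x y * rho y z) := by
    refine (norm_inner_le_norm (𝕜 := ℂ) _ _).trans ?_
    have hA : 0 ≤ ‖x - p • y‖ := norm_nonneg _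
    have hB : 0 ≤ ‖z - p' • y‖ := norm_nonneg _
    have hR1 := rho_nonneg x y
    have hR2 := rho_nonneg y z
    have h1 : (‖x - p • y‖ * ‖z - p' • y‖) ^ 2 ≤ (2 * Real.sqrt (rho x y * rho y z)) ^ 2 := by
      rw [mul_pow, mul_pow, Real.sq_sqrt (mul_nonneg hR1 hR2)]
      calc ‖x - p • y‖ ^ 2 * ‖z - p' • y‖ ^ 2 ≤ (2 * rho x y) * (2 * rho y z) :=
            mul_le_mul hc1 hc2 (sq_nonneg _) (by linarith)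
        _ = 2 ^ 2 * (rho x y * rho y z) := by ring
    exact (pow_le_pow_iff_left₀ (mul_nonneg hA hB) (by positivity) two_ne_zero).1 h1
  calc rho x z = ‖(1 - (starRingEnd ℂ) p) + (starRingEnd ℂ) p * (1 - p')
      - ⟪x - p • y, z - p' • y⟫_ℂ‖ := by
        unfold rho
        rw [hkey]
    _ ≤ ‖(1 - (starRingEnd ℂ) p) + (starRingEnd ℂ) p * (1 - p')‖
        + ‖⟪x - p • y, z - p' • y⟫_ℂ‖ := norm_sub_le _ _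
    _ ≤ ‖(1 - (starRingEnd ℂ) p)‖ + ‖(starRingEnd ℂ) p * (1 - p')‖
        + ‖⟪x - p • y, z - p' • y⟫_ℂ‖ := by
        have := norm_add_le (1 - (starRingEnd ℂ) p) ((starRingEnd ℂ) p * (1 - p'))
        linarith
    _ ≤ rho x y + rho y z + 2 * Real.sqrt (rho x y * rho y z) := by
        rw [norm_mul, ha, hb]
        have h1 : ‖(starRingEnd ℂ) p‖ * rho y z ≤ 1 * rho y z :=
          mul_le_mul_of_nonneg_right hp1 (rho_nonneg y z)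
        linarith

end Pool.Agent.DBX
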