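import Mathlib
import Pool.Agent.Lib.DBX.RhoA

/-!
# DBX.RhoB: the base `B(ζ, z) = base N ζ z = 1 + N (1 - ⟨ζ, z⟩)`

PROOFS.
* `base_sq_ge`: `Re (1 - ⟨ζ, z⟩) ≥ 0` for unit vectors, so with `X = N (1 - ⟨ζ, z⟩)`,
  `|1 + X|² = 1 + 2 Re X + |X|² ≥ 1 + |X|²`. `base_ge_one` follows. `base_le`: triangle inequality.
* `sqrt_rho_le`: `2 N ρ ≤ 1 + (N ρ)² ≤ |B|²`.
* `base_pert`: `B(ζ', z) - B(ζ, z) = - N ⟨ζ' - ζ, z⟩`. With `z = p • ζ + v`, `p = ⟨ζ, z⟩`,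
  `⟨ζ, v⟩ = 0`, `|p| ≤ 1`, `|v|² = 1 - |p|² ≤ 2 ρ(ζ, z)`:
  `⟨ζ' - ζ, z⟩ = p ⟨ζ' - ζ, ζ⟩ + ⟨ζ' - ζ, v⟩`, the first term is at most `ρ(ζ, ζ') ≤ r`
  (`⟨ζ' - ζ, ζ⟩ = ⟨ζ', ζ⟩ - 1`), the second at most `|ζ' - ζ| |v| ≤ √(2r) √(2ρ(ζ, z))`. So with
  `a = √(N r)`: `|B(ζ', z) - B(ζ, z)| ≤ a² + 2 a √(N ρ(ζ, z)) ≤ a² |B| + √2 a |B| ≤ (3/2) a |B|`
  (by `sqrt_rho_le`, `|B| ≥ 1` and `a ≤ 1/100`).
* `base_pert2`: `B(ζ, w + x) - B(ζ, w) = - N ⟨ζ, x⟩`. With `ζ = p • w + v`, `p = ⟨w, ζ⟩`,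
  `⟨w, v⟩ = 0`, `|v|² ≤ 2 ρ(ζ, w)`: `|⟨ζ, x⟩| ≤ |⟨w, x⟩| + |v| |x| ≤ 3 r + √(2 ρ(ζ, w)) 3 √r`, so
  `N |⟨ζ, x⟩| ≤ 3 a² + 3 √2 a √(N ρ(ζ, w)) ≤ 3 a² + 3 a |B(ζ, w)| ≤ (16/5) a |B(ζ, w)|`.
* `pow_cmp`: put `e = (16/5)/(1000 q) = 2/(625 q) ≤ 1/300`; `(1 - e) |B| ≤ |B'| ≤ (1 + e) |B|`, so it
  suffices that `(1 + e)^(2q) ≤ 101/100` and `(101/100) (1 - e)^(2q) ≥ 1`. First:
  `(1 + e)^(2q) ≤ exp(2 q e) = exp(4/625) ≤ 101/100`. Second: Bernoulli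
  (`one_add_mul_le_pow`): `(1 - e)^(2q) ≥ 1 - 2 q e = 1 - 4/625 ≥ 100/101`. For `p ≤ 2q` use
  `(1+e)^p ≤ (1+e)^(2q)` and `(1-e)^p ≥ (1-e)^(2q)`.
-/

set_option autoImplicit false

namespace Pool.Agent.DBX

open MeasureTheory Metric Complex Real Pool.Agent.MPdb50ff

open scoped InnerProductSpace ComplexConjugate

private theorem dbx_rhob_inner_le {n : ℕ} {ζ z : Cn n} (hζ : ‖ζ‖ = 1) (hz : ‖z‖ = 1) :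
    ‖⟪ζ, z⟫_ℂ‖ ≤ 1 := by
  have h := norm_inner_le_norm (𝕜 := ℂ) ζ z
  rwa [hζ, hz, mul_one] at h

private theorem dbx_rhob_re {n : ℕ} (N : ℕ) (ζ z : Cn n) :
    (base N ζ z).re = 1 + N * (1 - (⟪ζ, z⟫_ℂ).re) := by
  simp [base]

private theorem dbx_rhob_im {n : ℕ} (N : ℕ) (ζ z : Cn n) :
    (base N ζ z).im = - (N * (⟪ζ, z⟫_ℂ).im) := by
  simp [base]

theorem base_sq_ge {n : ℕ} (N : ℕ) {ζ z : Cn n} (hζ : ‖ζ‖ = 1) (hz : ‖z‖ = 1) :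
    1 + (N * rho ζ z) ^ 2 ≤ ‖base N ζ z‖ ^ 2 := by
  have hu := dbx_rhob_inner_le hζ hz
  have hre : (⟪ζ, z⟫_ℂ).re ≤ 1 := (Complex.re_le_norm _).trans hu
  have h1 : ‖base N ζ z‖ ^ 2 = (1 + N * (1 - (⟪ζ, z⟫_ℂ).re)) ^ 2 + (N * (⟪ζ, z⟫_ℂ).im) ^ 2 := by
    rw [← Complex.normSq_eq_norm_sq, Complex.normSq_apply, dbx_rhob_re, dbx_rhob_im]
    ring
  have h2 : (rho ζ z) ^ 2 = (1 - (⟪ζ, z⟫_ℂ).re) ^ 2 + ((⟪ζ, z⟫_ℂ).im) ^ 2 := by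
    unfold rho
    rw [← Complex.normSq_eq_norm_sq, Complex.normSq_apply]
    simp
    ring
  have hN : (0 : ℝ) ≤ N := Nat.cast_nonneg N
  have h3 : 0 ≤ N * (1 - (⟪ζ, z⟫_ℂ).re) := mul_nonneg hN (by linarith)
  rw [h1, mul_pow, h2]
  nlinarith

theorem base_ge_one {n : ℕ} (N : ℕ) {ζ z : Cn n} (hζ : ‖ζ‖ = 1) (hz : ‖z‖ = 1) :
    1 ≤ ‖base N ζ z‖ := by
  have h := base_sq_ge N hζ hz
  nlinarith [norm_nonneg (base N ζ z), sq_nonneg ((N : ℝ) * rho ζ z)]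

theorem base_le {n : ℕ} (N : ℕ) (ζ z : Cn n) : ‖base N ζ z‖ ≤ 1 + N * rho ζ z := by
  unfold base rho
  refine (norm_add_le _ _).trans ?_
  rw [norm_mul, norm_one, Complex.norm_natCast]

theorem sqrt_rho_le {n : ℕ} (N : ℕ) {ζ z : Cn n} (hζ : ‖ζ‖ = 1) (hz : ‖z‖ = 1) :
    2 * (N * rho ζ z) ≤ ‖base N ζ z‖ ^ 2 := by
  have h := base_sq_ge N hζ hz
  nlinarith [sq_nonneg ((N : ℝ) * rho ζ z - 1)]

/-- the orthogonal part -/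
private theorem dbx_rhob_perp {n : ℕ} {ζ z : Cn n} (hζ : ‖ζ‖ = 1) (hz : ‖z‖ = 1) :
    ‖z - ⟪ζ, z⟫_ℂ • ζ‖ ^ 2 ≤ 2 * rho ζ z := by
  have h1 : ‖z - ⟪ζ, z⟫_ℂ • ζ‖ ^ 2 = 1 - ‖⟪ζ, z⟫_ℂ‖ ^ 2 := by
    have h2 : ⟪z - ⟪ζ, z⟫_ℂ • ζ, ⟪ζ, z⟫_ℂ • ζ⟫_ℂ = 0 := by
      rw [inner_sub_left, inner_smul_right, inner_smul_left, inner_smul_right,
        inner_self_eq_norm_sq_to_K, hζ, ← inner_conj_symm z ζ]
      simp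
      ring
    have h3 : ‖(z - ⟪ζ, z⟫_ℂ • ζ) + ⟪ζ, z⟫_ℂ • ζ‖ * ‖(z - ⟪ζ, z⟫_ℂ • ζ) + ⟪ζ, z⟫_ℂ • ζ‖ =
        ‖z - ⟪ζ, z⟫_ℂ • ζ‖ * ‖z - ⟪ζ, z⟫_ℂ • ζ‖ + ‖⟪ζ, z⟫_ℂ • ζ‖ * ‖⟪ζ, z⟫_ℂ • ζ‖ :=
      norm_add_sq_eq_norm_sq_add_norm_sq_of_inner_eq_zero _ _ h2
    rw [sub_add_cancel, hz, norm_smul, hζ] at h3
    nlinarith
  rw [h1]
  exact one_sub_sq_le hζ hz

theorem base_pert {n : ℕ} (N : ℕ) {r : ℝ} (hr : 0 ≤ r) (ha : Real.sqrt (N * r) ≤ 1 / 100)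
    {ζ ζ' z : Cn n} (hζ : ‖ζ‖ = 1) (hζ' : ‖ζ'‖ = 1) (hz : ‖z‖ = 1) (h : rho ζ ζ' ≤ r) :
    ‖base N ζ' z - base N ζ z‖ ≤ 3 / 2 * Real.sqrt (N * r) * ‖base N ζ z‖ := by
  set B := ‖base N ζ z‖ with hB
  set a := Real.sqrt (N * r) with haa
  have hN : (0 : ℝ) ≤ N := Nat.cast_nonneg N
  have ha0 : 0 ≤ a := Real.sqrt_nonneg _
  have hB1 : 1 ≤ B := base_ge_one N hζ hz
  have hsq : a ^ 2 = N * r := Real.sq_sqrt (mul_nonneg hN hr)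
  have hrho0 := rho_nonneg ζ z
  set v := z - ⟪ζ, z⟫_ℂ • ζ with hv
  have hv2 : ‖v‖ ^ 2 ≤ 2 * rho ζ z := dbx_rhob_perp hζ hz
  have hd2 : ‖ζ' - ζ‖ ^ 2 ≤ 2 * r := by
    refine (norm_sub_sq_le hζ' hζ).trans ?_
    rw [rho_comm]
    linarith
  have hdec : ⟪ζ' - ζ, z⟫_ℂ = ⟪ζ, z⟫_ℂ * ⟪ζ' - ζ, ζ⟫_ℂ + ⟪ζ' - ζ, v⟫_ℂ := by
    rw [hv, inner_sub_right, inner_smul_right]
    ring
  have h1 : ‖⟪ζ' - ζ, ζ⟫_ℂ‖ ≤ r := by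
    have e : ⟪ζ' - ζ, ζ⟫_ℂ = -(1 - ⟪ζ', ζ⟫_ℂ) := by
      rw [inner_sub_left, inner_self_eq_norm_sq_to_K, hζ]
      simp
    rw [e, norm_neg]
    have h2 : rho ζ' ζ ≤ r := by rw [rho_comm]; exact h
    exact h2
  have h2 : ‖⟪ζ' - ζ, v⟫_ℂ‖ ≤ ‖ζ' - ζ‖ * ‖v‖ := norm_inner_le_norm _ _
  have h3 : ‖⟪ζ' - ζ, z⟫_ℂ‖ ≤ r + ‖ζ' - ζ‖ * ‖v‖ := by
    rw [hdec]
    refine (norm_add_le _ _).trans (add_le_add ?_ h2)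
    rw [norm_mul]
    have h4 := dbx_rhob_inner_le hζ hz
    nlinarith [norm_nonneg (⟪ζ' - ζ, ζ⟫_ℂ), norm_nonneg (⟪ζ, z⟫_ℂ)]
  have h5 : base N ζ' z - base N ζ z = -((N : ℂ) * ⟪ζ' - ζ, z⟫_ℂ) := by
    unfold base
    rw [inner_sub_left]
    ring
  have h6 : ‖base N ζ' z - base N ζ z‖ = N * ‖⟪ζ' - ζ, z⟫_ℂ‖ := by
    rw [h5, norm_neg, norm_mul, Complex.norm_natCast]
  -- `N |ζ' - ζ| |v| ≤ √2 a B`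
  have h7 : (N * (‖ζ' - ζ‖ * ‖v‖)) ^ 2 ≤ (a * B) ^ 2 * 2 := by
    have h8 : (N * (‖ζ' - ζ‖ * ‖v‖)) ^ 2 = (N * ‖ζ' - ζ‖ ^ 2) * (N * ‖v‖ ^ 2) := by ring
    have h9 : N * ‖ζ' - ζ‖ ^ 2 ≤ 2 * a ^ 2 := by
      rw [hsq]
      nlinarith
    have h10 : N * ‖v‖ ^ 2 ≤ B ^ 2 := by
      have := sqrt_rho_le N hζ hz
      nlinarith
    rw [h8]
    have h11 : 0 ≤ N * ‖v‖ ^ 2 := by positivity
    calc (N * ‖ζ' - ζ‖ ^ 2) * (N * ‖v‖ ^ 2) ≤ (2 * a ^ 2) * (N * ‖v‖ ^ 2) :=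
          mul_le_mul_of_nonneg_right h9 h11
      _ ≤ (2 * a ^ 2) * B ^ 2 := mul_le_mul_of_nonneg_left h10 (by positivity)
      _ = (a * B) ^ 2 * 2 := by ring
  have h12 : N * (‖ζ' - ζ‖ * ‖v‖) ≤ 1415 / 1000 * (a * B) := by
    have h13 : 0 ≤ a * B := mul_nonneg ha0 (by linarith)
    nlinarith [mul_nonneg hN (mul_nonneg (norm_nonneg (ζ' - ζ)) (norm_nonneg v))]
  rw [h6]
  have h14 : N * ‖⟪ζ' - ζ, z⟫_ℂ‖ ≤ N * r + N * (‖ζ' - ζ‖ * ‖v‖) := by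
    rw [← mul_add]
    exact mul_le_mul_of_nonneg_left h3 hN
  have h15 : N * r ≤ 1 / 100 * (a * B) := by
    rw [← hsq]
    nlinarith
  nlinarith [mul_nonneg ha0 (by linarith : (0 : ℝ) ≤ B)]

theorem base_pert2 {n : ℕ} (N : ℕ) {r : ℝ} (hr : 0 ≤ r) (ha : Real.sqrt (N * r) ≤ 1 / 100)
    {ζ w x : Cn n} (hζ : ‖ζ‖ = 1) (hw : ‖w‖ = 1) (hx : x ∈ Pz w r 3) :
    ‖base N ζ (w + x) - base N ζ w‖ ≤ 16 / 5 * Real.sqrt (N * r) * ‖base N ζ w‖ := by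
  obtain ⟨hx1, hx2⟩ := hx
  set B := ‖base N ζ w‖ with hB
  set a := Real.sqrt (N * r) with haa
  have hN : (0 : ℝ) ≤ N := Nat.cast_nonneg N
  have ha0 : 0 ≤ a := Real.sqrt_nonneg _
  have hB1 : 1 ≤ B := base_ge_one N hζ hw
  have hsq : a ^ 2 = N * r := Real.sq_sqrt (mul_nonneg hN hr)
  set v := ζ - ⟪w, ζ⟫_ℂ • w with hv
  have hv2 : ‖v‖ ^ 2 ≤ 2 * rho ζ w := by
    rw [rho_comm]
    exact dbx_rhob_perp hw hζ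
  have hxs : ‖x‖ ^ 2 ≤ 9 * r := by
    have h1 : ‖x‖ ^ 2 ≤ (3 * Real.sqrt r) ^ 2 :=
      pow_le_pow_left₀ (norm_nonneg x) hx2 2
    rw [mul_pow, Real.sq_sqrt hr] at h1
    linarith
  have hdec : ⟪ζ, x⟫_ℂ = (starRingEnd ℂ) ⟪w, ζ⟫_ℂ * ⟪w, x⟫_ℂ + ⟪v, x⟫_ℂ := by
    rw [hv, inner_sub_left, inner_smul_left]
    ring
  have h2 : ‖⟪v, x⟫_ℂ‖ ≤ ‖v‖ * ‖x‖ := norm_inner_le_norm _ _
  have h3 : ‖⟪ζ, x⟫_ℂ‖ ≤ 3 * r + ‖v‖ * ‖x‖ := by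
    rw [hdec]
    refine (norm_add_le _ _).trans (add_le_add ?_ h2)
    rw [norm_mul, RCLike.norm_conj]
    have h4 := dbx_rhob_inner_le hw hζ
    nlinarith [norm_nonneg (⟪w, x⟫_ℂ), norm_nonneg (⟪w, ζ⟫_ℂ)]
  have h5 : base N ζ (w + x) - base N ζ w = -((N : ℂ) * ⟪ζ, x⟫_ℂ) := by
    unfold base
    rw [inner_add_right]
    ring
  have h6 : ‖base N ζ (w + x) - base N ζ w‖ = N * ‖⟪ζ, x⟫_ℂ‖ := by
    rw [h5, norm_neg, norm_mul, Complex.norm_natCast]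
  have h7 : (N * (‖v‖ * ‖x‖)) ^ 2 ≤ (3 * (a * B)) ^ 2 := by
    have h8 : (N * (‖v‖ * ‖x‖)) ^ 2 = (N * ‖x‖ ^ 2) * (N * ‖v‖ ^ 2) := by ring
    have h9 : N * ‖x‖ ^ 2 ≤ 9 * a ^ 2 := by
      rw [hsq]
      nlinarith
    have h10 : N * ‖v‖ ^ 2 ≤ B ^ 2 := by
      have := sqrt_rho_le N hζ hw
      nlinarith
    rw [h8]
    have h11 : 0 ≤ N * ‖v‖ ^ 2 := by positivity
    calc (N * ‖x‖ ^ 2) * (N * ‖v‖ ^ 2) ≤ (9 * a ^ 2) * (N * ‖v‖ ^ 2) :=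
          mul_le_mul_of_nonneg_right h9 h11
      _ ≤ (9 * a ^ 2) * B ^ 2 := mul_le_mul_of_nonneg_left h10 (by positivity)
      _ = (3 * (a * B)) ^ 2 := by ring
  have h13 : 0 ≤ a * B := mul_nonneg ha0 (by linarith)
  have h12 : N * (‖v‖ * ‖x‖) ≤ 3 * (a * B) :=
    (sq_le_sq₀ (mul_nonneg hN (mul_nonneg (norm_nonneg v) (norm_nonneg x))) (by positivity)).1 h7
  rw [h6]
  have h14 : N * ‖⟪ζ, x⟫_ℂ‖ ≤ 3 * (N * r) + N * (‖v‖ * ‖x‖) := by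
    have := mul_le_mul_of_nonneg_left h3 hN
    nlinarith
  have h15 : N * r ≤ 1 / 100 * (a * B) := by
    rw [← hsq]
    nlinarith
  nlinarith

theorem pow_cmp {q p : ℕ} (hq : 1 ≤ q) (hp : p ≤ 2 * q) {B B' : ℂ} (hB : B ≠ 0)
    (h : ‖B' - B‖ ≤ 16 / 5 * (1 / (1000 * (q : ℝ))) * ‖B‖) :
    (‖B'‖ ^ p)⁻¹ ≤ 101 / 100 * (‖B‖ ^ p)⁻¹ ∧ (‖B‖ ^ p)⁻¹ ≤ 101 / 100 * (‖B'‖ ^ p)⁻¹ := by
  have hq1 : (1 : ℝ) ≤ q := by exact_mod_cast hq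
  have hq0 : (0 : ℝ) < q := by linarith
  set e : ℝ := 16 / 5 * (1 / (1000 * (q : ℝ))) with he
  have hqe : q * e = 2 / 625 := by
    rw [he]
    field_simp
    norm_num
  have he0 : 0 < e := by rw [he]; positivity
  have he1 : e ≤ 2 / 625 := by nlinarith
  have hb : 0 < ‖B‖ := norm_pos_iff.2 hB
  have hlow : (1 - e) * ‖B‖ ≤ ‖B'‖ := by
    have h1 : ‖B‖ ≤ ‖B'‖ + ‖B' - B‖ := by
      have := norm_sub_norm_le B B'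
      rw [norm_sub_rev] at this
      linarith
    nlinarith
  have hup : ‖B'‖ ≤ (1 + e) * ‖B‖ := by
    have h1 : ‖B'‖ ≤ ‖B‖ + ‖B' - B‖ := by
      have := norm_sub_norm_le B' B
      linarith
    nlinarith
  have hb' : 0 < ‖B'‖ := lt_of_lt_of_le (mul_pos (by linarith) hb) hlow
  have hP1 : (1 + e) ^ p ≤ 101 / 100 := by
    have h1 : (1 + e) ^ p ≤ (1 + e) ^ (2 * q) := pow_le_pow_right₀ (by linarith) hp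
    have h2 : (1 + e) ^ (2 * q) ≤ Real.exp (2 * q * e) := by
      have h3 : 1 + e ≤ Real.exp e := by
        have := Real.add_one_le_exp e
        linarith
      calc (1 + e) ^ (2 * q) ≤ (Real.exp e) ^ (2 * q) :=
            pow_le_pow_left₀ (by linarith) h3 _
        _ = Real.exp (2 * q * e) := by
            rw [← Real.exp_nat_mul]
            push_cast
            rfl
    have h4 : Real.exp (2 * q * e) ≤ 101 / 100 := by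
      have h5 : 2 * q * e = 4 / 625 := by
        have : 2 * q * e = 2 * (q * e) := by ring
        rw [this, hqe]
        norm_num
      rw [h5]
      have h6 := Real.abs_exp_sub_one_le (x := 4 / 625) (by rw [abs_of_nonneg] <;> norm_num)
      rw [abs_of_nonneg (by norm_num : (0 : ℝ) ≤ 4 / 625)] at h6
      have h7 := le_abs_self (Real.exp (4 / 625) - 1)
      have h8 := Real.exp_bound_div_one_sub_of_interval (x := 4 / 625) (by norm_num) (by norm_num)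
      refine h8.trans ?_
      norm_num
    linarith
  have hP2 : 1 ≤ 101 / 100 * (1 - e) ^ p := by
    have h1 : (1 - e) ^ (2 * q) ≤ (1 - e) ^ p :=
      pow_le_pow_of_le_one (by linarith) (by linarith) hp
    have h2 : 1 + ((2 * q : ℕ) : ℝ) * (-e) ≤ (1 + (-e)) ^ (2 * q) :=
      one_add_mul_le_pow (by linarith) _
    have h3 : ((2 * q : ℕ) : ℝ) * (-e) = - (4 / 625) := by
      push_cast
      have : 2 * (q : ℝ) * -e = - (2 * (q * e)) := by ring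
      rw [this, hqe]
      norm_num
    rw [h3] at h2
    have h4 : (1 + (-e)) ^ (2 * q) = (1 - e) ^ (2 * q) := by rw [← sub_eq_add_neg]
    rw [h4] at h2
    nlinarith
  have hbp : 0 < ‖B‖ ^ p := pow_pos hb p
  have hbp' : 0 < ‖B'‖ ^ p := pow_pos hb' p
  constructor
  · -- `‖B‖^p ≤ 101/100 ‖B'‖^p`
    have h1 : ((1 - e) * ‖B‖) ^ p ≤ ‖B'‖ ^ p :=
      pow_le_pow_left₀ (mul_nonneg (by linarith) hb.le) hlow p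
    rw [mul_pow] at h1
    have h2 : ‖B‖ ^ p ≤ 101 / 100 * ‖B'‖ ^ p := by nlinarith
    rw [inv_le_iff_one_le_mul₀ hbp']
    have h3 : 101 / 100 * (‖B‖ ^ p)⁻¹ * ‖B'‖ ^ p = (101 / 100 * ‖B'‖ ^ p) * (‖B‖ ^ p)⁻¹ := by ring
    rw [h3, ← div_eq_mul_inv, le_div_iff₀ hbp]
    linarith
  · have h1 : ‖B'‖ ^ p ≤ ((1 + e) * ‖B‖) ^ p :=
      pow_le_pow_left₀ hb'.le hup p
    rw [mul_pow] at h1
    have h2 : ‖B'‖ ^ p ≤ 101 / 100 * ‖B‖ ^ p := by nlinarith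
    rw [inv_le_iff_one_le_mul₀ hbp]
    have h3 : 101 / 100 * (‖B'‖ ^ p)⁻¹ * ‖B‖ ^ p = (101 / 100 * ‖B‖ ^ p) * (‖B'‖ ^ p)⁻¹ := by ring
    rw [h3, ← div_eq_mul_inv, le_div_iff₀ hbp']
    linarith

end Pool.Agent.DBX
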