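import Mathlib
import Pool.Agent.Lib.DBX.RhoB
import Pool.Agent.Lib.DBX.NumR

/-!
# DBX.Geo: elementary geometry of the sets `Pz`

PROOFS (`0 < r ≤ 10^(-6)`).
* `Pz_norm`: `|w + y|² = 1 + 2 Re ⟨w, y⟩ + |y|² ≤ 1 + 6 r + 9 r ≤ (1 + 8 r)²`.
* `sphere_near`: let `z = R w'` with `|w'| = 1`, `R = 1 + r`, `ρ(ζ, w') ≤ r`, `y = z - ζ`. Then
  `⟨ζ, y⟩ = R ⟨ζ, w'⟩ - 1 = r ⟨ζ, w'⟩ + (⟨ζ, w'⟩ - 1)` has modulus `≤ r + r = 2 r`, and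
  `|y| ≤ |R w' - w'| + |w' - ζ| ≤ r + √(2 r) ≤ 2 √r` (`norm_sub_sq_le`; `r ≤ √r / 1000`).
* `two_le_three`: a vector with `|⟨w, y⟩| ≤ 2 r`, `|y| ≤ 2 √r` is in `Pz w r 3`; `0 ∈ Pz w r 3`.
-/

set_option autoImplicit false

namespace Pool.Agent.DBX

open MeasureTheory Metric Complex Real Pool.Agent.MPdb50ff

open scoped InnerProductSpace ComplexConjugate

private theorem le_of_sq_le_sq {a b : ℝ} (h : a ^ 2 ≤ b ^ 2) (hb : 0 ≤ b) : a ≤ b := by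
  by_contra hc
  push Not at hc
  nlinarith

theorem Pz_norm {n : ℕ} {w y : Cn n} {r : ℝ} (hr : 0 < r) (hw : ‖w‖ = 1) (hy : y ∈ Pz w r 3) :
    ‖w + y‖ ≤ 1 + 8 * r := by
  have h1 : ‖⟪w, y⟫_ℂ‖ ≤ 3 * r := hy.1
  have h2 : ‖y‖ ≤ 3 * Real.sqrt r := hy.2
  have h3 : ‖w + y‖ ^ 2 = ‖w‖ ^ 2 + 2 * RCLike.re ⟪w, y⟫_ℂ + ‖y‖ ^ 2 := norm_add_sq w y
  have h4 : RCLike.re ⟪w, y⟫_ℂ ≤ 3 * r := (RCLike.re_le_norm _).trans h1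
  have h5 : ‖y‖ ^ 2 ≤ 9 * r := by
    have h6 : ‖y‖ ^ 2 ≤ (3 * Real.sqrt r) ^ 2 := pow_le_pow_left₀ (norm_nonneg _) h2 2
    rw [mul_pow, Real.sq_sqrt hr.le] at h6
    linarith
  have h7 : ‖w + y‖ ^ 2 ≤ (1 + 8 * r) ^ 2 := by
    rw [h3, hw]
    nlinarith [mul_pos hr hr]
  exact le_of_sq_le_sq h7 (by linarith)

theorem sphere_near {n : ℕ} {ζ w' : Cn n} {r : ℝ} (hr : 0 < r) (hr1 : r ≤ 1 / 10 ^ 6)
    (hζ : ‖ζ‖ = 1) (hw : ‖w'‖ = 1) (h : rho ζ w' ≤ r) :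
    ‖⟪ζ, ((1 + r : ℝ) : ℂ) • w' - ζ⟫_ℂ‖ ≤ 2 * r ∧
      ‖((1 + r : ℝ) : ℂ) • w' - ζ‖ ≤ 2 * Real.sqrt r := by
  have hin : ‖⟪ζ, w'⟫_ℂ‖ ≤ 1 := by
    have h1 := norm_inner_le_norm (𝕜 := ℂ) ζ w'
    rwa [hζ, hw, one_mul] at h1
  have hrr : ‖((r : ℝ) : ℂ)‖ = r := by
    rw [Complex.norm_real, Real.norm_of_nonneg hr.le]
  constructor
  · have h1 : ⟪ζ, ((1 + r : ℝ) : ℂ) • w' - ζ⟫_ℂ = (r : ℂ) * ⟪ζ, w'⟫_ℂ + -(1 - ⟪ζ, w'⟫_ℂ) := by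
      rw [inner_sub_right, inner_smul_right, inner_self_eq_norm_sq_to_K, hζ]
      push_cast
      ring
    rw [h1]
    refine (norm_add_le _ _).trans ?_
    rw [norm_mul, hrr, norm_neg]
    have h2 : ‖1 - ⟪ζ, w'⟫_ℂ‖ ≤ r := h
    have h3 : r * ‖⟪ζ, w'⟫_ℂ‖ ≤ r * 1 := mul_le_mul_of_nonneg_left hin hr.le
    linarith
  · have h1 : ((1 + r : ℝ) : ℂ) • w' - ζ = (r : ℂ) • w' + -(ζ - w') := by
      push_cast
      rw [add_smul, one_smul]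
      abel
    have h2 : ‖ζ - w'‖ ^ 2 ≤ 2 * r := (norm_sub_sq_le hζ hw).trans (by linarith)
    have ha : 0 ≤ Real.sqrt r := Real.sqrt_nonneg r
    have ha2 : Real.sqrt r ^ 2 = r := Real.sq_sqrt hr.le
    have ha3 : Real.sqrt r ≤ 1 / 1000 := by
      refine le_of_sq_le_sq ?_ (by norm_num)
      rw [ha2]
      refine hr1.trans (by norm_num)
    have h3 : ‖ζ - w'‖ ≤ 3 / 2 * Real.sqrt r := by
      refine le_of_sq_le_sq ?_ (by positivity)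
      rw [mul_pow, ha2]
      refine h2.trans ?_
      nlinarith
    rw [h1]
    refine (norm_add_le _ _).trans ?_
    rw [norm_smul, hrr, hw, norm_neg, mul_one]
    have h4 : r ≤ 1 / 1000 * Real.sqrt r := by
      calc r = Real.sqrt r * Real.sqrt r := (Real.mul_self_sqrt hr.le).symm
        _ ≤ 1 / 1000 * Real.sqrt r := mul_le_mul_of_nonneg_right ha3 ha
    linarith

theorem mem_Pz_three {n : ℕ} {w y : Cn n} {r : ℝ} (hr : 0 < r)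
    (hy1 : ‖⟪w, y⟫_ℂ‖ ≤ 2 * r) (hy2 : ‖y‖ ≤ 2 * Real.sqrt r) : y ∈ Pz w r 3 := by
  have ha : 0 ≤ Real.sqrt r := Real.sqrt_nonneg r
  exact ⟨hy1.trans (by linarith), hy2.trans (by linarith)⟩

theorem zero_mem_Pz {n : ℕ} (w : Cn n) {r : ℝ} (hr : 0 < r) : (0 : Cn n) ∈ Pz w r 3 := by
  have ha : 0 ≤ Real.sqrt r := Real.sqrt_nonneg r
  refine ⟨?_, ?_⟩
  · rw [inner_zero_right, norm_zero]
    linarith
  · rw [norm_zero]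
    linarith

end Pool.Agent.DBX
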