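import Mathlib
import Pool.Agent.Lib.DBX.Geo

/-!
# DBX.CtxA: consequences of the structure `Ctx`

`N = 2 D`, `q = qq n`, `r = rr n D`, `u z = (h z).re`.
PROOFS. `diffN`, `contN`: `1/(2D) < 1/D`. `posN` is `hpos`. `close` is `harnack_close` of
`MP_db50ff_an/Step.lean` with `N = 2 D` (`rho ζ z = ‖1 - ⟪ζ, z⟫‖` by definition), `peakH` is
`harnack_peak` with `eight_rr_le`. `base_cmp`: `base_pert2` with `sqrt_Nr`, `sqrt_Nr_le`, then
`pow_cmp`. `base_lo`: `base_pert2` and `base_ge_one`: `|B'| ≥ (1 - 16/5 * 1/1000) |B| ≥ 99/100`.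
`norm_zy`: `Pz_norm` and `rr_le`. `base_self`: `⟨ζ, ζ⟩ = 1`. `uz_pos`: `posN` and `eight_rr_le`.
-/

set_option autoImplicit false

namespace Pool.Agent.DBX

open MeasureTheory Metric Complex Real Pool.Agent.MPdb50ff

open scoped InnerProductSpace ComplexConjugate

variable {n D : ℕ} {h : Cn n → ℂ} {T : ℝ} {s : Finset (Cn n)} {b : Cn n → ℝ}

theorem Ctx.one_le_N (hC : Ctx n D h T s b) : 1 ≤ 2 * D := by
  have := hC.hD
  omega

theorem Ctx.diffN (hC : Ctx n D h T s b) :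
    DifferentiableOn ℂ h (ball 0 (1 + 1 / ((2 * D : ℕ) : ℝ))) := by
  apply hC.hd.mono
  apply ball_subset_ball
  have hD : (1 : ℝ) ≤ D := by exact_mod_cast hC.hD
  have : 1 / ((2 * D : ℕ) : ℝ) ≤ 1 / (D : ℝ) := by
    push_cast
    apply one_div_le_one_div_of_le <;> linarith
  linarith

theorem Ctx.contN (hC : Ctx n D h T s b) :
    ContinuousOn h (closedBall 0 (1 + 1 / ((2 * D : ℕ) : ℝ))) := by
  apply hC.hd.continuousOn.mono
  apply closedBall_subset_ball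
  have hD : (1 : ℝ) ≤ D := by exact_mod_cast hC.hD
  have : 1 / ((2 * D : ℕ) : ℝ) < 1 / (D : ℝ) := by
    push_cast
    apply one_div_lt_one_div_of_lt <;> linarith
  linarith

theorem Ctx.posN (hC : Ctx n D h T s b) :
    ∀ z ∈ closedBall (0 : Cn n) (1 + 1 / ((2 * D : ℕ) : ℝ)), 0 < (h z).re := by
  intro z hz
  apply hC.hpos z
  have e : ((2 * D : ℕ) : ℝ) = 2 * (D : ℝ) := by push_cast; ring
  rwa [e] at hz

theorem Ctx.uz_pos (hC : Ctx n D h T s b) {z : Cn n} (hz : ‖z‖ ≤ 1 + 8 * rr n D) :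
    0 < (h z).re := by
  apply hC.posN z
  rw [mem_closedBall_zero_iff]
  have h1 := eight_rr_le hC.hn hC.hD
  have h2 : (0 : ℝ) ≤ 1 / ((2 * D : ℕ) : ℝ) := by positivity
  have h3 : 1 / (2 * ((2 * D : ℕ) : ℝ)) = (1 / ((2 * D : ℕ) : ℝ)) / 2 := by
    rw [div_div, mul_comm]
  rw [h3] at h1
  linarith

theorem Ctx.unit_pos (hC : Ctx n D h T s b) {z : Cn n} (hz : ‖z‖ = 1) : 0 < (h z).re := by
  apply hC.uz_pos
  have := rr_pos hC.hn hC.hD
  rw [hz]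
  linarith

theorem Ctx.min_pos (hC : Ctx n D h T s b) {z : Cn n} (hz : ‖z‖ = 1) :
    0 < min (h z).re T := by
  exact lt_min (hC.unit_pos hz) hC.hT

theorem Ctx.close (hC : Ctx n D h T s b) {ζ z : Cn n} (hζ : ‖ζ‖ = 1) (hz : ‖z‖ = 1)
    (hc : (2 * D : ℝ) * rho ζ z ≤ 1 / 10) :
    (h ζ).re ≤ 40 * (h z).re ∧ (h z).re ≤ 40 * (h ζ).re := by
  apply harnack_close hC.one_le_N hC.diffN hC.contN (fun w hw => (hC.posN w hw).le) hζ hz
  unfold rho at hc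
  push_cast
  exact hc

theorem Ctx.peakH (hC : Ctx n D h T s b) {ζ z : Cn n} (hζ : ‖ζ‖ = 1)
    (hz : ‖z‖ ≤ 1 + 8 * rr n D) :
    (h ζ).re ≤ 648 * ‖base (2 * D) ζ z‖ ^ 2 * (h z).re := by
  exact harnack_peak hC.one_le_N hC.diffN hC.contN (fun w hw => (hC.posN w hw).le) hζ
    (hz.trans (eight_rr_le hC.hn hC.hD))

theorem Ctx.norm_zy (hC : Ctx n D h T s b) {z y : Cn n} (hz : ‖z‖ = 1)
    (hy : y ∈ Pz z (rr n D) 3) : ‖z + y‖ ≤ 1 + 8 * rr n D ∧ ‖z + y‖ ≤ 101 / 100 := by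
  have h1 := Pz_norm (rr_pos hC.hn hC.hD) hz hy
  have h2 := rr_le hC.hn hC.hD
  refine ⟨h1, ?_⟩
  linarith

theorem Ctx.base_cmp (hC : Ctx n D h T s b) {ζ z y : Cn n} (hζ : ‖ζ‖ = 1) (hz : ‖z‖ = 1)
    (hy : y ∈ Pz z (rr n D) 3) {p : ℕ} (hp : p ≤ 2 * qq n) :
    (‖base (2 * D) ζ (z + y)‖ ^ p)⁻¹ ≤ 101 / 100 * (‖base (2 * D) ζ z‖ ^ p)⁻¹ := by
  have h1 := base_pert2 (2 * D) (rr_pos hC.hn hC.hD).le (sqrt_Nr_le hC.hn hC.hD) hζ hz hy
  rw [sqrt_Nr hC.hn hC.hD] at h1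
  have h2 : base (2 * D) ζ z ≠ 0 := by
    have := base_ge_one (2 * D) hζ hz
    intro h0
    rw [h0, norm_zero] at this
    linarith
  exact (pow_cmp (one_le_qq hC.hn) hp h2 h1).1

theorem Ctx.base_lo (hC : Ctx n D h T s b) {ζ z y : Cn n} (hζ : ‖ζ‖ = 1) (hz : ‖z‖ = 1)
    (hy : y ∈ Pz z (rr n D) 3) : 99 / 100 ≤ ‖base (2 * D) ζ (z + y)‖ := by
  have h1 := base_pert2 (2 * D) (rr_pos hC.hn hC.hD).le (sqrt_Nr_le hC.hn hC.hD) hζ hz hy
  rw [sqrt_Nr hC.hn hC.hD] at h1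
  have h2 := base_ge_one (2 * D) hζ hz
  have h3 : ‖base (2 * D) ζ z‖ ≤ ‖base (2 * D) ζ (z + y)‖ +
      ‖base (2 * D) ζ (z + y) - base (2 * D) ζ z‖ := by
    have e : base (2 * D) ζ z = base (2 * D) ζ (z + y) -
      (base (2 * D) ζ (z + y) - base (2 * D) ζ z) := by ring
    conv_lhs => rw [e]
    exact norm_sub_le _ _
  have hq : (1 : ℝ) ≤ qq n := by exact_mod_cast one_le_qq hC.hn
  have h4 : 1 / (1000 * (qq n : ℝ)) ≤ 1 / 1000 := by
    apply one_div_le_one_div_of_le (by norm_num)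
    linarith
  have h5 : 16 / 5 * (1 / (1000 * (qq n : ℝ))) * ‖base (2 * D) ζ z‖ ≤
      16 / 5 * (1 / 1000) * ‖base (2 * D) ζ z‖ := by
    apply mul_le_mul_of_nonneg_right _ (norm_nonneg _)
    linarith
  linarith

theorem Ctx.base_hi (hC : Ctx n D h T s b) {ζ y : Cn n} (hζ : ‖ζ‖ = 1)
    (hy : y ∈ Pz ζ (rr n D) 3) : ‖base (2 * D) ζ (ζ + y)‖ ≤ 101 / 100 := by
  have h1 := base_pert2 (2 * D) (rr_pos hC.hn hC.hD).le (sqrt_Nr_le hC.hn hC.hD) hζ hζ hy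
  rw [sqrt_Nr hC.hn hC.hD] at h1
  have h2 : base (2 * D) ζ ζ = 1 := by
    unfold base
    rw [inner_self_eq_norm_sq_to_K, hζ]
    simp
  rw [h2, norm_one, mul_one] at h1
  have h3 : ‖base (2 * D) ζ (ζ + y)‖ ≤ ‖base (2 * D) ζ (ζ + y) - 1‖ + 1 := by
    have := norm_add_le (base (2 * D) ζ (ζ + y) - 1) 1
    simpa using this
  have hq : (1 : ℝ) ≤ qq n := by exact_mod_cast one_le_qq hC.hn
  have h4 : 1 / (1000 * (qq n : ℝ)) ≤ 1 / 1000 := by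
    apply one_div_le_one_div_of_le (by norm_num)
    linarith
  linarith

/-- The functions `gg` are holomorphic on the ball of radius `1 + 1/N`. -/
theorem Ctx.gg_diff (hC : Ctx n D h T s b) (p : VV s) :
    DifferentiableOn ℂ (gg n D h T s b p) (ball 0 (1 + 1 / ((2 * D : ℕ) : ℝ))) := by
  have h1 : ‖p.1.1‖ = 1 := hC.frame.unit _ p.1.2
  have h2 := differentiableOn_peak hC.one_le_N (qq n) h1
  unfold gg
  exact h2.const_mul _

theorem Ctx.GG_diff (hC : Ctx n D h T s b) (F : Finset (VV s)) (ε : VV s → Bool) :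
    DifferentiableOn ℂ (GG n D h T s b F ε) (ball 0 (1 + 1 / ((2 * D : ℕ) : ℝ))) := by
  unfold GG
  apply DifferentiableOn.fun_sum
  intro p _
  exact (hC.gg_diff p).const_mul _

theorem Ctx.Pz_sub (hC : Ctx n D h T s b) {z y : Cn n} (hz : ‖z‖ = 1)
    (hy : y ∈ Pz z (rr n D) 3) : z + y ∈ ball (0 : Cn n) (1 + 1 / ((2 * D : ℕ) : ℝ)) := by
  rw [mem_ball_zero_iff]
  have h1 := (hC.norm_zy hz hy).1
  have h2 := eight_rr_le hC.hn hC.hD
  have hD : (1 : ℝ) ≤ D := by exact_mod_cast hC.hD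
  have h3 : 1 / (2 * ((2 * D : ℕ) : ℝ)) = (1 / ((2 * D : ℕ) : ℝ)) / 2 := by
    rw [div_div, mul_comm]
  have h4 : (0 : ℝ) < 1 / ((2 * D : ℕ) : ℝ) := by
    push_cast
    positivity
  rw [h3] at h2
  linarith

theorem GG_split (ε : VV s → Bool) (z₀ z : Cn n) : GG n D h T s b Finset.univ ε z =
      GG n D h T s b (near D s z₀) ε z + GG n D h T s b (far D s z₀) ε z := by
  unfold GG near far
  rw [← Finset.sum_filter_add_sum_filter_not Finset.univ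
    (fun p : VV s => (2 * D : ℝ) * rho p.1.1 z₀ ≤ 1 / 10)]
  congr 1
  apply Finset.sum_congr _ (fun _ _ => rfl)
  ext p
  simp only [Finset.mem_filter, Finset.mem_univ, true_and, not_le]

theorem norm_GG_le (F : Finset (VV s)) (ε : VV s → Bool) (z : Cn n) :
    ‖GG n D h T s b F ε z‖ ≤ ∑ p ∈ F, ‖gg n D h T s b p z‖ := by
  unfold GG
  refine (norm_sum_le _ _).trans ?_
  apply Finset.sum_le_sum
  intro p _
  rw [norm_mul, Complex.norm_real]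
  have h1 : ‖(sg (ε p) : ℝ)‖ ≤ 1 := by
    unfold sg
    split_ifs <;> simp
  calc _ ≤ 1 * ‖gg n D h T s b p z‖ := mul_le_mul_of_nonneg_right h1 (norm_nonneg _)
    _ = _ := one_mul _

end Pool.Agent.DBX
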