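import Mathlib

/-!
# DBX.Pack: number of separated points in a ball

PROOF. The proof of `Besicovitch.card_le_of_separated` of Mathlib with general constants: the balls
`ball x (δ/2)`, `x ∈ s`, are pairwise disjoint (`hsep`) and contained in `ball 0 (R + δ/2)`. Hence
with `μ = MeasureTheory.Measure.addHaar` (after `borelize E`) one has
`s.card * μ (ball 0 (δ/2)) ≤ μ (ball 0 (R + δ/2))`, and `μ (ball x t) = ENNReal.ofReal (t^finrank) *
μ (ball 0 1)` (`addHaar_ball_of_pos`), `0 < μ (ball 0 1) < ∞`. Therefore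
`s.card ≤ ((R + δ/2)/(δ/2))^finrank = (1 + 2R/δ)^finrank`.
-/

set_option autoImplicit false

namespace Pool.Agent.DBX

open MeasureTheory Metric

theorem card_le_of_sep {E : Type*} [NormedAddCommGroup E] [NormedSpace ℝ E]
    [FiniteDimensional ℝ E] (s : Finset E) {R δ : ℝ} (hδ : 0 < δ) (hR : 0 ≤ R)
    (hs : ∀ x ∈ s, ‖x‖ ≤ R) (hsep : ∀ x ∈ s, ∀ y ∈ s, x ≠ y → δ ≤ ‖x - y‖) :
    (s.card : ℝ) ≤ (1 + 2 * R / δ) ^ (Module.finrank ℝ E) := by
  borelize E
  let μ : Measure E := Measure.addHaar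
  have δpos : 0 < δ / 2 := by positivity
  have ρpos : 0 < R + δ / 2 := by positivity
  set A := ⋃ c ∈ s, ball (c : E) (δ / 2) with hA
  have D : Set.Pairwise (s : Set E) (Function.onFun Disjoint fun c => ball (c : E) (δ / 2)) := by
    rintro c hc d hd hcd
    apply ball_disjoint_ball
    rw [dist_eq_norm]
    have h1 := hsep c hc d hd hcd
    linarith
  have A_subset : A ⊆ ball (0 : E) (R + δ / 2) := by
    refine Set.iUnion₂_subset fun x hx => ?_
    apply ball_subset_ball'
    rw [dist_zero_right]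
    have h1 := hs x hx
    linarith
  have I :
    (s.card : ENNReal) * ENNReal.ofReal ((δ / 2) ^ Module.finrank ℝ E) * μ (ball 0 1) ≤
      ENNReal.ofReal ((R + δ / 2) ^ Module.finrank ℝ E) * μ (ball 0 1) :=
    calc
      (s.card : ENNReal) * ENNReal.ofReal ((δ / 2) ^ Module.finrank ℝ E) * μ (ball 0 1)
          = μ A := by
        rw [hA, measure_biUnion_finset D fun c _ => measurableSet_ball]
        simp only [μ.addHaar_ball_of_pos _ δpos]
        simp only [Finset.sum_const, nsmul_eq_mul, mul_assoc]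
      _ ≤ μ (ball (0 : E) (R + δ / 2)) := measure_mono A_subset
      _ = ENNReal.ofReal ((R + δ / 2) ^ Module.finrank ℝ E) * μ (ball 0 1) := by
        simp only [μ.addHaar_ball_of_pos _ ρpos]
  have J : (s.card : ENNReal) * ENNReal.ofReal ((δ / 2) ^ Module.finrank ℝ E) ≤
      ENNReal.ofReal ((R + δ / 2) ^ Module.finrank ℝ E) :=
    (ENNReal.mul_le_mul_iff_left (measure_ball_pos _ _ zero_lt_one).ne'
      measure_ball_lt_top.ne).1 I
  have K : (s.card : ℝ) * (δ / 2) ^ Module.finrank ℝ E ≤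
      (R + δ / 2) ^ Module.finrank ℝ E := by
    have h2 := ENNReal.toReal_le_of_le_ofReal (pow_nonneg ρpos.le _) J
    rw [ENNReal.toReal_mul, ENNReal.toReal_natCast,
      ENNReal.toReal_ofReal (pow_nonneg δpos.le _)] at h2
    exact h2
  have e : (1 + 2 * R / δ) = (R + δ / 2) / (δ / 2) := by
    field_simp
    ring
  rw [e, div_pow, le_div_iff₀ (by positivity)]
  exact K

end Pool.Agent.DBX
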