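import Mathlib
import Pool.Agent.Lib.DBX.Defs
import Pool.Agent.Lib.DBX.Pack

/-!
# DBX.Count: number of `r`-separated points (for `ρ`) in a `ρ`-ball of the unit sphere

PROOF. Let `z` be the centre. For `ζ ∈ s` put `p = ⟨z, ζ⟩`, `v = ζ - p • z` (so `⟨z, v⟩ = 0`) and
`y(ζ) = (p - 1) • z + (√(2t) : ℂ) • v`. Then
* `|p - 1| = ρ(z, ζ) = ρ(ζ, z) ≤ t`, `|v|² = 1 - |p|² ≤ 2 |1 - p| ≤ 2 t`
  (`1 - |p|² = (1 - |p|)(1 + |p|) ≤ 2 (1 - |p|) ≤ 2 |1 - p|`), so by orthogonality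
  `|y(ζ)|² = |p - 1|² + 2 t |v|² ≤ 5 t²`;
* for `ζ ≠ ζ'` in `s` (with `p, v` and `p', v'`):
  `1 - ⟨ζ, ζ'⟩ = ⟨ζ, ζ - ζ'⟩ = conj p * (p - p') + ⟨v, v - v'⟩`, because `|ζ| = 1`,
  `ζ = p • z + v`, `ζ - ζ' = (p - p') • z + (v - v')`. Hence
  `r < ρ(ζ, ζ') ≤ |p - p'| + |v| |v - v'| ≤ |p - p'| + √(2t) |v - v'|`, while
  `|y(ζ) - y(ζ')|² = |p - p'|² + 2 t |v - v'|² ≥ (|p - p'| + √(2t) |v - v'|)² / 2 ≥ r² / 2`.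
So `ζ ↦ y(ζ)` is injective on `s` and `s.image y` is a set of `s.card` points of norm `≤ √5 t`,
with mutual distances `≥ r/√2`. By `card_le_of_sep` and `Module.finrank ℝ (Cn n) = 2 n`,
`s.card ≤ (1 + 2 √5 t √2 / r)^(2n) ≤ (1 + 7 t / r)^(2n)`, as `2 √10 < 7`.
-/

set_option autoImplicit false

namespace Pool.Agent.DBX

open MeasureTheory Metric Complex Real Pool.Agent.MPdb50ff

open scoped InnerProductSpace ComplexConjugate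

private theorem Count_pyth {n : ℕ} {z v : Cn n} (hz : ‖z‖ = 1) (hv : ⟪z, v⟫_ℂ = 0) (a c : ℂ) :
    ‖a • z + c • v‖ ^ 2 = ‖a‖ ^ 2 + ‖c‖ ^ 2 * ‖v‖ ^ 2 := by
  have h : ⟪a • z, c • v⟫_ℂ = 0 := by
    rw [inner_smul_left, inner_smul_right, hv, mul_zero, mul_zero]
  have h2 := norm_add_sq_eq_norm_sq_add_norm_sq_of_inner_eq_zero (𝕜 := ℂ) _ _ h
  rw [norm_smul, norm_smul, hz] at h2
  rw [sq, h2]
  ring

private theorem Count_orth {n : ℕ} {z : Cn n} (hz : ‖z‖ = 1) (ζ : Cn n) :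
    ⟪z, ζ - ⟪z, ζ⟫_ℂ • z⟫_ℂ = 0 := by
  rw [inner_sub_right, inner_smul_right, inner_self_eq_norm_sq_to_K, hz]
  simp

private theorem Count_pn {n : ℕ} {z ζ : Cn n} (hz : ‖z‖ = 1) (hζ : ‖ζ‖ = 1) : ‖⟪z, ζ⟫_ℂ‖ ≤ 1 := by
  have := norm_inner_le_norm (𝕜 := ℂ) z ζ
  rwa [hz, hζ, mul_one] at this

private theorem Count_v {n : ℕ} {z ζ : Cn n} (hz : ‖z‖ = 1) (hζ : ‖ζ‖ = 1) :
    ‖ζ - ⟪z, ζ⟫_ℂ • z‖ ^ 2 = 1 - ‖⟪z, ζ⟫_ℂ‖ ^ 2 := by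
  have h := Count_pyth hz (Count_orth hz ζ) ⟪z, ζ⟫_ℂ 1
  rw [one_smul, add_sub_cancel, hζ] at h
  simp only [norm_one] at h
  linarith

private theorem Count_p {n : ℕ} {z ζ : Cn n} : ‖⟪z, ζ⟫_ℂ - 1‖ = rho ζ z := by
  unfold rho
  rw [← inner_conj_symm z ζ, ← norm_neg, neg_sub]
  rw [← RCLike.norm_conj]
  congr 1
  simp

private theorem Count_vle {n : ℕ} {z ζ : Cn n} (hz : ‖z‖ = 1) (hζ : ‖ζ‖ = 1) {t : ℝ}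
    (h : rho ζ z ≤ t) : ‖ζ - ⟪z, ζ⟫_ℂ • z‖ ^ 2 ≤ 2 * t := by
  rw [Count_v hz hζ]
  have h1 := Count_pn hz hζ
  have h2 : 1 - ‖⟪z, ζ⟫_ℂ‖ ≤ ‖⟪z, ζ⟫_ℂ - 1‖ := by
    have := norm_sub_norm_le (1 : ℂ) ⟪z, ζ⟫_ℂ
    rw [norm_one, norm_sub_rev] at this
    exact this
  rw [Count_p] at h2
  have h3 := norm_nonneg ⟪z, ζ⟫_ℂ
  nlinarith

/-- the chart -/
private noncomputable def Count_y {n : ℕ} (z : Cn n) (t : ℝ) (ζ : Cn n) : Cn n :=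
  (⟪z, ζ⟫_ℂ - 1) • z + ((Real.sqrt (2 * t) : ℝ) : ℂ) • (ζ - ⟪z, ζ⟫_ℂ • z)

private theorem Count_sq {t : ℝ} (ht : 0 ≤ t) : ‖((Real.sqrt (2 * t) : ℝ) : ℂ)‖ ^ 2 = 2 * t := by
  rw [Complex.norm_real, Real.norm_of_nonneg (Real.sqrt_nonneg _), Real.sq_sqrt (by positivity)]

private theorem Count_norm {n : ℕ} {z ζ : Cn n} (hz : ‖z‖ = 1) (hζ : ‖ζ‖ = 1) {t : ℝ}
    (ht : 0 ≤ t) (h : rho ζ z ≤ t) : ‖Count_y z t ζ‖ ≤ Real.sqrt 5 * t := by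
  have h1 := Count_pyth hz (Count_orth hz ζ) (⟪z, ζ⟫_ℂ - 1) ((Real.sqrt (2 * t) : ℝ) : ℂ)
  rw [Count_sq ht, Count_p] at h1
  have h2 := Count_vle hz hζ h
  have h3 : 0 ≤ rho ζ z := norm_nonneg _
  have h4 : ‖Count_y z t ζ‖ ^ 2 ≤ (Real.sqrt 5 * t) ^ 2 := by
    rw [mul_pow, Real.sq_sqrt (by norm_num : (0 : ℝ) ≤ 5)]
    unfold Count_y
    rw [h1]
    nlinarith
  exact le_of_sq_le_sq h4 (by positivity)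

private theorem Count_diff {n : ℕ} {z : Cn n} (hz : ‖z‖ = 1) {t : ℝ} (ht : 0 ≤ t) (ζ ζ' : Cn n) :
    ‖Count_y z t ζ - Count_y z t ζ'‖ ^ 2 = ‖⟪z, ζ⟫_ℂ - ⟪z, ζ'⟫_ℂ‖ ^ 2 +
      2 * t * ‖(ζ - ⟪z, ζ⟫_ℂ • z) - (ζ' - ⟪z, ζ'⟫_ℂ • z)‖ ^ 2 := by
  have ho : ⟪z, (ζ - ⟪z, ζ⟫_ℂ • z) - (ζ' - ⟪z, ζ'⟫_ℂ • z)⟫_ℂ = 0 := by
    rw [inner_sub_right, Count_orth hz, Count_orth hz, sub_zero]
  have h1 := Count_pyth hz ho (⟪z, ζ⟫_ℂ - ⟪z, ζ'⟫_ℂ) ((Real.sqrt (2 * t) : ℝ) : ℂ)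
  rw [Count_sq ht] at h1
  rw [← h1]
  congr 2
  unfold Count_y
  module

private theorem Count_inner {n : ℕ} {z ζ ζ' : Cn n} (hz : ‖z‖ = 1) (hζ : ‖ζ‖ = 1) :
    1 - ⟪ζ, ζ'⟫_ℂ = conj ⟪z, ζ⟫_ℂ * (⟪z, ζ⟫_ℂ - ⟪z, ζ'⟫_ℂ) +
      ⟪ζ - ⟪z, ζ⟫_ℂ • z, (ζ - ⟪z, ζ⟫_ℂ • z) - (ζ' - ⟪z, ζ'⟫_ℂ • z)⟫_ℂ := by
  have h1 : (1 : ℂ) = ⟪ζ, ζ⟫_ℂ := by rw [inner_self_eq_norm_sq_to_K, hζ]; simp
  have hzz : ⟪z, z⟫_ℂ = 1 := by rw [inner_self_eq_norm_sq_to_K, hz]; simp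
  rw [h1]
  simp only [inner_sub_left, inner_sub_right, inner_smul_left, inner_smul_right, hzz]
  rw [← inner_conj_symm z ζ]
  simp only [Complex.conj_conj]
  ring

private theorem Count_sep {n : ℕ} {z ζ ζ' : Cn n} (hz : ‖z‖ = 1) (hζ : ‖ζ‖ = 1) {r t : ℝ}
    (hr : 0 < r) (ht : 0 ≤ t) (h : rho ζ z ≤ t) (hs : r < rho ζ ζ') :
    r / Real.sqrt 2 ≤ ‖Count_y z t ζ - Count_y z t ζ'‖ := by
  have h1 : rho ζ ζ' ≤ ‖⟪z, ζ⟫_ℂ - ⟪z, ζ'⟫_ℂ‖ +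
      Real.sqrt (2 * t) * ‖(ζ - ⟪z, ζ⟫_ℂ • z) - (ζ' - ⟪z, ζ'⟫_ℂ • z)‖ := by
    unfold rho
    rw [Count_inner (ζ' := ζ') hz hζ]
    refine (norm_add_le _ _).trans (add_le_add ?_ ?_)
    · rw [norm_mul, RCLike.norm_conj]
      exact mul_le_of_le_one_left (norm_nonneg _) (Count_pn hz hζ)
    · refine (norm_inner_le_norm (𝕜 := ℂ) _ _).trans (mul_le_mul_of_nonneg_right ?_ (norm_nonneg _))
      exact Real.le_sqrt_of_sq_le (Count_vle hz hζ h)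
  have h2 := Count_diff hz ht ζ ζ'
  have h3 : Real.sqrt (2 * t) ^ 2 = 2 * t := Real.sq_sqrt (by positivity)
  set a := ‖⟪z, ζ⟫_ℂ - ⟪z, ζ'⟫_ℂ‖ with ha
  set b := ‖(ζ - ⟪z, ζ⟫_ℂ • z) - (ζ' - ⟪z, ζ'⟫_ℂ • z)‖ with hb
  set c := Real.sqrt (2 * t) with hc
  have h4 : r < a + c * b := lt_of_lt_of_le hs h1
  have h5 : (r / Real.sqrt 2) ^ 2 ≤ ‖Count_y z t ζ - Count_y z t ζ'‖ ^ 2 := by
    rw [h2, div_pow, Real.sq_sqrt (by norm_num : (0 : ℝ) ≤ 2), ← h3]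
    nlinarith [sq_nonneg (a - c * b)]
  exact le_of_sq_le_sq h5 (norm_nonneg _)

theorem count_le {n : ℕ} (s : Finset (Cn n)) {r t : ℝ} (hr : 0 < r) (ht : 0 ≤ t)
    (hu : ∀ ζ ∈ s, ‖ζ‖ = 1) (hsep : ∀ ζ ∈ s, ∀ ζ' ∈ s, ζ ≠ ζ' → r < rho ζ ζ')
    {z : Cn n} (hz : ‖z‖ = 1) (hst : ∀ ζ ∈ s, rho ζ z ≤ t) :
    (s.card : ℝ) ≤ (1 + 7 * t / r) ^ (2 * n) := by
  classical
  have hpos : 0 < r / Real.sqrt 2 := by positivity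
  have hd : ∀ ζ ∈ s, ∀ ζ' ∈ s, ζ ≠ ζ' →
      r / Real.sqrt 2 ≤ ‖Count_y z t ζ - Count_y z t ζ'‖ := fun ζ h ζ' h' hne =>
    Count_sep hz (hu ζ h) hr ht (hst ζ h) (hsep ζ h ζ' h' hne)
  have hinj : Set.InjOn (Count_y z t) s := by
    intro ζ h ζ' h' he
    by_contra hne
    have := hd ζ h ζ' h' hne
    rw [he, sub_self, norm_zero] at this
    linarith
  have hc := card_le_of_sep (s.image (Count_y z t)) (R := Real.sqrt 5 * t) hpos (by positivity)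
    (by
      intro x hx
      obtain ⟨ζ, h, rfl⟩ := Finset.mem_image.1 hx
      exact Count_norm hz (hu ζ h) ht (hst ζ h))
    (by
      intro x hx y hy hxy
      obtain ⟨ζ, h, rfl⟩ := Finset.mem_image.1 hx
      obtain ⟨ζ', h', rfl⟩ := Finset.mem_image.1 hy
      exact hd ζ h ζ' h' fun he => hxy (by rw [he]))
  rw [Finset.card_image_of_injOn hinj] at hc
  have hfr : Module.finrank ℝ (Cn n) = 2 * n := by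
    have h := finrank_real_of_complex (Cn n)
    rw [finrank_euclideanSpace_fin] at h
    exact h
  rw [hfr] at hc
  refine hc.trans (pow_le_pow_left₀ (by positivity) ?_ _)
  have h2 : 0 < Real.sqrt 2 := by positivity
  have e : 2 * (Real.sqrt 5 * t) / (r / Real.sqrt 2) = 2 * Real.sqrt 10 * t / r := by
    rw [show (10 : ℝ) = 5 * 2 by norm_num, Real.sqrt_mul (by norm_num)]
    field_simp
  rw [e]
  have h10 : 2 * Real.sqrt 10 ≤ 7 := by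
    have : Real.sqrt 10 ≤ 7 / 2 := by
      rw [Real.sqrt_le_left (by norm_num)]
      norm_num
    linarith
  have : 2 * Real.sqrt 10 * t / r ≤ 7 * t / r := by gcongr
  linarith

end Pool.Agent.DBX
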