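import Mathlib
import Pool.Agent.Lib.DBX.RhoB
import Pool.Agent.Lib.DBX.Count
import Pool.Agent.Lib.DBX.NumR

/-!
# DBX.Tail: the far part of the frame is negligible

PROOF. Write `N = 2 D`, `q = qq n`, `L = LL n`, `r = rr n D`, `N r = 1/(10^6 q²)`,
`A = 15 * 10^6 * q²` (so `A^(2n) ≤ 2^(66 L) ≤ exp(46.2 L)`: `kappa_le`, `two_pow_le_exp`),
`t = N ρ(ζ, z)`, `j = ⌈t⌉ - 1`, so that `j < t ≤ j + 1` on the far part.
* The fibre over `j` has at most `(A (j+1))^(2n) ≤ A^(2n) (j+1)^L` elements (`count_le`).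
* `|B|² ≥ 1 + t²` is at least `101/100` and at least `j + 1`; `q - 2 = 2 (k₁ + (L + 2))` with
  `k₁ = 49999 L - 3`, so `(|B|^(q-2))⁻¹ ≤ ((101/100)^k₁)⁻¹ ((j+1)^(L+2))⁻¹`.
* The contribution of the fibre is at most `A^(2n) ((101/100)^k₁)⁻¹ ((j+1)^2)⁻¹`, and the sum
  over `j` is at most `2 A^(2n) ((101/100)^k₁)⁻¹ ≤ exp(1 + 46.2 L - k₁/101) ≤ exp(-300 L)`.
-/

set_option autoImplicit false

namespace Pool.Agent.DBX

open MeasureTheory Metric Complex Real Pool.Agent.MPdb50ff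

open scoped InnerProductSpace ComplexConjugate

/-- `∑_{j < M} 1/(j+1)² ≤ 2`. -/
private theorem Tail_sum (M : ℕ) : ∑ j ∈ Finset.range M, (((j : ℝ) + 1) ^ 2)⁻¹ ≤ 2 := by
  have key : ∀ M : ℕ, ∑ j ∈ Finset.range (M + 1), (((j : ℝ) + 1) ^ 2)⁻¹ ≤ 2 - ((M : ℝ) + 1)⁻¹ := by
    intro M
    induction M with
    | zero => simp; norm_num
    | succ M ih =>
      rw [Finset.sum_range_succ]
      have h1 : (0 : ℝ) ≤ (M : ℝ) := Nat.cast_nonneg M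
      have h2 : ((((M + 1 : ℕ) : ℝ) + 1) ^ 2)⁻¹ ≤ ((M : ℝ) + 1)⁻¹ - (((M + 1 : ℕ) : ℝ) + 1)⁻¹ := by
        push_cast
        rw [inv_sub_inv (by positivity) (by positivity), inv_eq_one_div,
          div_le_div_iff₀ (by positivity) (by positivity)]
        nlinarith
      linarith
  have h1 : ∑ j ∈ Finset.range M, (((j : ℝ) + 1) ^ 2)⁻¹
      ≤ ∑ j ∈ Finset.range (M + 1), (((j : ℝ) + 1) ^ 2)⁻¹ := by
    rw [Finset.sum_range_succ]
    have : (0 : ℝ) ≤ (((M : ℝ) + 1) ^ 2)⁻¹ := by positivity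
    linarith
  have h2 : (0 : ℝ) ≤ ((M : ℝ) + 1)⁻¹ := by positivity
  linarith [key M]

/-- The pointwise bound of one term. -/
private theorem Tail_term {b t : ℝ} {j L k₁ k : ℕ} (ht : 1 / 10 < t) (hj : (j : ℝ) ≤ t)
    (hb : 1 + t ^ 2 ≤ b ^ 2) (hk : k = 2 * (k₁ + (L + 2))) :
    (b ^ k)⁻¹ ≤ ((101 / 100 : ℝ) ^ k₁)⁻¹ * (((j : ℝ) + 1) ^ (L + 2))⁻¹ := by
  have h1 : (101 / 100 : ℝ) ≤ b ^ 2 := by nlinarith
  have hj0 : (0 : ℝ) ≤ (j : ℝ) := Nat.cast_nonneg j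
  have h2 : (j : ℝ) + 1 ≤ b ^ 2 := by
    rcases Nat.eq_zero_or_pos j with h0 | h0
    · subst h0
      push_cast
      nlinarith
    · have h3 : (1 : ℝ) ≤ (j : ℝ) := by exact_mod_cast h0
      nlinarith
  rw [← mul_inv]
  apply inv_anti₀ (by positivity)
  rw [hk, pow_mul, pow_add (b ^ 2)]
  apply mul_le_mul
  · exact pow_le_pow_left₀ (by norm_num) h1 _
  · exact pow_le_pow_left₀ (by positivity) h2 _
  · positivity
  · positivity

/-- The final numerical estimate. -/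
private theorem Tail_num {n : ℕ} (hn : 2 ≤ n) :
    2 * ((15 * 10 ^ 6 * (qq n : ℝ) ^ 2) ^ (2 * n) * ((101 / 100 : ℝ) ^ (49999 * LL n - 3))⁻¹)
      ≤ Real.exp (-(300 * (LL n : ℝ))) := by
  have hL : 4 ≤ LL n := four_le_LL hn
  have hLr : (4 : ℝ) ≤ (LL n : ℝ) := by exact_mod_cast hL
  have h1 : (15 * 10 ^ 6 * (qq n : ℝ) ^ 2) ^ (2 * n) ≤ Real.exp (7 / 10 * ((66 : ℕ) * (LL n : ℝ))) :=
    (kappa_le hn).trans (two_pow_le_exp 66 (LL n))
  have h2 : Real.exp (1 / 101 : ℝ) ≤ 101 / 100 := by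
    have h3 : -(1 / 101 : ℝ) + 1 ≤ Real.exp (-(1 / 101 : ℝ)) := Real.add_one_le_exp _
    rw [Real.exp_neg] at h3
    have h4 : 0 < Real.exp (1 / 101 : ℝ) := Real.exp_pos _
    have h5 : (100 / 101 : ℝ) * Real.exp (1 / 101 : ℝ) ≤ 1 := by
      have h6 := mul_le_mul_of_nonneg_right h3 h4.le
      rw [inv_mul_cancel₀ h4.ne'] at h6
      linarith
    linarith
  have h3 : Real.exp ((49999 * LL n - 3 : ℕ) * (1 / 101 : ℝ))
      ≤ (101 / 100 : ℝ) ^ (49999 * LL n - 3) := by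
    rw [Real.exp_nat_mul]
    exact pow_le_pow_left₀ (Real.exp_pos _).le h2 _
  have h4 : ((101 / 100 : ℝ) ^ (49999 * LL n - 3))⁻¹
      ≤ Real.exp (-((49999 * LL n - 3 : ℕ) * (1 / 101 : ℝ))) := by
    rw [Real.exp_neg]
    exact inv_anti₀ (Real.exp_pos _) h3
  have h5 : (2 : ℝ) ≤ Real.exp 1 := by
    have := Real.add_one_le_exp (1 : ℝ)
    linarith
  have h6 : ((49999 * LL n - 3 : ℕ) : ℝ) = 49999 * (LL n : ℝ) - 3 := by
    rw [Nat.cast_sub (by omega)]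
    push_cast
    ring
  calc 2 * ((15 * 10 ^ 6 * (qq n : ℝ) ^ 2) ^ (2 * n)
        * ((101 / 100 : ℝ) ^ (49999 * LL n - 3))⁻¹)
      ≤ Real.exp 1 * (Real.exp (7 / 10 * ((66 : ℕ) * (LL n : ℝ)))
        * Real.exp (-((49999 * LL n - 3 : ℕ) * (1 / 101 : ℝ)))) := by
        apply mul_le_mul h5 _ (by positivity) (Real.exp_pos _).le
        exact mul_le_mul h1 h4 (by positivity) (Real.exp_pos _).le
    _ = Real.exp (1 + (7 / 10 * ((66 : ℕ) * (LL n : ℝ))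
        + -((49999 * LL n - 3 : ℕ) * (1 / 101 : ℝ)))) := by
        rw [← Real.exp_add, ← Real.exp_add]
    _ ≤ Real.exp (-(300 * (LL n : ℝ))) := by
        apply Real.exp_le_exp.mpr
        rw [h6]
        push_cast
        linarith

theorem tail_le {n D : ℕ} (hn : 2 ≤ n) (hD : 1 ≤ D) (s : Finset (Cn n))
    (hu : ∀ ζ ∈ s, ‖ζ‖ = 1) (hsep : ∀ ζ ∈ s, ∀ ζ' ∈ s, ζ ≠ ζ' → rr n D < rho ζ ζ')
    {z : Cn n} (hz : ‖z‖ = 1) :
    ∑ ζ ∈ s with 1 / 10 < (2 * D : ℝ) * rho ζ z, (‖base (2 * D) ζ z‖ ^ (qq n - 2))⁻¹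
      ≤ Real.exp (-(300 * (LL n : ℝ))) := by
  classical
  have hL : 4 ≤ LL n := four_le_LL hn
  have hnL : 2 * n ≤ LL n := two_mul_le_LL hn
  have hq1 : 1 ≤ qq n := one_le_qq hn
  have hqr : (1 : ℝ) ≤ (qq n : ℝ) := by exact_mod_cast hq1
  have hr : 0 < rr n D := rr_pos hn hD
  have hDr : (1 : ℝ) ≤ (D : ℝ) := by exact_mod_cast hD
  have hN : (0 : ℝ) < 2 * (D : ℝ) := by linarith
  have hNr := Nr_eq hn hD
  push_cast at hNr
  set A : ℝ := 15 * 10 ^ 6 * (qq n : ℝ) ^ 2 with hA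
  have hA0 : 0 ≤ A := by positivity
  set S := s.filter (fun ζ => 1 / 10 < (2 * D : ℝ) * rho ζ z) with hS
  set f : Cn n → ℕ := fun ζ => ⌈(2 * D : ℝ) * rho ζ z⌉₊ - 1 with hf
  set M : ℕ := S.sup f + 1 with hM
  have hmaps : ∀ ζ ∈ S, f ζ ∈ Finset.range M := by
    intro ζ hζ
    rw [Finset.mem_range, hM]
    exact Nat.lt_succ_of_le (Finset.le_sup hζ)
  -- the two bounds of `t` by `j`
  have hlow : ∀ ζ ∈ S, (f ζ : ℝ) ≤ (2 * D : ℝ) * rho ζ z := by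
    intro ζ hζ
    have h1 : 1 / 10 < (2 * D : ℝ) * rho ζ z := (Finset.mem_filter.mp hζ).2
    have h2 : 0 < ⌈(2 * D : ℝ) * rho ζ z⌉₊ := Nat.ceil_pos.mpr (by linarith)
    have h3 : f ζ < ⌈(2 * D : ℝ) * rho ζ z⌉₊ := by
      simp only [hf]
      omega
    exact (Nat.lt_ceil.mp h3).le
  have hupp : ∀ ζ ∈ S, (2 * D : ℝ) * rho ζ z ≤ (f ζ : ℝ) + 1 := by
    intro ζ hζ
    have h1 : 1 / 10 < (2 * D : ℝ) * rho ζ z := (Finset.mem_filter.mp hζ).2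
    have h2 : 0 < ⌈(2 * D : ℝ) * rho ζ z⌉₊ := Nat.ceil_pos.mpr (by linarith)
    have h3 : ⌈(2 * D : ℝ) * rho ζ z⌉₊ = f ζ + 1 := by
      simp only [hf]
      omega
    have h4 := Nat.le_ceil ((2 * D : ℝ) * rho ζ z)
    rw [h3] at h4
    push_cast at h4
    exact h4
  have hk : qq n - 2 = 2 * ((49999 * LL n - 3) + (LL n + 2)) := by
    unfold qq
    omega
  -- pointwise
  have hterm : ∀ ζ ∈ S, (‖base (2 * D) ζ z‖ ^ (qq n - 2))⁻¹
      ≤ ((101 / 100 : ℝ) ^ (49999 * LL n - 3))⁻¹ * (((f ζ : ℝ) + 1) ^ (LL n + 2))⁻¹ := by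
    intro ζ hζ
    have hζ' := Finset.mem_filter.mp hζ
    have hb := base_sq_ge (2 * D) (hu ζ hζ'.1) hz
    push_cast at hb
    exact Tail_term hζ'.2 (hlow ζ hζ) hb hk
  -- cardinalities
  have hcard : ∀ j : ℕ, ((S.filter (fun ζ => f ζ = j)).card : ℝ)
      ≤ A ^ (2 * n) * ((j : ℝ) + 1) ^ LL n := by
    intro j
    have hj0 : (0 : ℝ) ≤ (j : ℝ) := Nat.cast_nonneg j
    have h1 := count_le (S.filter (fun ζ => f ζ = j)) hr
      (t := ((j : ℝ) + 1) / (2 * (D : ℝ))) (by positivity)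
      (fun ζ hζ => hu ζ (Finset.mem_filter.mp (Finset.mem_filter.mp hζ).1).1)
      (fun ζ hζ ζ' hζ' hne => hsep ζ (Finset.mem_filter.mp (Finset.mem_filter.mp hζ).1).1 ζ'
        (Finset.mem_filter.mp (Finset.mem_filter.mp hζ').1).1 hne)
      hz
      (fun ζ hζ => by
        have h2 := hupp ζ (Finset.mem_filter.mp hζ).1
        rw [(Finset.mem_filter.mp hζ).2] at h2
        rw [le_div_iff₀ hN]
        linarith)
    refine h1.trans ?_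
    have h3 : 1 + 7 * (((j : ℝ) + 1) / (2 * (D : ℝ))) / rr n D ≤ A * ((j : ℝ) + 1) := by
      have h4 : 7 * (((j : ℝ) + 1) / (2 * (D : ℝ))) / rr n D
          = 7 * ((j : ℝ) + 1) / ((2 * (D : ℝ)) * rr n D) := by
        field_simp
      rw [h4, hNr]
      have h5 : 7 * ((j : ℝ) + 1) / (1 / (1000 * (qq n : ℝ))) ^ 2
          = 7 * 10 ^ 6 * (qq n : ℝ) ^ 2 * ((j : ℝ) + 1) := by
        field_simp
        ring
      rw [h5, hA]
      have h6 : (1 : ℝ) ≤ (qq n : ℝ) ^ 2 * ((j : ℝ) + 1) := by nlinarith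
      nlinarith
    have h7 : (0 : ℝ) ≤ 1 + 7 * (((j : ℝ) + 1) / (2 * (D : ℝ))) / rr n D := by positivity
    calc (1 + 7 * (((j : ℝ) + 1) / (2 * (D : ℝ))) / rr n D) ^ (2 * n)
        ≤ (A * ((j : ℝ) + 1)) ^ (2 * n) := pow_le_pow_left₀ h7 h3 _
      _ = A ^ (2 * n) * ((j : ℝ) + 1) ^ (2 * n) := mul_pow _ _ _
      _ ≤ A ^ (2 * n) * ((j : ℝ) + 1) ^ LL n := by
          apply mul_le_mul_of_nonneg_left _ (by positivity)
          exact pow_le_pow_right₀ (by linarith) hnL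
  calc ∑ ζ ∈ S, (‖base (2 * D) ζ z‖ ^ (qq n - 2))⁻¹
      ≤ ∑ ζ ∈ S, ((101 / 100 : ℝ) ^ (49999 * LL n - 3))⁻¹
          * (((f ζ : ℝ) + 1) ^ (LL n + 2))⁻¹ := Finset.sum_le_sum hterm
    _ = ∑ j ∈ Finset.range M, ∑ ζ ∈ S.filter (fun ζ => f ζ = j),
          ((101 / 100 : ℝ) ^ (49999 * LL n - 3))⁻¹ * (((f ζ : ℝ) + 1) ^ (LL n + 2))⁻¹ :=
        (Finset.sum_fiberwise_of_maps_to hmaps _).symm
    _ = ∑ j ∈ Finset.range M, ((S.filter (fun ζ => f ζ = j)).card : ℝ)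
          * (((101 / 100 : ℝ) ^ (49999 * LL n - 3))⁻¹ * (((j : ℝ) + 1) ^ (LL n + 2))⁻¹) := by
        apply Finset.sum_congr rfl
        intro j _
        rw [← nsmul_eq_mul, ← Finset.sum_const]
        apply Finset.sum_congr rfl
        intro ζ hζ
        rw [(Finset.mem_filter.mp hζ).2]
    _ ≤ ∑ j ∈ Finset.range M, (A ^ (2 * n) * ((101 / 100 : ℝ) ^ (49999 * LL n - 3))⁻¹)
          * (((j : ℝ) + 1) ^ 2)⁻¹ := by
        apply Finset.sum_le_sum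
        intro j _
        have hj0 : (0 : ℝ) ≤ (j : ℝ) := Nat.cast_nonneg j
        have hj1 : (0 : ℝ) < (j : ℝ) + 1 := by linarith
        calc ((S.filter (fun ζ => f ζ = j)).card : ℝ)
              * (((101 / 100 : ℝ) ^ (49999 * LL n - 3))⁻¹ * (((j : ℝ) + 1) ^ (LL n + 2))⁻¹)
            ≤ (A ^ (2 * n) * ((j : ℝ) + 1) ^ LL n)
              * (((101 / 100 : ℝ) ^ (49999 * LL n - 3))⁻¹ * (((j : ℝ) + 1) ^ (LL n + 2))⁻¹) :=
              mul_le_mul_of_nonneg_right (hcard j) (by positivity)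
          _ = (A ^ (2 * n) * ((101 / 100 : ℝ) ^ (49999 * LL n - 3))⁻¹)
              * (((j : ℝ) + 1) ^ LL n * (((j : ℝ) + 1) ^ (LL n + 2))⁻¹) := by ring
          _ = (A ^ (2 * n) * ((101 / 100 : ℝ) ^ (49999 * LL n - 3))⁻¹)
              * (((j : ℝ) + 1) ^ 2)⁻¹ := by
              congr 1
              rw [pow_add, mul_inv, ← mul_assoc, mul_inv_cancel₀ (by positivity), one_mul]
    _ = (A ^ (2 * n) * ((101 / 100 : ℝ) ^ (49999 * LL n - 3))⁻¹)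
          * ∑ j ∈ Finset.range M, (((j : ℝ) + 1) ^ 2)⁻¹ := by rw [← Finset.mul_sum]
    _ ≤ (A ^ (2 * n) * ((101 / 100 : ℝ) ^ (49999 * LL n - 3))⁻¹) * 2 :=
        mul_le_mul_of_nonneg_left (Tail_sum M) (by positivity)
    _ = 2 * (A ^ (2 * n) * ((101 / 100 : ℝ) ^ (49999 * LL n - 3))⁻¹) := by ring
    _ ≤ Real.exp (-(300 * (LL n : ℝ))) := Tail_num hn

end Pool.Agent.DBX
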