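import Mathlib
import Pool.Agent.Lib.DBX.CtxA
import Pool.Agent.Lib.DBX.Tail

/-!
# DBX.VarB: the variance of the near part

`N = 2 D`, `q = qq n`, `r = rr n D`, `L = LL n`, `u z = (h z).re`, `B(ζ, z) = base N ζ z`.
PROOFS.
* `sum_near`: for `X ∈ ℂ` and `|φ| = 1`: `Re(φ X)² + Re(φ I X)² = |X|²`. The near condition depends on
  the point only, so the sum over `p = (ζ, β)` of `Re(φ gg p z)²` is the sum over the near `ζ` of
  `amp(ζ)² |peak N q ζ z|² = c0² min(u ζ, T)² b(ζ) |⟨ζ, z⟩|² (|B(ζ, z)|^(2q))⁻¹`.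
* `var_upper`: `z = z₀ + y`. For near `ζ`, `min(u ζ, T) ≤ 40 min(u z₀, T)` (`Ctx.close`),
  `|⟨ζ, z⟩| ≤ |z| ≤ 101/100` (`norm_zy`), `(|B(ζ, z)|^(2q))⁻¹ ≤ (101/100) (|B(ζ, z₀)|^(2q))⁻¹`
  (`base_cmp`); with `frame.upper` at `z₀` the sum is at most
  `c0² 1600 min(u z₀, T)² (101/100)³ (11/10) ≤ 2000 c0² min(u z₀, T)²`.
* `var_lower`: `z` unit, `u z ≤ T`, `φ = 1`. For near `ζ`: `min(u ζ, T) ≥ u z / 40` (`close`), and
  `|⟨ζ, z⟩| ≥ 1 - ρ(ζ, z) ≥ 1 - 1/20 = 19/20` (`2 D ≥ 2`), so the sum is at least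
  `c0² (u z)²/1600 (361/400) ∑_{near} b (|B|^(2q))⁻¹`. By `frame.lower` and `b ≤ 11/10`,
  `∑_{near} b (|B|^(2q))⁻¹ ≥ 9/10 - (11/10) ∑_{far} (|B|^(2q))⁻¹`, and
  `(|B|^(2q))⁻¹ ≤ (|B|^(q-2))⁻¹` (`|B| ≥ 1`), so by `tail_le` it is at least
  `9/10 - (11/10) exp(-300 L) ≥ 8/10`. Finally `(361/400)(8/10)/1600 ≥ 1/2500`.
-/

set_option autoImplicit false

namespace Pool.Agent.DBX

open MeasureTheory Metric Complex Real Pool.Agent.MPdb50ff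

open scoped InnerProductSpace ComplexConjugate

variable {n D : ℕ} {h : Cn n → ℂ} {T : ℝ} {s : Finset (Cn n)} {b : Cn n → ℝ}

private theorem varB_re_sq (X : ℂ) : X.re ^ 2 + (Complex.I * X).re ^ 2 = ‖X‖ ^ 2 := by
  rw [Complex.sq_norm, Complex.normSq_apply]
  simp only [Complex.mul_re, Complex.I_re, Complex.I_im, zero_mul, one_mul, zero_sub]
  ring

private theorem varB_pair (hC : Ctx n D h T s b) {φ : ℂ} (hφ : ‖φ‖ = 1) (z : Cn n)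
    (ζ : {ζ // ζ ∈ s}) :
    (φ * gg n D h T s b (ζ, true) z).re ^ 2 + (φ * gg n D h T s b (ζ, false) z).re ^ 2 =
      c0 n ^ 2 * min (h ζ.1).re T ^ 2 * (b ζ.1 * (‖⟪ζ.1, z⟫_ℂ‖ ^ 2 *
          (‖base (2 * D) ζ.1 z‖ ^ (2 * qq n))⁻¹)) := by
  have hb : 0 ≤ b ζ.1 := hC.frame.b_nonneg _ ζ.2
  set A : ℝ := amp n h T b ζ.1 with hA
  set P : ℂ := peak (2 * D) (qq n) ζ.1 z with hP
  have e1 : φ * gg n D h T s b (ζ, true) z = Complex.I * (φ * ((A : ℂ) * P)) := by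
    simp only [gg, if_true]
    rw [← hA, ← hP]
    ring
  have e2 : φ * gg n D h T s b (ζ, false) z = φ * ((A : ℂ) * P) := by
    simp only [gg]
    rw [← hA, ← hP]
    simp
  rw [e1, e2, add_comm, varB_re_sq, norm_mul, norm_mul, hφ, one_mul, Complex.norm_real,
    Real.norm_eq_abs, mul_pow, sq_abs, hA, hP]
  have e3 : ‖peak (2 * D) (qq n) ζ.1 z‖ ^ 2 =
      ‖⟪ζ.1, z⟫_ℂ‖ ^ 2 * (‖base (2 * D) ζ.1 z‖ ^ (2 * qq n))⁻¹ := by
    rw [peak, norm_mul, mul_pow, norm_inv, norm_pow, inv_pow, ← pow_mul, mul_comm (qq n) 2]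
  have e4 : amp n h T b ζ.1 ^ 2 = c0 n ^ 2 * min (h ζ.1).re T ^ 2 * b ζ.1 := by
    rw [amp, mul_pow, mul_pow, Real.sq_sqrt hb]
  rw [e3, e4]
  ring

theorem sum_near (hC : Ctx n D h T s b) {φ : ℂ} (hφ : ‖φ‖ = 1) (z₀ z : Cn n) :
    ∑ p ∈ near D s z₀, (φ * gg n D h T s b p z).re ^ 2 =
      ∑ ζ ∈ s with (2 * D : ℝ) * rho ζ z₀ ≤ 1 / 10,
        c0 n ^ 2 * min (h ζ).re T ^ 2 * (b ζ * (‖⟪ζ, z⟫_ℂ‖ ^ 2 *
          (‖base (2 * D) ζ z‖ ^ (2 * qq n))⁻¹)) := by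
  classical
  rw [near, Finset.sum_filter, Fintype.sum_prod_type, Finset.sum_filter, ← Finset.sum_coe_sort s]
  refine Finset.sum_congr rfl fun ζ _ => ?_
  rw [Fintype.sum_bool]
  simp only
  by_cases hc : (2 * D : ℝ) * rho ζ.1 z₀ ≤ 1 / 10
  · rw [if_pos hc, if_pos hc, if_pos hc]
    exact varB_pair hC hφ z ζ
  · rw [if_neg hc, if_neg hc, if_neg hc, add_zero]

theorem var_upper (hC : Ctx n D h T s b) {φ : ℂ} (hφ : ‖φ‖ = 1) {z₀ y : Cn n} (hz₀ : ‖z₀‖ = 1)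
    (hy : y ∈ Pz z₀ (rr n D) 3) :
    ∑ p ∈ near D s z₀, (φ * gg n D h T s b p (z₀ + y)).re ^ 2 ≤
      2000 * c0 n ^ 2 * min (h z₀).re T ^ 2 := by
  classical
  rw [sum_near hC hφ]
  have hm : 0 < min (h z₀).re T := hC.min_pos hz₀
  have hc : 0 ≤ c0 n ^ 2 := sq_nonneg _
  have hz := (hC.norm_zy hz₀ hy).2
  have key : ∀ ζ ∈ s.filter (fun ζ => (2 * D : ℝ) * rho ζ z₀ ≤ 1 / 10),
      c0 n ^ 2 * min (h ζ).re T ^ 2 * (b ζ * (‖⟪ζ, z₀ + y⟫_ℂ‖ ^ 2 *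
          (‖base (2 * D) ζ (z₀ + y)‖ ^ (2 * qq n))⁻¹)) ≤
      (c0 n ^ 2 * (1600 * min (h z₀).re T ^ 2) * (101 / 100) ^ 3) *
        (b ζ * (‖base (2 * D) ζ z₀‖ ^ (2 * qq n))⁻¹) := by
    intro ζ hζ
    rw [Finset.mem_filter] at hζ
    have hu := hC.frame.unit ζ hζ.1
    have hb := hC.frame.b_nonneg ζ hζ.1
    have h1 := (hC.close hu hz₀ hζ.2).1
    have hmζ : 0 < min (h ζ).re T := hC.min_pos hu
    have h2 : min (h ζ).re T ≤ 40 * min (h z₀).re T := by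
      have hT := hC.hT
      rcases le_total (h z₀).re T with h3 | h3
      · rw [min_eq_left h3]
        exact (min_le_left _ _).trans h1
      · rw [min_eq_right h3]
        exact (min_le_right _ _).trans (by linarith)
    have h3 : min (h ζ).re T ^ 2 ≤ 1600 * min (h z₀).re T ^ 2 := by
      calc min (h ζ).re T ^ 2 ≤ (40 * min (h z₀).re T) ^ 2 := pow_le_pow_left₀ hmζ.le h2 2
        _ = 1600 * min (h z₀).re T ^ 2 := by ring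
    have h4 : ‖⟪ζ, z₀ + y⟫_ℂ‖ ≤ 101 / 100 := by
      have := norm_inner_le_norm (𝕜 := ℂ) ζ (z₀ + y)
      rw [hu, one_mul] at this
      exact this.trans hz
    have h5 : ‖⟪ζ, z₀ + y⟫_ℂ‖ ^ 2 ≤ (101 / 100) ^ 2 := pow_le_pow_left₀ (norm_nonneg _) h4 2
    have h6 := hC.base_cmp hu hz₀ hy (p := 2 * qq n) le_rfl
    have h7 : 0 ≤ (‖base (2 * D) ζ (z₀ + y)‖ ^ (2 * qq n))⁻¹ := by positivity
    have h8 : 0 ≤ (‖base (2 * D) ζ z₀‖ ^ (2 * qq n))⁻¹ := by positivity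
    have h9 : ‖⟪ζ, z₀ + y⟫_ℂ‖ ^ 2 * (‖base (2 * D) ζ (z₀ + y)‖ ^ (2 * qq n))⁻¹ ≤
        (101 / 100) ^ 2 * (101 / 100 * (‖base (2 * D) ζ z₀‖ ^ (2 * qq n))⁻¹) :=
      mul_le_mul h5 h6 h7 (by positivity)
    calc c0 n ^ 2 * min (h ζ).re T ^ 2 * (b ζ * (‖⟪ζ, z₀ + y⟫_ℂ‖ ^ 2 *
          (‖base (2 * D) ζ (z₀ + y)‖ ^ (2 * qq n))⁻¹))
        ≤ c0 n ^ 2 * (1600 * min (h z₀).re T ^ 2) * (b ζ * ((101 / 100) ^ 2 *
          (101 / 100 * (‖base (2 * D) ζ z₀‖ ^ (2 * qq n))⁻¹))) := by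
          apply mul_le_mul
          · exact mul_le_mul_of_nonneg_left h3 hc
          · exact mul_le_mul_of_nonneg_left h9 hb
          · exact mul_nonneg hb (mul_nonneg (sq_nonneg _) h7)
          · positivity
      _ = _ := by ring
  refine (Finset.sum_le_sum key).trans ?_
  rw [← Finset.mul_sum]
  have h1 : ∑ ζ ∈ s.filter (fun ζ => (2 * D : ℝ) * rho ζ z₀ ≤ 1 / 10),
      b ζ * (‖base (2 * D) ζ z₀‖ ^ (2 * qq n))⁻¹ ≤ 11 / 10 := by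
    refine le_trans ?_ (hC.frame.upper z₀ hz₀)
    apply Finset.sum_le_sum_of_subset_of_nonneg (Finset.filter_subset _ _)
    intro ζ hζ _
    have hb := hC.frame.b_nonneg ζ hζ
    positivity
  have h2 : 0 ≤ c0 n ^ 2 * (1600 * min (h z₀).re T ^ 2) * (101 / 100) ^ 3 := by positivity
  refine (mul_le_mul_of_nonneg_left h1 h2).trans ?_
  have h3 : 0 ≤ c0 n ^ 2 * min (h z₀).re T ^ 2 := by positivity
  have e : c0 n ^ 2 * (1600 * min (h z₀).re T ^ 2) * (101 / 100) ^ 3 * (11 / 10) =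
      (1600 * (101 / 100) ^ 3 * (11 / 10)) * (c0 n ^ 2 * min (h z₀).re T ^ 2) := by ring
  have e' : 2000 * c0 n ^ 2 * min (h z₀).re T ^ 2 = 2000 * (c0 n ^ 2 * min (h z₀).re T ^ 2) := by
    ring
  rw [e, e']
  exact mul_le_mul_of_nonneg_right (by norm_num) h3

theorem var_lower (hC : Ctx n D h T s b) {z : Cn n} (hz : ‖z‖ = 1) (hT : (h z).re ≤ T) :
    c0 n ^ 2 * (h z).re ^ 2 / 2500 ≤ ∑ p ∈ near D s z, (gg n D h T s b p z).re ^ 2 := by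
  classical
  have e0 : ∑ p ∈ near D s z, (gg n D h T s b p z).re ^ 2 =
      ∑ p ∈ near D s z, ((1 : ℂ) * gg n D h T s b p z).re ^ 2 :=
    Finset.sum_congr rfl fun p _ => by rw [one_mul]
  rw [e0, sum_near hC norm_one]
  have hu0 : 0 < (h z).re := hC.unit_pos hz
  have hc : 0 ≤ c0 n ^ 2 := sq_nonneg _
  have hD1 : (1 : ℝ) ≤ D := by exact_mod_cast hC.hD
  have key : ∀ ζ ∈ s.filter (fun ζ => (2 * D : ℝ) * rho ζ z ≤ 1 / 10),
      (c0 n ^ 2 * ((h z).re ^ 2 / 1600) * (19 / 20) ^ 2) *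
        (b ζ * (‖base (2 * D) ζ z‖ ^ (2 * qq n))⁻¹) ≤
      c0 n ^ 2 * min (h ζ).re T ^ 2 * (b ζ * (‖⟪ζ, z⟫_ℂ‖ ^ 2 *
          (‖base (2 * D) ζ z‖ ^ (2 * qq n))⁻¹)) := by
    intro ζ hζ
    rw [Finset.mem_filter] at hζ
    have hu := hC.frame.unit ζ hζ.1
    have hb := hC.frame.b_nonneg ζ hζ.1
    have h1 := (hC.close hu hz hζ.2).2
    have h2 : (h z).re / 40 ≤ min (h ζ).re T := by
      apply le_min
      · linarith
      · linarith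
    have h3 : (h z).re ^ 2 / 1600 ≤ min (h ζ).re T ^ 2 := by
      calc (h z).re ^ 2 / 1600 = ((h z).re / 40) ^ 2 := by ring
        _ ≤ min (h ζ).re T ^ 2 := pow_le_pow_left₀ (by positivity) h2 2
    have h4 : rho ζ z ≤ 1 / 20 := by
      have h5 : 0 ≤ rho ζ z := norm_nonneg _
      have h6 := hζ.2
      nlinarith
    have h5 : 19 / 20 ≤ ‖⟪ζ, z⟫_ℂ‖ := by
      have h6 : ‖(1 : ℂ)‖ ≤ ‖⟪ζ, z⟫_ℂ‖ + ‖1 - ⟪ζ, z⟫_ℂ‖ := by
        have e : (1 : ℂ) = ⟪ζ, z⟫_ℂ + (1 - ⟪ζ, z⟫_ℂ) := by ring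
        conv_lhs => rw [e]
        exact norm_add_le _ _
      rw [norm_one] at h6
      have h7 : ‖1 - ⟪ζ, z⟫_ℂ‖ ≤ 1 / 20 := h4
      linarith
    have h6 : (19 / 20 : ℝ) ^ 2 ≤ ‖⟪ζ, z⟫_ℂ‖ ^ 2 := pow_le_pow_left₀ (by norm_num) h5 2
    have h7 : 0 ≤ (‖base (2 * D) ζ z‖ ^ (2 * qq n))⁻¹ := by positivity
    calc (c0 n ^ 2 * ((h z).re ^ 2 / 1600) * (19 / 20) ^ 2) *
          (b ζ * (‖base (2 * D) ζ z‖ ^ (2 * qq n))⁻¹)
        = c0 n ^ 2 * ((h z).re ^ 2 / 1600) * (b ζ * ((19 / 20) ^ 2 *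
          (‖base (2 * D) ζ z‖ ^ (2 * qq n))⁻¹)) := by ring
      _ ≤ _ := by
          apply mul_le_mul
          · exact mul_le_mul_of_nonneg_left h3 hc
          · exact mul_le_mul_of_nonneg_left (mul_le_mul_of_nonneg_right h6 h7) hb
          · positivity
          · exact mul_nonneg hc (sq_nonneg _)
  refine le_trans ?_ (Finset.sum_le_sum key)
  rw [← Finset.mul_sum]
  have hlow := hC.frame.lower z hz
  have hsplit := Finset.sum_filter_add_sum_filter_not s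
    (fun ζ => (2 * D : ℝ) * rho ζ z ≤ 1 / 10) (fun ζ => b ζ * (‖base (2 * D) ζ z‖ ^ (2 * qq n))⁻¹)
  have htail := tail_le hC.hn hC.hD s hC.frame.unit hC.frame.sep hz
  have hfar : ∑ ζ ∈ s.filter (fun ζ => ¬ ((2 * D : ℝ) * rho ζ z ≤ 1 / 10)),
      b ζ * (‖base (2 * D) ζ z‖ ^ (2 * qq n))⁻¹ ≤ 11 / 10 * Real.exp (-(300 * (LL n : ℝ))) := by
    refine le_trans ?_ (mul_le_mul_of_nonneg_left htail (by norm_num))
    rw [Finset.mul_sum]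
    have e : s.filter (fun ζ => ¬ ((2 * D : ℝ) * rho ζ z ≤ 1 / 10)) =
        s.filter (fun ζ => 1 / 10 < (2 * D : ℝ) * rho ζ z) :=
      Finset.filter_congr fun ζ _ => not_le
    rw [e]
    apply Finset.sum_le_sum
    intro ζ hζ
    rw [Finset.mem_filter] at hζ
    have hu := hC.frame.unit ζ hζ.1
    have hB := base_ge_one (2 * D) hu hz
    have h1 : (‖base (2 * D) ζ z‖ ^ (2 * qq n))⁻¹ ≤ (‖base (2 * D) ζ z‖ ^ (qq n - 2))⁻¹ := by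
      apply inv_anti₀ (by positivity)
      exact pow_le_pow_right₀ hB (by omega)
    exact mul_le_mul (hC.frame.b_le ζ hζ.1) h1 (by positivity) (by norm_num)
  have hexp : Real.exp (-(300 * (LL n : ℝ))) ≤ 1 / 11 := by
    have hL : (4 : ℝ) ≤ (LL n : ℝ) := by exact_mod_cast four_le_LL hC.hn
    rw [Real.exp_neg, ← one_div]
    apply one_div_le_one_div_of_le (by norm_num)
    have := Real.add_one_le_exp (300 * (LL n : ℝ))
    linarith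
  have hnear : 8 / 10 ≤ ∑ ζ ∈ s.filter (fun ζ => (2 * D : ℝ) * rho ζ z ≤ 1 / 10),
      b ζ * (‖base (2 * D) ζ z‖ ^ (2 * qq n))⁻¹ := by
    linarith
  have h2 : 0 ≤ c0 n ^ 2 * ((h z).re ^ 2 / 1600) * (19 / 20) ^ 2 := by positivity
  refine le_trans ?_ (mul_le_mul_of_nonneg_left hnear h2)
  have h3 : 0 ≤ c0 n ^ 2 * (h z).re ^ 2 := by positivity
  have e : c0 n ^ 2 * ((h z).re ^ 2 / 1600) * (19 / 20) ^ 2 * (8 / 10) =
      (c0 n ^ 2 * (h z).re ^ 2) * ((19 / 20) ^ 2 * (8 / 10) / 1600) := by ring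
  rw [e, div_eq_mul_one_div]
  exact mul_le_mul_of_nonneg_left (by norm_num) h3

end Pool.Agent.DBX
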