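import Mathlib
import Pool.Agent.Lib.DBX.VarB
import Pool.Agent.Lib.DBX.EvProb
import Pool.Agent.Lib.DBX.NearSup

/-!
# DBX.Bad: the bad events

`N = 2 D`, `r = rr n D`, `L = LL n`, `u z = (h z).re`, `κ = 808000 L / min(u ζ, T)`.
PROOFS.
* `bad_dep`: `GG` over `near D s ζ` involves only the signs `ε p`, `p ∈ near D s ζ`.
* `bad_card`: `ev_prob` with `F = near D s ζ`, `g p z = I^k * gg p z` (continuous on the compact set,
  `gg_diff`, `Pz_sub`), `v = 2000 c0² min(u ζ, T)²` (`var_upper`, `φ = I^k`), `m = 200 L`: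
  `κ² v / 2 - m = (808000)² L² 1000 c0² - 200 L = 32.6432 L - 200 L ≤ -100 L`
  (`c0² = 1/(2 * 10^13 L)`, `min(u ζ, T) > 0`).
* `not_bad`: `near_sup` with `G = I^k * GG` (holomorphic on the open ball of radius `1 + 1/N`, which
  contains `ζ + Pz ζ r 3`), `m = 200 L`: `κ Re(I^k GG(ζ + y)) ≤ 200 L + 2 n log 3 ≤ 202 L`
  (`2 n ≤ L`, `log 3 ≤ 2`), so `Re(I^k GG(ζ + y)) ≤ (202/808000) min(u ζ, T) = min(u ζ, T)/4000` for
  `k = 0, 1, 2, 3`. Hence `|Re GG|, |Im GG| ≤ min/4000`, `‖GG‖ ≤ |Re GG| + |Im GG| ≤ min/2000`.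
-/

set_option autoImplicit false

namespace Pool.Agent.DBX

open MeasureTheory Metric Complex Real Pool.Agent.MPdb50ff

open scoped InnerProductSpace ComplexConjugate

/-- The bad event attached to a point of the frame and a phase `I^k`. -/
def bad (n D : ℕ) (h : Cn n → ℂ) (T : ℝ) (s : Finset (Cn n)) (b : Cn n → ℝ)
    (j : {ζ // ζ ∈ s} × Fin 4) (ε : VV s → Bool) : Prop :=
  Real.exp (200 * (LL n : ℝ)) * (volume (Pz j.1.1 (rr n D) 3)).toReal <
    ∫ x in Pz j.1.1 (rr n D) 3, Real.exp (808000 * (LL n : ℝ) / min (h j.1.1).re T *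
      (Complex.I ^ (j.2 : ℕ) * GG n D h T s b (near D s j.1.1) ε (j.1.1 + x)).re)

variable {n D : ℕ} {h : Cn n → ℂ} {T : ℝ} {s : Finset (Cn n)} {b : Cn n → ℝ}

theorem bad_dep (j : {ζ // ζ ∈ s} × Fin 4) :
    DepOn (near D s j.1.1) (bad n D h T s b j) := by
  intro ε ε' he
  have e1 : ∀ z, GG n D h T s b (near D s j.1.1) ε z =
      GG n D h T s b (near D s j.1.1) ε' z := by
    intro z
    unfold GG
    exact Finset.sum_congr rfl fun p hp => by rw [he p hp]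
  unfold bad
  simp only [e1]

private theorem bad_num {Λ μ c : ℝ} (hΛ : 4 ≤ Λ) (hμ : 0 < μ)
    (hc : c ^ 2 = 1 / (2 * 10 ^ 13 * Λ)) :
    (808000 * Λ / μ) ^ 2 * (2000 * c ^ 2 * μ ^ 2) / 2 - 200 * Λ ≤ -(100 * Λ) := by
  have hμ' : μ ≠ 0 := hμ.ne'
  have hΛ' : Λ ≠ 0 := by positivity
  have : (808000 * Λ / μ) ^ 2 * (2000 * (1 / (2 * 10 ^ 13 * Λ)) * μ ^ 2) / 2 =
      (326432 / 10000) * Λ := by
    field_simp
    norm_num
  rw [hc, this]
  linarith

private theorem bad_cont (hC : Ctx n D h T s b) (j : {ζ // ζ ∈ s} × Fin 4) :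
    ∀ p ∈ near D s j.1.1, ContinuousOn
      (fun x => Complex.I ^ (j.2 : ℕ) * gg n D h T s b p (j.1.1 + x))
      (Pz j.1.1 (rr n D) 3) := by
  intro p _
  apply ContinuousOn.mul continuousOn_const
  exact (hC.gg_diff p).continuousOn.comp (by fun_prop)
    (fun x hx => hC.Pz_sub (hC.frame.unit _ j.1.2) hx)

private theorem bad_iff (j : {ζ // ζ ∈ s} × Fin 4) (ε : VV s → Bool) :
    bad n D h T s b j ε ↔
        Real.exp (200 * (LL n : ℝ)) * (volume (Pz j.1.1 (rr n D) 3)).toReal <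
          ∫ x in Pz j.1.1 (rr n D) 3, Real.exp (808000 * (LL n : ℝ) / min (h j.1.1).re T *
            (∑ p ∈ near D s j.1.1, ((sg (ε p) : ℝ) : ℂ) *
              (Complex.I ^ (j.2 : ℕ) * gg n D h T s b p (j.1.1 + x))).re) := by
  have e1 : ∀ x : Cn n, Complex.I ^ (j.2 : ℕ) *
      GG n D h T s b (near D s j.1.1) ε (j.1.1 + x) = ∑ p ∈ near D s j.1.1,
        ((sg (ε p) : ℝ) : ℂ) * (Complex.I ^ (j.2 : ℕ) * gg n D h T s b p (j.1.1 + x)) := by
    intro x
    unfold GG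
    rw [Finset.mul_sum]
    exact Finset.sum_congr rfl fun p _ => by ring
  unfold bad
  simp only [e1]

open scoped Classical in
theorem bad_card (hC : Ctx n D h T s b) (j : {ζ // ζ ∈ s} × Fin 4) :
    (((Finset.univ : Finset (VV s → Bool)).filter fun ε => bad n D h T s b j ε).card : ℝ) ≤
      Real.exp (-(100 * (LL n : ℝ))) * (Fintype.card (VV s → Bool) : ℝ) := by
  have hζ : ‖j.1.1‖ = 1 := hC.frame.unit _ j.1.2
  have hr := rr_pos hC.hn hC.hD
  have hm := hC.min_pos hζ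
  have hL : (4 : ℝ) ≤ (LL n : ℝ) := by exact_mod_cast four_le_LL hC.hn
  have hφ : ‖Complex.I ^ (j.2 : ℕ)‖ = 1 := by rw [norm_pow, Complex.norm_I, one_pow]
  have e3 := bad_num hL hm (c0_sq hC.hn)
  have e2 : ((Finset.univ : Finset (VV s → Bool)).filter fun ε => bad n D h T s b j ε) = _ :=
    Finset.filter_congr fun ε _ => bad_iff j ε
  have key := ev_prob (near D s j.1.1)
    (fun p z => Complex.I ^ (j.2 : ℕ) * gg n D h T s b p z) j.1.1 hr (bad_cont hC j)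
    (v := 2000 * c0 n ^ 2 * min (h j.1.1).re T ^ 2)
    (fun x hx => var_upper hC hφ hζ hx) (808000 * (LL n : ℝ) / min (h j.1.1).re T)
    (200 * (LL n : ℝ))
  have key2 := key.trans
    (mul_le_mul_of_nonneg_right (Real.exp_le_exp.mpr e3) (Nat.cast_nonneg _))
  rw [e2]
  refine le_trans (le_of_eq ?_) (key2.trans (le_of_eq ?_))
  · (congr <;> exact Subsingleton.elim _ _)
  · (congr <;> exact Subsingleton.elim _ _)

theorem not_bad (hC : Ctx n D h T s b) (ζ : {ζ // ζ ∈ s}) {ε : VV s → Bool}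
    (hε : ∀ k : Fin 4, ¬ bad n D h T s b (ζ, k) ε) {y : Cn n}
    (hy1 : ‖⟪ζ.1, y⟫_ℂ‖ ≤ 2 * rr n D) (hy2 : ‖y‖ ≤ 2 * Real.sqrt (rr n D)) :
    ‖GG n D h T s b (near D s ζ.1) ε (ζ.1 + y)‖ ≤ min (h ζ.1).re T / 2000 := by
  have hζ : ‖ζ.1‖ = 1 := hC.frame.unit _ ζ.2
  have hr := rr_pos hC.hn hC.hD
  have hm := hC.min_pos hζ
  set X := GG n D h T s b (near D s ζ.1) ε (ζ.1 + y) with hX
  have hL : (4 : ℝ) ≤ (LL n : ℝ) := by exact_mod_cast four_le_LL hC.hn
  have h2n : (2 : ℝ) * n ≤ (LL n : ℝ) := by exact_mod_cast two_mul_le_LL hC.hn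
  have hlog3 : Real.log 3 ≤ 2 := by
    have := Real.log_le_sub_one_of_pos (by norm_num : (0 : ℝ) < 3)
    linarith
  have hlog0 : 0 ≤ Real.log 3 := Real.log_nonneg (by norm_num)
  have key : ∀ k : Fin 4, (Complex.I ^ (k : ℕ) * X).re ≤ min (h ζ.1).re T / 4000 := by
    intro k
    have hk := hε k
    unfold bad at hk
    rw [not_lt] at hk
    have h1 := near_sup ζ.1 hr
      (G := fun z => Complex.I ^ (k : ℕ) * GG n D h T s b (near D s ζ.1) ε z) isOpen_ball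
      ((hC.GG_diff _ ε).const_mul _) (fun x hx => hC.Pz_sub hζ hx) hk hy1 hy2
    simp only [← hX] at h1
    have h2 : 808000 * (LL n : ℝ) / min (h ζ.1).re T * (Complex.I ^ (k : ℕ) * X).re ≤
        202 * (LL n : ℝ) := by
      refine h1.trans ?_
      have hn0 : (0 : ℝ) ≤ 2 * n := by positivity
      nlinarith
    generalize (Complex.I ^ (k : ℕ) * X).re = R at h2 ⊢
    generalize min (h ζ.1).re T = μ at hm h2 ⊢
    generalize (LL n : ℝ) = Λ at hL h2
    have hΛ : 0 < Λ := by linarith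
    rw [div_mul_eq_mul_div, div_le_iff₀ hm] at h2
    rw [le_div_iff₀ (by norm_num)]
    have h3 : 202 * Λ * (4000 * R) ≤ 202 * Λ * μ := by nlinarith
    have h4 : 4000 * R ≤ μ := le_of_mul_le_mul_left h3 (by positivity)
    linarith
  have k0 := key 0
  have k1 := key 1
  have k2 := key 2
  have k3 := key 3
  have f3 : ((3 : Fin 4) : ℕ) = 3 := rfl
  have f2 : ((2 : Fin 4) : ℕ) = 2 := rfl
  have f1 : ((1 : Fin 4) : ℕ) = 1 := rfl
  have f0 : ((0 : Fin 4) : ℕ) = 0 := rfl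
  have I3 : Complex.I ^ 3 = -Complex.I := by
    rw [pow_succ, Complex.I_sq]
    ring
  rw [f0, pow_zero, one_mul] at k0
  rw [f1, pow_one] at k1
  rw [f2, Complex.I_sq] at k2
  rw [f3, I3] at k3
  simp only [Complex.mul_re, Complex.I_re, Complex.I_im, Complex.neg_re, Complex.neg_im,
    Complex.one_re, Complex.one_im] at k1 k2 k3
  have ha : |X.re| ≤ min (h ζ.1).re T / 4000 := abs_le.mpr ⟨by linarith, by linarith⟩
  have hb : |X.im| ≤ min (h ζ.1).re T / 4000 := abs_le.mpr ⟨by linarith, by linarith⟩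
  have hc := Complex.norm_le_abs_re_add_abs_im X
  linarith

end Pool.Agent.DBX
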