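import Mathlib
import Pool.Agent.Lib.DBX.RhoB
import Pool.Agent.Lib.DBX.Count
import Pool.Agent.Lib.DBX.NumR

/-!
# DBX.Deg: the degree of dependence

PROOF. Let `N = 2 D`. If `near D s z₀` and `near D s ζ` have a common element with point `ξ ∈ s`, then
`N ρ(ξ, z₀) ≤ 1/10`, `N ρ(ξ, ζ) ≤ 1/10`, so by `rho_comm`, `rho_tri`: `N ρ(ζ, z₀) ≤ 1/10 + 1/10 +
2 √(1/100) = 4/10`. Hence the points `ζ` of the indices counted lie in
`s' = {ζ ∈ s : ρ(ζ, z₀) ≤ (2/5)/N}`, and `count_le` with `t = (2/5)/N` gives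
`#s' ≤ (1 + (14/5)/(N r))^(2n) = (1 + (14/5) 10^6 q²)^(2n) ≤ (15 * 10^6 q²)^(2n) ≤ 2^(66 L)`
(`Nr_eq`, `kappa_le`). With the four values of the second component: `4 * 2^(66 L)`.
-/

set_option autoImplicit false

namespace Pool.Agent.DBX

open MeasureTheory Metric Complex Real Pool.Agent.MPdb50ff

open scoped InnerProductSpace ComplexConjugate

private theorem deg_aux {n D : ℕ} {h : Cn n → ℂ} {T : ℝ} {s : Finset (Cn n)} {b : Cn n → ℝ}
    (hC : Ctx n D h T s b) {z₀ : Cn n} (hz₀ : ‖z₀‖ = 1) (ζ : {ζ // ζ ∈ s})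
    (hj : ¬ Disjoint (near D s z₀) (near D s ζ.1)) :
    rho ζ.1 z₀ ≤ (2 / 5) / (2 * (D : ℝ)) := by
  obtain ⟨p, hp1, hp2⟩ := Finset.not_disjoint_iff.1 hj
  unfold near at hp1 hp2
  rw [Finset.mem_filter] at hp1 hp2
  have ha := hp1.2
  have hb := hp2.2
  have hD : (0 : ℝ) < 2 * (D : ℝ) := by
    have := hC.hD
    have h1 : (1 : ℝ) ≤ (D : ℝ) := by exact_mod_cast this
    linarith
  have ha' : rho p.1.1 z₀ ≤ (1 / 10) / (2 * (D : ℝ)) := by
    rw [le_div_iff₀ hD]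
    linarith
  have hb' : rho p.1.1 ζ.1 ≤ (1 / 10) / (2 * (D : ℝ)) := by
    rw [le_div_iff₀ hD]
    linarith
  have hb'' : rho ζ.1 p.1.1 ≤ (1 / 10) / (2 * (D : ℝ)) := by
    rw [rho_comm]
    exact hb'
  have htri := rho_tri (hC.frame.unit _ ζ.2) (hC.frame.unit _ p.1.2) hz₀
  have hprod : rho ζ.1 p.1.1 * rho p.1.1 z₀ ≤ ((1 / 10) / (2 * (D : ℝ))) ^ 2 := by
    rw [pow_two]
    exact mul_le_mul hb'' ha' (rho_nonneg _ _) (by positivity)
  have hsq : Real.sqrt (rho ζ.1 p.1.1 * rho p.1.1 z₀) ≤ (1 / 10) / (2 * (D : ℝ)) := by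
    calc Real.sqrt (rho ζ.1 p.1.1 * rho p.1.1 z₀) ≤ Real.sqrt (((1 / 10) / (2 * (D : ℝ))) ^ 2) :=
          Real.sqrt_le_sqrt hprod
      _ = (1 / 10) / (2 * (D : ℝ)) := Real.sqrt_sq (by positivity)
  have he : (2 / 5) / (2 * (D : ℝ)) = 4 * ((1 / 10) / (2 * (D : ℝ))) := by ring
  rw [he]
  linarith

open scoped Classical in
theorem deg_le {n D : ℕ} {h : Cn n → ℂ} {T : ℝ} {s : Finset (Cn n)} {b : Cn n → ℝ}
    (hC : Ctx n D h T s b) {z₀ : Cn n} (hz₀ : ‖z₀‖ = 1) :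
    ((Finset.univ : Finset ({ζ // ζ ∈ s} × Fin 4)).filter
      fun j => ¬ Disjoint (near D s z₀) (near D s j.1.1)).card ≤ 2 ^ (66 * LL n + 2) := by
  have hD : (0 : ℝ) < 2 * (D : ℝ) := by
    have h0 := hC.hD
    have h1 : (1 : ℝ) ≤ (D : ℝ) := by exact_mod_cast h0
    linarith
  have hq : (1 : ℝ) ≤ (qq n : ℝ) := by exact_mod_cast one_le_qq hC.hn
  set S : Finset (Cn n) := s.filter (fun ζ => rho ζ z₀ ≤ (2 / 5) / (2 * (D : ℝ))) with hS
  have hcard : ((Finset.univ : Finset ({ζ // ζ ∈ s} × Fin 4)).filter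
      fun j => ¬ Disjoint (near D s z₀) (near D s j.1.1)).card ≤
      (S ×ˢ (Finset.univ : Finset (Fin 4))).card := by
    refine Finset.card_le_card_of_injOn (fun j => (j.1.1, j.2)) ?_ ?_
    · intro j hj
      have hj' := (Finset.mem_filter.1 (Finset.mem_coe.1 hj)).2
      refine Finset.mem_coe.2 (Finset.mem_product.2 ⟨?_, Finset.mem_univ _⟩)
      rw [hS, Finset.mem_filter]
      exact ⟨j.1.2, deg_aux hC hz₀ j.1 hj'⟩
    · intro j _ j' _ hjj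
      have hjj2 : ((j.1.1, j.2) : Cn n × Fin 4) = (j'.1.1, j'.2) := hjj
      have h1 : j.1.1 = j'.1.1 := (Prod.mk.inj hjj2).1
      have h2 : j.2 = j'.2 := (Prod.mk.inj hjj2).2
      exact Prod.ext (Subtype.ext h1) h2
  rw [Finset.card_product, Finset.card_univ, Fintype.card_fin] at hcard
  have hcount := count_le S (rr_pos hC.hn hC.hD) (t := (2 / 5) / (2 * (D : ℝ))) (by positivity)
    (fun ζ hζ => hC.frame.unit ζ (Finset.mem_filter.1 hζ).1)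
    (fun ζ hζ ζ' hζ' hne => hC.frame.sep ζ (Finset.mem_filter.1 hζ).1 ζ'
      (Finset.mem_filter.1 hζ').1 hne) hz₀ (fun ζ hζ => (Finset.mem_filter.1 hζ).2)
  have hr : 7 * ((2 / 5) / (2 * (D : ℝ))) / rr n D = 14 / 5 * 10 ^ 6 * (qq n : ℝ) ^ 2 := by
    unfold rr
    have hD0 : (D : ℝ) ≠ 0 := by
      intro h0
      rw [h0] at hD
      simp at hD
    have hq0 : (qq n : ℝ) ≠ 0 := by linarith
    field_simp
    try ring
  rw [hr] at hcount
  have hq2 : (1 : ℝ) ≤ (qq n : ℝ) ^ 2 := one_le_pow₀ hq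
  have hle : (1 + 14 / 5 * 10 ^ 6 * (qq n : ℝ) ^ 2) ^ (2 * n) ≤
      (15 * 10 ^ 6 * (qq n : ℝ) ^ 2) ^ (2 * n) := by
    refine pow_le_pow_left₀ (by positivity) ?_ _
    nlinarith
  have hfin : (S.card : ℝ) ≤ (2 : ℝ) ^ (66 * LL n) :=
    hcount.trans (hle.trans (kappa_le hC.hn))
  have hnat : S.card ≤ 2 ^ (66 * LL n) := by exact_mod_cast hfin
  calc _ ≤ S.card * 4 := hcard
    _ ≤ 2 ^ (66 * LL n) * 4 := Nat.mul_le_mul_right _ hnat
    _ = 2 ^ (66 * LL n + 2) := by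
        rw [pow_add]; norm_num

end Pool.Agent.DBX
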