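import Mathlib
import Pool.Agent.Lib.DBX.CtxA
import Pool.Agent.Lib.DBX.Tail

/-!
# DBX.FarB: the far part is negligible

`N = 2 D`, `q = qq n`, `z = z₀ + y`, `B(ζ, z) = base N ζ z`, `u z = (h z).re > 0` (`uz_pos`).
PROOF. `‖gg p z‖ = amp(ζ) ‖peak N q ζ z‖` for `p = (ζ, β)`, so the sum is
`2 ∑_{ζ far} amp(ζ) |⟨ζ, z⟩| (|B(ζ, z)|^q)⁻¹`. Here `√(b ζ) ≤ √(11/10) ≤ 21/20`, so
`amp ζ ≤ c0 (21/20) min(u ζ, T)`; `|⟨ζ, z⟩| ≤ |z| ≤ 101/100`; and
`min(u ζ, T) ≤ 700 |B(ζ, z)|² min(u z, T)` because `u ζ ≤ 648 |B|² u z` (`peakH`) and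
`T ≤ 700 |B|² T` (`base_lo`). As `q ≥ 2`, `|B|² (|B|^q)⁻¹ = (|B|^(q-2))⁻¹ ≤ (101/100)
(|B(ζ, z₀)|^(q-2))⁻¹` (`base_cmp`). With `tail_le` at `z₀` the sum is at most
`2 c0 (21/20) (101/100) 700 (101/100) exp(-300 L) min(u z, T) ≤ 1500 c0 exp(-300 L) min(u z, T)`,
and `1500 c0 ≤ 1` (`c0_le`).
-/

set_option autoImplicit false

namespace Pool.Agent.DBX

open MeasureTheory Metric Complex Real Pool.Agent.MPdb50ff

open scoped InnerProductSpace ComplexConjugate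

variable {n D : ℕ} {h : Cn n → ℂ} {T : ℝ} {s : Finset (Cn n)} {b : Cn n → ℝ}

private theorem farb_q {n : ℕ} (hn : 2 ≤ n) : 2 ≤ qq n := by
  have h1 : 1 ≤ ell n := by
    unfold ell
    omega
  have h2 : 2 ≤ LL n := by
    unfold LL
    calc 2 = 2 * 1 := rfl
      _ ≤ n * ell n := Nat.mul_le_mul hn h1
  unfold qq
  omega

private theorem farb_term (hC : Ctx n D h T s b) {z₀ y : Cn n} (hz₀ : ‖z₀‖ = 1)
    (hy : y ∈ Pz z₀ (rr n D) 3) (p : VV s) :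
    ‖gg n D h T s b p (z₀ + y)‖ ≤
      c0 n * (21 / 20) * (101 / 100) * 700 * (101 / 100) * min (h (z₀ + y)).re T *
        (‖base (2 * D) p.1.1 z₀‖ ^ (qq n - 2))⁻¹ := by
  have hζs : p.1.1 ∈ s := p.1.2
  have hζ : ‖p.1.1‖ = 1 := hC.frame.unit _ hζs
  obtain ⟨hz1, hz2⟩ := hC.norm_zy hz₀ hy
  have huz : 0 < (h (z₀ + y)).re := hC.uz_pos hz1
  have hT := hC.hT
  have huζ : 0 < min (h p.1.1).re T := hC.min_pos hζ
  have hc := c0_pos hC.hn
  have hlo := hC.base_lo hζ hz₀ hy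
  have hB0 : 0 < ‖base (2 * D) p.1.1 (z₀ + y)‖ := by linarith
  have hpk := hC.peakH hζ hz1
  have hcmp := hC.base_cmp hζ hz₀ hy (p := qq n - 2) (by omega)
  set B := ‖base (2 * D) p.1.1 (z₀ + y)‖ with hB
  set B₀ := ‖base (2 * D) p.1.1 z₀‖ with hB₀
  have hsq : Real.sqrt (b p.1.1) ≤ 21 / 20 := by
    rw [Real.sqrt_le_left (by norm_num)]
    have := hC.frame.b_le _ hζs
    norm_num at this ⊢
    linarith
  have hsq0 : 0 ≤ Real.sqrt (b p.1.1) := Real.sqrt_nonneg _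
  have hin : ‖⟪p.1.1, z₀ + y⟫_ℂ‖ ≤ 101 / 100 := by
    calc ‖⟪p.1.1, z₀ + y⟫_ℂ‖ ≤ ‖p.1.1‖ * ‖z₀ + y‖ := norm_inner_le_norm _ _
      _ ≤ 101 / 100 := by rw [hζ, one_mul]; exact hz2
  have hB2 : 1 ≤ 700 * B ^ 2 := by nlinarith
  have hmin : min (h p.1.1).re T ≤ 700 * B ^ 2 * min (h (z₀ + y)).re T := by
    rcases le_total (h (z₀ + y)).re T with hle | hle
    · rw [min_eq_left hle]
      calc min (h p.1.1).re T ≤ (h p.1.1).re := min_le_left _ _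
        _ ≤ 648 * B ^ 2 * (h (z₀ + y)).re := hpk
        _ ≤ 700 * B ^ 2 * (h (z₀ + y)).re := by
            apply mul_le_mul_of_nonneg_right _ huz.le
            nlinarith [sq_nonneg B]
    · rw [min_eq_right hle]
      calc min (h p.1.1).re T ≤ T := min_le_right _ _
        _ = 1 * T := (one_mul T).symm
        _ ≤ 700 * B ^ 2 * T := mul_le_mul_of_nonneg_right hB2 hT.le
  have hnorm : ‖gg n D h T s b p (z₀ + y)‖ =
      c0 n * min (h p.1.1).re T * Real.sqrt (b p.1.1) *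
        (‖⟪p.1.1, z₀ + y⟫_ℂ‖ * (B ^ qq n)⁻¹) := by
    unfold gg peak
    rw [norm_mul, norm_mul, norm_mul, norm_inv, norm_pow, Complex.norm_real]
    have h1 : ‖(if p.2 then Complex.I else 1 : ℂ)‖ = 1 := by
      split_ifs <;> simp
    have h2 : ‖amp n h T b p.1.1‖ = c0 n * min (h p.1.1).re T * Real.sqrt (b p.1.1) := by
      unfold amp
      rw [Real.norm_eq_abs, abs_of_nonneg]
      positivity
    rw [h1, h2, one_mul]
  have hq2 := farb_q hC.hn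
  have hpow : B ^ 2 * (B ^ qq n)⁻¹ = (B ^ (qq n - 2))⁻¹ := by
    have h1 : B ^ qq n = B ^ 2 * B ^ (qq n - 2) := by
      rw [← pow_add]
      congr 1
      omega
    rw [h1, mul_inv, ← mul_assoc, mul_inv_cancel₀ (by positivity), one_mul]
  have hinv0 : 0 ≤ (B ^ qq n)⁻¹ := by positivity
  have hm0 : 0 < min (h (z₀ + y)).re T := lt_min huz hT
  rw [hnorm]
  calc c0 n * min (h p.1.1).re T * Real.sqrt (b p.1.1) * (‖⟪p.1.1, z₀ + y⟫_ℂ‖ * (B ^ qq n)⁻¹)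
      ≤ c0 n * (700 * B ^ 2 * min (h (z₀ + y)).re T) * (21 / 20) *
        (101 / 100 * (B ^ qq n)⁻¹) := by
        gcongr
    _ = c0 n * (21 / 20) * (101 / 100) * 700 * min (h (z₀ + y)).re T *
        (B ^ 2 * (B ^ qq n)⁻¹) := by ring
    _ = c0 n * (21 / 20) * (101 / 100) * 700 * min (h (z₀ + y)).re T *
        (B ^ (qq n - 2))⁻¹ := by rw [hpow]
    _ ≤ c0 n * (21 / 20) * (101 / 100) * 700 * min (h (z₀ + y)).re T *
        (101 / 100 * (B₀ ^ (qq n - 2))⁻¹) := by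
        gcongr
    _ = _ := by ring

private theorem farb_sum (D : ℕ) (s : Finset (Cn n)) (z₀ : Cn n) (f : Cn n → ℝ) :
    ∑ p ∈ far D s z₀, f p.1.1 = 2 * ∑ ζ ∈ s with 1 / 10 < (2 * D : ℝ) * rho ζ z₀, f ζ := by
  classical
  unfold far
  rw [Finset.sum_filter, Finset.sum_filter, Fintype.sum_prod_type]
  rw [← Finset.sum_coe_sort s (fun ζ => if 1 / 10 < (2 * D : ℝ) * rho ζ z₀ then f ζ else 0),
    Finset.mul_sum]
  refine Finset.sum_congr rfl fun ζ _ => ?_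
  simp only [Fintype.sum_bool]
  ring

theorem far_le (hC : Ctx n D h T s b) {z₀ y : Cn n} (hz₀ : ‖z₀‖ = 1)
    (hy : y ∈ Pz z₀ (rr n D) 3) :
    ∑ p ∈ far D s z₀, ‖gg n D h T s b p (z₀ + y)‖ ≤
      Real.exp (-(300 * (LL n : ℝ))) * min (h (z₀ + y)).re T := by
  obtain ⟨hz1, hz2⟩ := hC.norm_zy hz₀ hy
  have huz : 0 < (h (z₀ + y)).re := hC.uz_pos hz1
  have hm0 : 0 < min (h (z₀ + y)).re T := lt_min huz hC.hT
  have hc := c0_pos hC.hn
  have hc1 := c0_le hC.hn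
  have htail := tail_le hC.hn hC.hD s hC.frame.unit hC.frame.sep hz₀
  have hK : 0 ≤ c0 n * (21 / 20) * (101 / 100) * 700 * (101 / 100) *
      min (h (z₀ + y)).re T := by positivity
  calc ∑ p ∈ far D s z₀, ‖gg n D h T s b p (z₀ + y)‖
      ≤ ∑ p ∈ far D s z₀, c0 n * (21 / 20) * (101 / 100) * 700 * (101 / 100) *
          min (h (z₀ + y)).re T * (‖base (2 * D) p.1.1 z₀‖ ^ (qq n - 2))⁻¹ :=
        Finset.sum_le_sum fun p _ => farb_term hC hz₀ hy p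
    _ = c0 n * (21 / 20) * (101 / 100) * 700 * (101 / 100) * min (h (z₀ + y)).re T *
          (2 * ∑ ζ ∈ s with 1 / 10 < (2 * D : ℝ) * rho ζ z₀,
            (‖base (2 * D) ζ z₀‖ ^ (qq n - 2))⁻¹) := by
        rw [← farb_sum D s z₀ (fun ζ => (‖base (2 * D) ζ z₀‖ ^ (qq n - 2))⁻¹), Finset.mul_sum]
    _ ≤ c0 n * (21 / 20) * (101 / 100) * 700 * (101 / 100) * min (h (z₀ + y)).re T *
          (2 * Real.exp (-(300 * (LL n : ℝ)))) := by
        apply mul_le_mul_of_nonneg_left _ hK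
        linarith
    _ = (c0 n * (2 * (21 / 20) * (101 / 100) * 700 * (101 / 100))) *
          (Real.exp (-(300 * (LL n : ℝ))) * min (h (z₀ + y)).re T) := by ring
    _ ≤ 1 * (Real.exp (-(300 * (LL n : ℝ))) * min (h (z₀ + y)).re T) := by
        apply mul_le_mul_of_nonneg_right _ (by positivity)
        norm_num at hc1 ⊢
        linarith
    _ = _ := one_mul _

end Pool.Agent.DBX
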