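import Mathlib
import Pool.Agent.Lib.DBX.Defs

/-!
# DBX.LLL: the local lemma by counting, with conditional expectations

All probabilities are uniform on `V → Bool`; write `K = card (V → Bool)`. `DepOn F f`: `f` depends
only on the coordinates in `F`.

PROOFS.
* `indep`: if `f` depends on `F`, `g` on `F'`, `F` and `F'` disjoint, then
  `K * ∑ f g = (∑ f)(∑ g)`. Indeed `(∑_ε f ε)(∑_ε' g ε') = ∑_{(ε, ε')} f ε * g ε'`; apply the
  involution of the pairs `(ε, ε') ↦ (ε on F and ε' off F, ε' on F and ε off F)`: since `f`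
  depends on `F` only and `g` on `F' ⊆ Fᶜ` only, `f ε * g ε' = f η * g η` for the new first
  component `η`; so the double sum is `∑_{(η, η')} f η g η = K ∑ f g`.
* `lll`. For a finite set `S` of indices let `G(S) = {ε : no bad j for j ∈ S}`, and `N(j)` the set
  of `j'` with `¬ Disjoint (dom j) (dom j')`. CLAIM: for every `S` and every `j`,
  `#{ε ∈ G(S) : bad j ε} ≤ 2 p #G(S)`. Strong induction on `#S`. Let `S₁ = S ∩ N(j)`,
  `S₂ = S \ S₁`. The indicator of `bad j` depends on `dom j`, that of `G(S₂)` on the union of the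
  `dom j'`, `j' ∈ S₂`, which is disjoint from `dom j`; so by `indep`
  `#{ε ∈ G(S) : bad j} ≤ #{ε ∈ G(S₂) : bad j} = #{bad j} #G(S₂) / K ≤ p #G(S₂)`. If `S₁ = ∅` this is
  the claim. Otherwise `#S₂ < #S` and by induction
  `#G(S) ≥ #G(S₂) - ∑_{i ∈ S₁} #{ε ∈ G(S₂) : bad i} ≥ #G(S₂) (1 - 2 p d) ≥ #G(S₂) / 2`
  (`#S₁ ≤ d`, `4 p d ≤ 1`). So `p #G(S₂) ≤ 2 p #G(S)`.
* Positivity: by induction on `S`, `#G(insert j S) ≥ (1 - 2p) #G(S) ≥ #G(S)/2 > 0` (`4 p ≤ 1` as
  `d ≥ 1`), `#G(∅) = K > 0`.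
* The inequality: let `J₁` be the set of `j` with `¬ Disjoint F (dom j)` (at most `d` elements) and
  `J₂` its complement, `E = G(univ)`. Then `∑_{ε ∈ E} f ≤ ∑_{ε ∈ G(J₂)} f = (∑ f) #G(J₂) / K`
  (`indep`), and `#E ≥ #G(J₂) - ∑_{i ∈ J₁} #{ε ∈ G(J₂) : bad i} ≥ (1 - 2 p d) #G(J₂)` by the claim.
  Multiply.
-/

set_option autoImplicit false

namespace Pool.Agent.DBX

open Finset

private theorem LLL_indep {V : Type*} [Fintype V] [DecidableEq V] (F F' : Finset V)
    (hFF : Disjoint F F') (f g : (V → Bool) → ℝ) (hf : DepOn F f) (hg : DepOn F' g) :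
    (Fintype.card (V → Bool) : ℝ) * ∑ ε, f ε * g ε = (∑ ε, f ε) * (∑ ε, g ε) := by
  let σ : (V → Bool) × (V → Bool) ≃ (V → Bool) × (V → Bool) :=
    { toFun := fun p => (fun v => if v ∈ F then p.1 v else p.2 v,
        fun v => if v ∈ F then p.2 v else p.1 v)
      invFun := fun p => (fun v => if v ∈ F then p.1 v else p.2 v,
        fun v => if v ∈ F then p.2 v else p.1 v)
      left_inv := by
        rintro ⟨a, b⟩
        refine Prod.ext ?_ ?_ <;> funext v <;> by_cases h : v ∈ F <;> simp [h]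
      right_inv := by
        rintro ⟨a, b⟩
        refine Prod.ext ?_ ?_ <;> funext v <;> by_cases h : v ∈ F <;> simp [h] }
  have h1 : (∑ ε, f ε) * (∑ ε, g ε) = ∑ p : (V → Bool) × (V → Bool), f p.1 * g p.2 := by
    rw [Fintype.sum_prod_type, Finset.sum_mul_sum]
  have h2 : ∀ p : (V → Bool) × (V → Bool), f p.1 * g p.2 = f (σ p).1 * g (σ p).1 := by
    intro p
    have e1 : f p.1 = f (σ p).1 := hf _ _ (fun v hv => by simp [σ, hv])
    have e2 : g p.2 = g (σ p).1 := hg _ _ (fun v hv => by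
      have : v ∉ F := fun h => (Finset.disjoint_left.mp hFF h) hv
      simp [σ, this])
    rw [e1, e2]
  rw [h1, Finset.sum_congr rfl (fun p _ => h2 p),
    Equiv.sum_comp σ (fun p => f p.1 * g p.1), Fintype.sum_prod_type]
  simp only [Finset.sum_const, Finset.card_univ, nsmul_eq_mul, Finset.mul_sum]

open scoped Classical in
private noncomputable def LLL_ind (P : Prop) : ℝ := if P then 1 else 0

private theorem LLL_ind_pos {P : Prop} (h : P) : LLL_ind P = 1 := by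
  unfold LLL_ind
  rw [if_pos h]

private theorem LLL_ind_neg {P : Prop} (h : ¬ P) : LLL_ind P = 0 := by
  unfold LLL_ind
  rw [if_neg h]

private theorem LLL_ind_nonneg (P : Prop) : 0 ≤ LLL_ind P := by
  by_cases h : P
  · rw [LLL_ind_pos h]; norm_num
  · rw [LLL_ind_neg h]

private noncomputable def LLL_cnt {V : Type*} [Fintype V] [DecidableEq V]
    (P : (V → Bool) → Prop) : ℝ :=
  ∑ ε, LLL_ind (P ε)

private theorem LLL_cnt_eq {V : Type*} [Fintype V] [DecidableEq V] (P : (V → Bool) → Prop)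
    [DecidablePred P] :
    LLL_cnt P = ((univ.filter P).card : ℝ) := by
  unfold LLL_cnt
  rw [← Finset.sum_boole]
  refine Finset.sum_congr rfl (fun ε _ => ?_)
  by_cases h : P ε
  · rw [LLL_ind_pos h, if_pos h]
  · rw [LLL_ind_neg h, if_neg h]

private theorem LLL_cnt_nonneg {V : Type*} [Fintype V] [DecidableEq V]
    (P : (V → Bool) → Prop) : 0 ≤ LLL_cnt P := by
  unfold LLL_cnt
  exact Finset.sum_nonneg (fun ε _ => LLL_ind_nonneg _)

private theorem LLL_cnt_mono {V : Type*} [Fintype V] [DecidableEq V]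
    (P Q : (V → Bool) → Prop) (h : ∀ ε, P ε → Q ε) : LLL_cnt P ≤ LLL_cnt Q := by
  unfold LLL_cnt
  refine Finset.sum_le_sum (fun ε _ => ?_)
  by_cases hP : P ε
  · rw [LLL_ind_pos hP, LLL_ind_pos (h ε hP)]
  · rw [LLL_ind_neg hP]
    exact LLL_ind_nonneg _

private theorem LLL_cnt_congr {V : Type*} [Fintype V] [DecidableEq V]
    (P Q : (V → Bool) → Prop) (h : ∀ ε, P ε ↔ Q ε) : LLL_cnt P = LLL_cnt Q :=
  le_antisymm (LLL_cnt_mono P Q (fun ε => (h ε).1)) (LLL_cnt_mono Q P (fun ε => (h ε).2))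

private theorem LLL_indepP {V : Type*} [Fintype V] [DecidableEq V] (F F' : Finset V)
    (hFF : Disjoint F F') (P Q : (V → Bool) → Prop) (hP : DepOn F P) (hQ : DepOn F' Q) :
    (Fintype.card (V → Bool) : ℝ) * LLL_cnt (fun ε => P ε ∧ Q ε) = LLL_cnt P * LLL_cnt Q := by
  have h := LLL_indep F F' hFF (fun ε => LLL_ind (P ε)) (fun ε => LLL_ind (Q ε))
    (fun ε ε' he => by simp only [hP ε ε' he]) (fun ε ε' he => by simp only [hQ ε ε' he])
  unfold LLL_cnt
  rw [← h]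
  congr 1
  refine Finset.sum_congr rfl (fun ε _ => ?_)
  by_cases h1 : P ε
  · by_cases h2 : Q ε
    · rw [LLL_ind_pos h1, LLL_ind_pos h2, LLL_ind_pos ⟨h1, h2⟩, mul_one]
    · rw [LLL_ind_neg h2, LLL_ind_neg (fun h => h2 h.2), mul_zero]
  · rw [LLL_ind_neg h1, LLL_ind_neg (fun h => h1 h.1), zero_mul]

private theorem LLL_indepF {V : Type*} [Fintype V] [DecidableEq V] (F F' : Finset V)
    (hFF : Disjoint F F') (f : (V → Bool) → ℝ) (Q : (V → Bool) → Prop) [DecidablePred Q]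
    (hf : DepOn F f) (hQ : DepOn F' Q) :
    (Fintype.card (V → Bool) : ℝ) * ∑ ε ∈ univ.filter Q, f ε = (∑ ε, f ε) * LLL_cnt Q := by
  have h := LLL_indep F F' hFF f
    (fun ε => LLL_ind (Q ε)) hf (fun ε ε' he => by simp only [hQ ε ε' he])
  unfold LLL_cnt
  rw [← h, Finset.sum_filter]
  congr 1
  refine Finset.sum_congr rfl (fun ε _ => ?_)
  by_cases h2 : Q ε
  · rw [if_pos h2, LLL_ind_pos h2, mul_one]
  · rw [if_neg h2, LLL_ind_neg h2, mul_zero]

private theorem LLL_union {V J : Type*} [Fintype V] [DecidableEq V] (A : (V → Bool) → Prop)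
    (bad : J → (V → Bool) → Prop) (S : Finset J) :
    LLL_cnt A ≤ LLL_cnt (fun ε => A ε ∧ ∀ i ∈ S, ¬ bad i ε) +
      ∑ i ∈ S, LLL_cnt (fun ε => A ε ∧ bad i ε) := by
  unfold LLL_cnt
  rw [Finset.sum_comm, ← Finset.sum_add_distrib]
  refine Finset.sum_le_sum (fun ε _ => ?_)
  have h0 : 0 ≤ ∑ i ∈ S, LLL_ind (A ε ∧ bad i ε) :=
    Finset.sum_nonneg (fun i _ => LLL_ind_nonneg _)
  have h2 := LLL_ind_nonneg (A ε ∧ ∀ i ∈ S, ¬ bad i ε)
  by_cases hA : A ε
  · by_cases hS : ∀ i ∈ S, ¬ bad i ε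
    · rw [LLL_ind_pos hA, LLL_ind_pos (P := A ε ∧ ∀ i ∈ S, ¬ bad i ε) ⟨hA, hS⟩]
      linarith
    · push Not at hS
      obtain ⟨i, hi, hb⟩ := hS
      have h1 : LLL_ind (A ε ∧ bad i ε) ≤ ∑ i ∈ S, LLL_ind (A ε ∧ bad i ε) :=
        Finset.single_le_sum (f := fun i => LLL_ind (A ε ∧ bad i ε))
          (fun i _ => LLL_ind_nonneg _) hi
      rw [LLL_ind_pos (P := A ε ∧ bad i ε) ⟨hA, hb⟩] at h1
      rw [LLL_ind_pos hA]
      linarith
  · rw [LLL_ind_neg hA]
    linarith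

private theorem LLL_depG {V J : Type*} [DecidableEq V] (dom : J → Finset V)
    (bad : J → (V → Bool) → Prop) (hdep : ∀ j, DepOn (dom j) (bad j)) (S : Finset J) :
    DepOn (S.biUnion dom) (fun ε => ∀ i ∈ S, ¬ bad i ε) := by
  intro ε ε' he
  apply propext
  constructor
  · intro h i hi hb
    refine h i hi ?_
    rw [hdep i ε ε' (fun p hp => he p (Finset.mem_biUnion.mpr ⟨i, hi, hp⟩))]
    exact hb
  · intro h i hi hb
    refine h i hi ?_
    rw [← hdep i ε ε' (fun p hp => he p (Finset.mem_biUnion.mpr ⟨i, hi, hp⟩))]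
    exact hb

private theorem LLL_lower {V J : Type*} [Fintype V] [DecidableEq V] [Fintype J] (dom : J → Finset V)
    (bad : J → (V → Bool) → Prop) (p : ℝ) (d : ℕ) (hp0 : 0 ≤ p) (F : Finset V)
    (hF : (univ.filter fun j => ¬ Disjoint F (dom j)).card ≤ d) (S : Finset J)
    (hcl : ∀ j, LLL_cnt (fun ε => (∀ i ∈ S.filter (fun i => Disjoint F (dom i)), ¬ bad i ε) ∧
      bad j ε) ≤ 2 * p * LLL_cnt (fun ε => ∀ i ∈ S.filter (fun i => Disjoint F (dom i)),
        ¬ bad i ε)) :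
    (1 - 2 * p * d) * LLL_cnt (fun ε => ∀ i ∈ S.filter (fun i => Disjoint F (dom i)),
        ¬ bad i ε) ≤ LLL_cnt (fun ε => ∀ i ∈ S, ¬ bad i ε) := by
  set A : (V → Bool) → Prop := fun ε => ∀ i ∈ S.filter (fun i => Disjoint F (dom i)), ¬ bad i ε
    with hA
  have h1 := LLL_union A bad (S.filter (fun i => ¬ Disjoint F (dom i)))
  have h2 : LLL_cnt (fun ε => A ε ∧ ∀ i ∈ S.filter (fun i => ¬ Disjoint F (dom i)), ¬ bad i ε) =
      LLL_cnt (fun ε => ∀ i ∈ S, ¬ bad i ε) := by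
    refine LLL_cnt_congr _ _ (fun ε => ?_)
    constructor
    · rintro ⟨h3, h4⟩ i hi
      by_cases hd : Disjoint F (dom i)
      · exact h3 i (Finset.mem_filter.mpr ⟨hi, hd⟩)
      · exact h4 i (Finset.mem_filter.mpr ⟨hi, hd⟩)
    · intro h3
      exact ⟨fun i hi => h3 i (Finset.mem_filter.mp hi).1,
        fun i hi => h3 i (Finset.mem_filter.mp hi).1⟩
  have h3 : ∑ i ∈ S.filter (fun i => ¬ Disjoint F (dom i)), LLL_cnt (fun ε => A ε ∧ bad i ε) ≤
      (d : ℝ) * (2 * p * LLL_cnt A) := by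
    have h4 : ∑ i ∈ S.filter (fun i => ¬ Disjoint F (dom i)), LLL_cnt (fun ε => A ε ∧ bad i ε) ≤
        ∑ i ∈ S.filter (fun i => ¬ Disjoint F (dom i)), 2 * p * LLL_cnt A :=
      Finset.sum_le_sum (fun i _ => hcl i)
    rw [Finset.sum_const, nsmul_eq_mul] at h4
    refine h4.trans ?_
    have h5 : ((S.filter (fun i => ¬ Disjoint F (dom i))).card : ℝ) ≤ d := by
      have : (S.filter (fun i => ¬ Disjoint F (dom i))).card ≤
          (univ.filter fun j => ¬ Disjoint F (dom j)).card :=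
        Finset.card_le_card (Finset.filter_subset_filter _ (Finset.subset_univ S))
      exact_mod_cast this.trans hF
    refine mul_le_mul_of_nonneg_right h5 ?_
    have := LLL_cnt_nonneg A
    positivity
  rw [h2] at h1
  nlinarith [h1, h3]

private theorem LLL_claim {V J : Type*} [Fintype V] [DecidableEq V] [Fintype J] (dom : J → Finset V)
    (bad : J → (V → Bool) → Prop) (hdep : ∀ j, DepOn (dom j) (bad j))
    (p : ℝ) (d : ℕ) (hp0 : 0 ≤ p) (hpd : 4 * p * d ≤ 1)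
    (hp : ∀ j, LLL_cnt (bad j) ≤ p * (Fintype.card (V → Bool) : ℝ))
    (hd : ∀ j, (univ.filter fun j' => ¬ Disjoint (dom j) (dom j')).card ≤ d) :
    ∀ (k : ℕ) (S : Finset J), S.card = k → ∀ j,
      LLL_cnt (fun ε => (∀ i ∈ S, ¬ bad i ε) ∧ bad j ε) ≤
        2 * p * LLL_cnt (fun ε => ∀ i ∈ S, ¬ bad i ε) := by
  have hK : (0 : ℝ) < (Fintype.card (V → Bool) : ℝ) := by
    exact_mod_cast Fintype.card_pos
  intro k
  induction k using Nat.strong_induction_on with
  | _ k ih =>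
    intro S hS j
    set S2 := S.filter (fun i => Disjoint (dom j) (dom i)) with hS2
    have hdis : Disjoint (dom j) (S2.biUnion dom) := by
      rw [Finset.disjoint_biUnion_right]
      intro i hi
      exact (Finset.mem_filter.mp hi).2
    have hind := LLL_indepP (dom j) (S2.biUnion dom) hdis (bad j) (fun ε => ∀ i ∈ S2, ¬ bad i ε)
      (hdep j) (LLL_depG dom bad hdep S2)
    have hG2 := LLL_cnt_nonneg (fun ε : V → Bool => ∀ i ∈ S2, ¬ bad i ε)
    have h1 : LLL_cnt (fun ε => (∀ i ∈ S, ¬ bad i ε) ∧ bad j ε) ≤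
        LLL_cnt (fun ε => bad j ε ∧ ∀ i ∈ S2, ¬ bad i ε) := by
      refine LLL_cnt_mono _ _ (fun ε h => ?_)
      exact ⟨h.2, fun i hi => h.1 i (Finset.mem_filter.mp hi).1⟩
    have h2 : LLL_cnt (fun ε => bad j ε ∧ ∀ i ∈ S2, ¬ bad i ε) ≤
        p * LLL_cnt (fun ε : V → Bool => ∀ i ∈ S2, ¬ bad i ε) := by
      have h3 : LLL_cnt (bad j) * LLL_cnt (fun ε : V → Bool => ∀ i ∈ S2, ¬ bad i ε) ≤
          p * (Fintype.card (V → Bool) : ℝ) *
            LLL_cnt (fun ε : V → Bool => ∀ i ∈ S2, ¬ bad i ε) :=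
        mul_le_mul_of_nonneg_right (hp j) hG2
      rw [← hind] at h3
      have h4 : (Fintype.card (V → Bool) : ℝ) *
          LLL_cnt (fun ε => bad j ε ∧ ∀ i ∈ S2, ¬ bad i ε) ≤
          (Fintype.card (V → Bool) : ℝ) *
          (p * LLL_cnt (fun ε : V → Bool => ∀ i ∈ S2, ¬ bad i ε)) := by
        refine h3.trans (le_of_eq ?_)
        ring
      exact le_of_mul_le_mul_left h4 hK
    by_cases hcard : S2.card < k
    · have hlow := LLL_lower dom bad p d hp0 (dom j) (hd j) S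
        (fun j' => ih S2.card hcard S2 rfl j')
      have h5 : (1 / 2 : ℝ) * LLL_cnt (fun ε : V → Bool => ∀ i ∈ S2, ¬ bad i ε) ≤
          LLL_cnt (fun ε : V → Bool => ∀ i ∈ S, ¬ bad i ε) := by
        refine le_trans ?_ hlow
        refine mul_le_mul_of_nonneg_right ?_ hG2
        linarith
      have h6 := mul_le_mul_of_nonneg_left h5 hp0
      linarith
    · have hle : S2.card ≤ S.card := Finset.card_filter_le _ _
      have heq : S2 = S := by
        refine Finset.eq_of_subset_of_card_le (Finset.filter_subset _ _) ?_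
        omega
      rw [heq] at h2
      have := LLL_cnt_nonneg (fun ε : V → Bool => ∀ i ∈ S, ¬ bad i ε)
      have h7 : 0 ≤ p * LLL_cnt (fun ε : V → Bool => ∀ i ∈ S, ¬ bad i ε) := mul_nonneg hp0 this
      rw [heq] at h1
      linarith

open scoped Classical in
private theorem LLL_pos {V J : Type*} [Fintype V] [DecidableEq V] [Fintype J]
    (bad : J → (V → Bool) → Prop) (p : ℝ) (hp4 : 4 * p ≤ 1)
    (hcl : ∀ (S : Finset J) (j : J),
      LLL_cnt (fun ε => (∀ i ∈ S, ¬ bad i ε) ∧ bad j ε) ≤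
        2 * p * LLL_cnt (fun ε => ∀ i ∈ S, ¬ bad i ε)) (S : Finset J) :
    0 < LLL_cnt (fun ε => ∀ i ∈ S, ¬ bad i ε) := by
  induction S using Finset.induction_on with
  | empty =>
    unfold LLL_cnt
    simp [LLL_ind_pos trivial]
  | insert j S hj ih =>
    have h1 := LLL_union (fun ε => ∀ i ∈ S, ¬ bad i ε) bad {j}
    rw [Finset.sum_singleton] at h1
    have h2 : LLL_cnt (fun ε => (∀ i ∈ S, ¬ bad i ε) ∧ ∀ i ∈ ({j} : Finset J), ¬ bad i ε) =
        LLL_cnt (fun ε => ∀ i ∈ insert j S, ¬ bad i ε) := by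
      refine LLL_cnt_congr _ _ (fun ε => ?_)
      simp only [Finset.mem_singleton, forall_eq, Finset.mem_insert, forall_eq_or_imp]
      exact and_comm
    rw [h2] at h1
    have h3 := hcl S j
    nlinarith [h1, h3, ih]

open scoped Classical in
theorem lll {V J : Type*} [Fintype V] [Fintype J] (dom : J → Finset V)
    (bad : J → (V → Bool) → Prop) (hdep : ∀ j, DepOn (dom j) (bad j))
    (p : ℝ) (d : ℕ) (hp0 : 0 ≤ p) (hd1 : 1 ≤ d) (hpd : 4 * p * d ≤ 1)
    (hp : ∀ j, ((univ.filter fun ε : V → Bool => bad j ε).card : ℝ) ≤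
      p * (Fintype.card (V → Bool) : ℝ))
    (hd : ∀ j, (univ.filter fun j' => ¬ Disjoint (dom j) (dom j')).card ≤ d) :
    0 < (univ.filter fun ε : V → Bool => ∀ j, ¬ bad j ε).card ∧
    ∀ (F : Finset V) (f : (V → Bool) → ℝ), DepOn F f → (∀ ε, 0 ≤ f ε) →
      (univ.filter fun j => ¬ Disjoint F (dom j)).card ≤ d →
      (1 - 2 * p * d) * (Fintype.card (V → Bool) : ℝ) *
          ∑ ε ∈ univ.filter (fun ε : V → Bool => ∀ j, ¬ bad j ε), f ε ≤
        (∑ ε : V → Bool, f ε) * ((univ.filter fun ε : V → Bool => ∀ j, ¬ bad j ε).card : ℝ) := by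
  have hK : (0 : ℝ) < (Fintype.card (V → Bool) : ℝ) := by
    exact_mod_cast Fintype.card_pos
  have hd1' : (1 : ℝ) ≤ (d : ℝ) := by exact_mod_cast hd1
  have hp4 : 4 * p ≤ 1 := by nlinarith
  have hp' : ∀ j, LLL_cnt (bad j) ≤ p * (Fintype.card (V → Bool) : ℝ) := by
    intro j
    rw [LLL_cnt_eq]
    exact hp j
  have hcl : ∀ (S : Finset J) (j : J),
      LLL_cnt (fun ε => (∀ i ∈ S, ¬ bad i ε) ∧ bad j ε) ≤
        2 * p * LLL_cnt (fun ε => ∀ i ∈ S, ¬ bad i ε) :=
    fun S j => LLL_claim dom bad hdep p d hp0 hpd hp' hd S.card S rfl j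
  have hpos := LLL_pos bad p hp4 hcl univ
  have hE : LLL_cnt (fun ε : V → Bool => ∀ i ∈ (univ : Finset J), ¬ bad i ε) =
      ((univ.filter fun ε : V → Bool => ∀ j, ¬ bad j ε).card : ℝ) := by
    refine (LLL_cnt_congr _ (fun ε : V → Bool => ∀ j, ¬ bad j ε) (fun ε => ?_)).trans
      (LLL_cnt_eq (fun ε : V → Bool => ∀ j, ¬ bad j ε))
    simp
  constructor
  · rw [hE] at hpos
    exact_mod_cast hpos
  · intro F f hf hf0 hF
    set J2 := (univ : Finset J).filter (fun i => Disjoint F (dom i)) with hJ2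
    have hdis : Disjoint F (J2.biUnion dom) := by
      rw [Finset.disjoint_biUnion_right]
      intro i hi
      exact (Finset.mem_filter.mp hi).2
    have hind := LLL_indepF F (J2.biUnion dom) hdis f (fun ε => ∀ i ∈ J2, ¬ bad i ε)
      hf (LLL_depG dom bad hdep J2)
    have hlow := LLL_lower dom bad p d hp0 F hF univ (fun j => hcl J2 j)
    rw [← hJ2, hE] at hlow
    have h1 : ∑ ε ∈ univ.filter (fun ε : V → Bool => ∀ j, ¬ bad j ε), f ε ≤
        ∑ ε ∈ univ.filter (fun ε : V → Bool => ∀ i ∈ J2, ¬ bad i ε), f ε := by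
      refine Finset.sum_le_sum_of_subset_of_nonneg ?_ (fun ε _ _ => hf0 ε)
      intro ε hε
      rw [Finset.mem_filter] at hε ⊢
      exact ⟨hε.1, fun i _ => hε.2 i⟩
    have hfs : 0 ≤ ∑ ε : V → Bool, f ε := Finset.sum_nonneg (fun ε _ => hf0 ε)
    have h2 : 0 ≤ 1 - 2 * p * d := by linarith
    calc (1 - 2 * p * d) * (Fintype.card (V → Bool) : ℝ) *
          ∑ ε ∈ univ.filter (fun ε : V → Bool => ∀ j, ¬ bad j ε), f ε
        ≤ (1 - 2 * p * d) * (Fintype.card (V → Bool) : ℝ) *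
          ∑ ε ∈ univ.filter (fun ε : V → Bool => ∀ i ∈ J2, ¬ bad i ε), f ε :=
          mul_le_mul_of_nonneg_left h1 (mul_nonneg h2 hK.le)
      _ = (1 - 2 * p * d) * ((Fintype.card (V → Bool) : ℝ) *
          ∑ ε ∈ univ.filter (fun ε : V → Bool => ∀ i ∈ J2, ¬ bad i ε), f ε) := by ring
      _ = (∑ ε : V → Bool, f ε) * ((1 - 2 * p * d) *
          LLL_cnt (fun ε : V → Bool => ∀ i ∈ J2, ¬ bad i ε)) := by rw [hind]; ring
      _ ≤ _ := mul_le_mul_of_nonneg_left hlow hfs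

end Pool.Agent.DBX
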