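import Mathlib
import Pool.Agent.Lib.DBX.Mom

/-!
# DBX.SqrtAvg: the average of the square root

PROOFS.
* `sqrt_le_poly`: for `x < -1`, `√(1 + x) = 0` and the right side is positive (put `x = -1 - t`,
  `t ≥ 0`: `1 - (1+t)/2 - (1+t)²/8 - (1+t)³/16 + (1+t)⁴ ≥ 5/16`, clear from
  `(1+t)⁴ ≥ (1+t)³ ≥ (1+t)² ≥ 1+t`). For `x ≥ -1` put `y = √(1 + x) ≥ 0`, `x = y² - 1`; the
  difference of the two sides is a polynomial in `y`:
  `1 + (y²-1)/2 - (y²-1)²/8 + (y²-1)³/16 + (y²-1)⁴ - y = (y-1)⁴ * P(y)`, where `P` has non-negative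
  values for `y ≥ 0` (divide out; `P(y) = (y+1)⁴ + (y² + 4 y + 5)/16`; check with `ring`).
* `sqrt_avg`: with `X(ε) = ∑ sg(ε p) c p`, `√(u + X) = √u √(1 + X/u)`; sum `sqrt_le_poly (X/u)`
  over `ε` with `sum_odd_one`, `sum_odd_three`, `sum_sq`, `sum_four_le`:
  `∑ √(u + X) ≤ card √u (1 - v/(8u²) + 5 v²/u⁴) ≤ card √u (1 - v/(8u²) + v/(20u²))
  ≤ card √u (1 - v/(16 u²))`, as `v ≤ u²/100`.
-/

set_option autoImplicit false

namespace Pool.Agent.DBX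

open Finset Pool.Agent.MPdb50ff

theorem sqrt_le_poly (x : ℝ) :
    Real.sqrt (1 + x) ≤ 1 + x / 2 - x ^ 2 / 8 + x ^ 3 / 16 + x ^ 4 := by
  by_cases hx : 0 ≤ 1 + x
  · set y := Real.sqrt (1 + x) with hy
    have hy0 : 0 ≤ y := Real.sqrt_nonneg _
    have hy2 : y ^ 2 = 1 + x := Real.sq_sqrt hx
    have hxy : x = y ^ 2 - 1 := by linarith
    have hP : 0 ≤ (y - 1) ^ 4 * ((y + 1) ^ 4 + (y ^ 2 + 4 * y + 5) / 16) := by positivity
    have hid : 1 + x / 2 - x ^ 2 / 8 + x ^ 3 / 16 + x ^ 4 - y =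
        (y - 1) ^ 4 * ((y + 1) ^ 4 + (y ^ 2 + 4 * y + 5) / 16) := by
      rw [hxy]
      ring
    linarith
  · have hx' : 1 + x < 0 := not_le.1 hx
    rw [Real.sqrt_eq_zero'.2 hx'.le]
    obtain ⟨t, ht, rfl⟩ : ∃ t : ℝ, 0 < t ∧ x = -1 - t := ⟨-1 - x, by linarith, by ring⟩
    have hid : 1 + (-1 - t) / 2 - (-1 - t) ^ 2 / 8 + (-1 - t) ^ 3 / 16 + (-1 - t) ^ 4 =
        21 / 16 + 49 / 16 * t + 91 / 16 * t ^ 2 + 63 / 16 * t ^ 3 + t ^ 4 := by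
      ring
    rw [hid]
    positivity

variable {V : Type*} [Fintype V] [DecidableEq V]

theorem sqrt_avg (c : V → ℝ) {u : ℝ} (hu : 0 < u) (hv : ∑ p, c p ^ 2 ≤ u ^ 2 / 100) :
    ∑ ε : V → Bool, Real.sqrt (u + ∑ p, sg (ε p) * c p) ≤
      (Fintype.card (V → Bool) : ℝ) *
        (Real.sqrt u * (1 - (∑ p, c p ^ 2) / (16 * u ^ 2))) := by
  set X : (V → Bool) → ℝ := fun ε => ∑ p, sg (ε p) * c p with hX
  set v : ℝ := ∑ p, c p ^ 2 with hvdef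
  set K : ℝ := (Fintype.card (V → Bool) : ℝ) with hK
  have hK0 : 0 ≤ K := by rw [hK]; positivity
  have hv0 : 0 ≤ v := Finset.sum_nonneg fun p _ => sq_nonneg _
  have h1 : ∑ ε, X ε = 0 := sum_odd_one c
  have h3 : ∑ ε, X ε ^ 3 = 0 := sum_odd_three c
  have h2 : ∑ ε, X ε ^ 2 = K * v := sum_sq c
  have h4 : ∑ ε, X ε ^ 4 ≤ K * (5 * v ^ 2) := by
    have h := sum_four_le c
    simp only [hX, hK, hvdef]
    linarith
  have hsu : 0 ≤ Real.sqrt u := Real.sqrt_nonneg _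
  have hpt : ∀ ε : V → Bool, Real.sqrt (u + X ε) ≤
      Real.sqrt u * (1 + (1 / (2 * u)) * X ε - (1 / (8 * u ^ 2)) * X ε ^ 2 +
        (1 / (16 * u ^ 3)) * X ε ^ 3 + (1 / u ^ 4) * X ε ^ 4) := by
    intro ε
    have e1 : u + X ε = u * (1 + X ε / u) := by field_simp
    rw [e1, Real.sqrt_mul hu.le]
    refine mul_le_mul_of_nonneg_left ((sqrt_le_poly _).trans_eq ?_) hsu
    field_simp
    try ring
  have hsum : ∑ ε : V → Bool, Real.sqrt (u + X ε) ≤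
      Real.sqrt u * (K + (1 / (2 * u)) * (∑ ε, X ε) - (1 / (8 * u ^ 2)) * (∑ ε, X ε ^ 2) +
        (1 / (16 * u ^ 3)) * (∑ ε, X ε ^ 3) + (1 / u ^ 4) * (∑ ε, X ε ^ 4)) := by
    refine (Finset.sum_le_sum fun ε _ => hpt ε).trans_eq ?_
    rw [← Finset.mul_sum]
    congr 1
    rw [Finset.sum_add_distrib, Finset.sum_add_distrib, Finset.sum_sub_distrib,
      Finset.sum_add_distrib, ← Finset.mul_sum, ← Finset.mul_sum, ← Finset.mul_sum,
      ← Finset.mul_sum, Finset.sum_const, Finset.card_univ, nsmul_eq_mul, mul_one]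
  rw [h1, h2, h3] at hsum
  refine hsum.trans ?_
  have hu2 : 0 < u ^ 2 := by positivity
  have hu4 : 0 < u ^ 4 := by positivity
  have hfour : (1 / u ^ 4) * (∑ ε, X ε ^ 4) ≤ (1 / u ^ 4) * (K * (5 * v ^ 2)) :=
    mul_le_mul_of_nonneg_left h4 (by positivity)
  have hkey : (1 / u ^ 4) * (5 * v ^ 2) ≤ v / (16 * u ^ 2) := by
    have e : v / (16 * u ^ 2) - (1 / u ^ 4) * (5 * v ^ 2) =
        v * (u ^ 2 / 16 - 5 * v) / u ^ 4 := by
      field_simp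
      try ring
    have : 0 ≤ v * (u ^ 2 / 16 - 5 * v) / u ^ 4 := by
      refine div_nonneg (mul_nonneg hv0 ?_) hu4.le
      nlinarith
    linarith
  have hkey2 : (1 / u ^ 4) * (K * (5 * v ^ 2)) ≤ K * (v / (16 * u ^ 2)) := by
    calc (1 / u ^ 4) * (K * (5 * v ^ 2)) = K * ((1 / u ^ 4) * (5 * v ^ 2)) := by ring
      _ ≤ K * (v / (16 * u ^ 2)) := mul_le_mul_of_nonneg_left hkey hK0
  have hgoal : K * (Real.sqrt u * (1 - v / (16 * u ^ 2))) =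
      Real.sqrt u * (K * (1 - v / (16 * u ^ 2))) := by ring
  rw [hgoal]
  refine mul_le_mul_of_nonneg_left ?_ hsu
  have e8 : (1 / (8 * u ^ 2)) * (K * v) = 2 * (K * (v / (16 * u ^ 2))) := by
    field_simp
    try ring
  have e9 : K * (1 - v / (16 * u ^ 2)) = K - K * (v / (16 * u ^ 2)) := by ring
  rw [e9, e8]
  linarith

end Pool.Agent.DBX
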