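import Mathlib
import Pool.Agent.Lib.DBX.Bad
import Pool.Agent.Lib.DBX.FarB
import Pool.Agent.Lib.DBX.Deg
import Pool.Agent.Lib.DBX.LLL
import Pool.Agent.Lib.DBX.SqrtAvg

/-!
# DBX.Avg: the average of `√(Re (h + G))` over the good signs

`L = LL n`, `u = (h z).re`, `τ = exp(-300 L)`, `c p = (gg p z).re` for `p ∈ near D s z`, `c p = 0`
otherwise, `f ε = √((1 + τ) u + ∑_p sg(ε p) c p)`, `K = card (VV s → Bool)`.
PROOFS.
* `le_f`: `(h z + GG univ ε z).re = u + Re GG_near + Re GG_far ≤ u + ∑ sg(ε p) c p + τ u`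
  (`GG_split`, `norm_GG_le`, `far_le` with `y = 0`, `min(u, T) = u`).
* `avg_all`: `sqrt_avg` with `u' = (1 + τ) u`. `v = ∑ c p² = ∑_{near} (gg p z).re²` satisfies
  `c0² u²/2500 ≤ v ≤ 2000 c0² u²` (`var_lower`, `var_upper` with `φ = 1`, `y = 0`), and
  `2000 c0² ≤ 1/100`. So `∑ f ≤ K √u' (1 - v/(16 u'²))`. As `(1 + τ)² ≤ 101/100`,
  `v/(16 u'²) ≥ c0²/40400`, and `√u' ≤ (1 + τ) √u`. Finally
  `(1 + τ)(1 - c0²/40400) ≤ 1 - c0²/45000` since `τ ≤ c0²/(2 * 10^6)`: indeed
  `c0²/(2 * 10^6) = 1/(4 * 10^19 L)` and `4 * 10^19 L exp(-300 L) ≤ 4 * 10^19 exp(-299 L) ≤ 1`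
  (`L ≥ 4`, `L ≤ exp L`, `exp(-1196)` is tiny: `exp 1 ≥ 2`, `2^66 ≥ 4 * 10^19`).
* `good_pos`, `avg_good`: `lll` with `V = VV s`, `J = {ζ // ζ ∈ s} × Fin 4`, `dom j = near D s j.1.1`,
  `p = exp(-100 L)`, `d = 2^(66 L + 2)` (`bad_dep`, `bad_card`, `deg_le`); `4 p d ≤ 1` and
  `2 p d ≤ c0²/10^6` as `d = 4 * 2^(66 L) ≤ 4 exp(46.2 L)` (`two_pow_le_exp`), so
  `2 p d ≤ 8 exp(-53.8 L)`. `f` depends on `F = near D s z`, `f ≥ 0`. Hence
  `(1 - 2 p d) K ∑_{good} f ≤ (∑ f) #good ≤ K √u (1 - c0²/45000) #good`, and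
  `1 - c0²/45000 ≤ (1 - c0²/50000)(1 - 2 p d)` because `2 p d ≤ c0²/10^6 ≤ c0²/45000 - c0²/50000`
  (`= c0²/450000`). Divide by `(1 - 2 p d) K > 0`; `thet n = c0²/50000` (`thet_eq`).
-/

set_option autoImplicit false

namespace Pool.Agent.DBX

open MeasureTheory Metric Complex Real Pool.Agent.MPdb50ff

open scoped InnerProductSpace ComplexConjugate

variable {n D : ℕ} {h : Cn n → ℂ} {T : ℝ} {s : Finset (Cn n)} {b : Cn n → ℝ}


private theorem tau_le {n : ℕ} (hn : 2 ≤ n) :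
    Real.exp (-(300 * (LL n : ℝ))) ≤ c0 n ^ 2 / (2 * 10 ^ 6) := by
  have hL4 : (4 : ℝ) ≤ (LL n : ℝ) := by exact_mod_cast four_le_LL hn
  have hL0 : (0 : ℝ) < (LL n : ℝ) := by linarith
  rw [c0_sq hn, Real.exp_neg]
  have h1 : (LL n : ℝ) ≤ Real.exp (LL n : ℝ) := by
    have := Real.add_one_le_exp (LL n : ℝ)
    linarith
  have h2 : (2 : ℝ) ^ 66 ≤ Real.exp (299 * (LL n : ℝ)) := by
    have h3 : (2 : ℝ) ≤ Real.exp 1 := by
      have := Real.add_one_le_exp (1 : ℝ)
      linarith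
    calc (2 : ℝ) ^ 66 ≤ (Real.exp 1) ^ 66 := pow_le_pow_left₀ (by norm_num) h3 66
      _ = Real.exp 66 := by
          rw [← Real.exp_nat_mul]
          norm_num
      _ ≤ Real.exp (299 * (LL n : ℝ)) := Real.exp_le_exp.2 (by linarith)
  have h4 : 4 * 10 ^ 19 * (LL n : ℝ) ≤ Real.exp (300 * (LL n : ℝ)) := by
    have e : Real.exp (300 * (LL n : ℝ)) = Real.exp (299 * (LL n : ℝ)) * Real.exp (LL n : ℝ) := by
      rw [← Real.exp_add]
      ring_nf
    rw [e]
    have h5 : (4 * 10 ^ 19 : ℝ) ≤ Real.exp (299 * (LL n : ℝ)) := by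
      refine le_trans ?_ h2
      norm_num
    exact mul_le_mul h5 h1 hL0.le (Real.exp_pos _).le
  rw [inv_eq_one_div, div_div]
  apply one_div_le_one_div_of_le
  · positivity
  · refine le_trans (le_of_eq ?_) h4
    ring

private theorem pd_le {n : ℕ} (hn : 2 ≤ n) :
    2 * Real.exp (-(100 * (LL n : ℝ))) * ((2 ^ (66 * LL n + 2) : ℕ) : ℝ) ≤ c0 n ^ 2 / 10 ^ 6 := by
  have hL4 : (4 : ℝ) ≤ (LL n : ℝ) := by exact_mod_cast four_le_LL hn
  have hL0 : (0 : ℝ) < (LL n : ℝ) := by linarith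
  have h1 : (LL n : ℝ) ≤ Real.exp (LL n : ℝ) := by
    have := Real.add_one_le_exp (LL n : ℝ)
    linarith
  have h2 : (2 : ℝ) ^ 68 ≤ Real.exp (52 * (LL n : ℝ)) := by
    have h3 : (2 : ℝ) ≤ Real.exp 1 := by
      have := Real.add_one_le_exp (1 : ℝ)
      linarith
    calc (2 : ℝ) ^ 68 ≤ (Real.exp 1) ^ 68 := pow_le_pow_left₀ (by norm_num) h3 68
      _ = Real.exp 68 := by
          rw [← Real.exp_nat_mul]
          norm_num
      _ ≤ Real.exp (52 * (LL n : ℝ)) := Real.exp_le_exp.2 (by linarith)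
  have h4 := two_pow_le_exp 66 (LL n)
  have h5 : ((2 ^ (66 * LL n + 2) : ℕ) : ℝ) ≤ 4 * Real.exp (7 / 10 * (66 * (LL n : ℝ))) := by
    push_cast
    rw [pow_add]
    push_cast at h4
    linarith
  have h6 : Real.exp (-(100 * (LL n : ℝ))) * Real.exp (7 / 10 * (66 * (LL n : ℝ))) ≤
      Real.exp (-(53 * (LL n : ℝ))) := by
    rw [← Real.exp_add]
    apply Real.exp_le_exp.2
    linarith
  have h7 : 2 * Real.exp (-(100 * (LL n : ℝ))) * ((2 ^ (66 * LL n + 2) : ℕ) : ℝ) ≤
      8 * Real.exp (-(53 * (LL n : ℝ))) := by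
    have := mul_le_mul_of_nonneg_left h5
      (show 0 ≤ 2 * Real.exp (-(100 * (LL n : ℝ))) by positivity)
    nlinarith [h6, this]
  refine h7.trans ?_
  rw [c0_sq hn]
  have h8 : 16 * 10 ^ 19 * (LL n : ℝ) ≤ Real.exp (53 * (LL n : ℝ)) := by
    have e : Real.exp (53 * (LL n : ℝ)) = Real.exp (52 * (LL n : ℝ)) * Real.exp (LL n : ℝ) := by
      rw [← Real.exp_add]
      ring_nf
    rw [e]
    have h5 : (16 * 10 ^ 19 : ℝ) ≤ Real.exp (52 * (LL n : ℝ)) := by
      refine le_trans ?_ h2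
      norm_num
    exact mul_le_mul h5 h1 hL0.le (Real.exp_pos _).le
  rw [Real.exp_neg, div_div, ← div_eq_mul_inv, div_le_div_iff₀ (Real.exp_pos _) (by positivity)]
  linarith

open scoped Classical in
private theorem sum_c_sq (z : Cn n) :
    ∑ p : VV s, (if p ∈ near D s z then (gg n D h T s b p z).re else 0) ^ 2 =
      ∑ p ∈ near D s z, (gg n D h T s b p z).re ^ 2 := by
  have h1 : ∀ p : VV s, (if p ∈ near D s z then (gg n D h T s b p z).re else 0) ^ 2 =
      if p ∈ near D s z then (gg n D h T s b p z).re ^ 2 else 0 := by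
    intro p
    split_ifs
    · rfl
    · simp
  rw [Finset.sum_congr rfl (fun p _ => h1 p), ← Finset.sum_filter]
  congr 1
  ext p
  simp

private theorem min_eq_u {z : Cn n} (hT : (h z).re ≤ T) : min (h z).re T = (h z).re :=
  min_eq_left hT

open scoped Classical in
/-- The dominating function of the signs. -/
noncomputable def ff (n D : ℕ) (h : Cn n → ℂ) (T : ℝ) (s : Finset (Cn n)) (b : Cn n → ℝ)
    (z : Cn n) (ε : VV s → Bool) : ℝ :=
  Real.sqrt ((1 + Real.exp (-(300 * (LL n : ℝ)))) * (h z).re +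
    ∑ p, sg (ε p) * (if p ∈ near D s z then (gg n D h T s b p z).re else 0))

theorem le_f (hC : Ctx n D h T s b) {z : Cn n} (hz : ‖z‖ = 1) (hT : (h z).re ≤ T)
    (ε : VV s → Bool) :
    Real.sqrt ((h z + GG n D h T s b Finset.univ ε z).re) ≤ ff n D h T s b z ε := by
  classical
  unfold ff
  apply Real.sqrt_le_sqrt
  have hfar := far_le hC hz (zero_mem_Pz z (rr_pos hC.hn hC.hD))
  simp only [add_zero] at hfar
  rw [min_eq_u hT] at hfar
  have hB : (GG n D h T s b (far D s z) ε z).re ≤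
      Real.exp (-(300 * (LL n : ℝ))) * (h z).re :=
    ((Complex.re_le_norm _).trans (norm_GG_le _ ε z)).trans hfar
  have hA : (GG n D h T s b (near D s z) ε z).re =
      ∑ p ∈ near D s z, sg (ε p) * (gg n D h T s b p z).re := by
    unfold GG
    rw [Complex.re_sum]
    apply Finset.sum_congr rfl
    intro p _
    rw [Complex.re_ofReal_mul]
  have hS : ∀ p : VV s, sg (ε p) * (if p ∈ near D s z then (gg n D h T s b p z).re else 0) =
      if p ∈ near D s z then sg (ε p) * (gg n D h T s b p z).re else 0 := by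
    intro p
    split_ifs
    · rfl
    · simp
  have hF : (Finset.univ.filter fun p : VV s => p ∈ near D s z) = near D s z := by
    ext p
    simp
  rw [GG_split ε z z, Finset.sum_congr rfl (fun p _ => hS p), ← Finset.sum_filter, hF, ← hA]
  simp only [Complex.add_re]
  linarith

theorem avg_all (hC : Ctx n D h T s b) {z : Cn n} (hz : ‖z‖ = 1) (hT : (h z).re ≤ T) :
    ∑ ε : VV s → Bool, ff n D h T s b z ε ≤
      (Fintype.card (VV s → Bool) : ℝ) * (Real.sqrt (h z).re * (1 - c0 n ^ 2 / 45000)) := by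
  classical
  have hu : 0 < (h z).re := hC.unit_pos hz
  have hτ := tau_le hC.hn
  have hc0 := c0_le hC.hn
  have hc1 := c0_pos hC.hn
  have hτ0 : 0 < Real.exp (-(300 * (LL n : ℝ))) := Real.exp_pos _
  set τ := Real.exp (-(300 * (LL n : ℝ))) with hτd
  have hcc : c0 n ^ 2 ≤ 1 / 10 ^ 12 := by
    have := mul_le_mul hc0 hc0 hc1.le (by norm_num)
    nlinarith
  have hcc0 : 0 < c0 n ^ 2 := by positivity
  set u := (h z).re with hud
  have hup := var_upper hC (φ := 1) (by simp) hz (zero_mem_Pz z (rr_pos hC.hn hC.hD))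
  simp only [add_zero, one_mul] at hup
  rw [min_eq_u hT, ← sum_c_sq] at hup
  have hlo := var_lower hC hz hT
  rw [← sum_c_sq] at hlo
  set v := ∑ p : VV s, (if p ∈ near D s z then (gg n D h T s b p z).re else 0) ^ 2 with hv
  have hu' : 0 < (1 + τ) * u := by positivity
  have huu : u ≤ (1 + τ) * u := by nlinarith
  have hsq : u ^ 2 ≤ ((1 + τ) * u) ^ 2 := pow_le_pow_left₀ hu.le huu 2
  have hu2 : 0 < u ^ 2 := by positivity
  have hv1 : v ≤ ((1 + τ) * u) ^ 2 / 100 := by
    have : 2000 * c0 n ^ 2 * u ^ 2 ≤ u ^ 2 / 100 := by nlinarith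
    linarith
  have key := sqrt_avg (fun p : VV s => if p ∈ near D s z then (gg n D h T s b p z).re else 0)
    hu' hv1
  refine (le_of_eq ?_).trans (key.trans ?_)
  · rfl
  · apply mul_le_mul_of_nonneg_left _ (Nat.cast_nonneg _)
    have hτ1 : τ ≤ 1 / 1000 := by
      refine hτ.trans ?_
      nlinarith
    have hs1 : Real.sqrt ((1 + τ) * u) ≤ (1 + τ) * Real.sqrt u := by
      rw [Real.sqrt_mul (by positivity)]
      apply mul_le_mul_of_nonneg_right _ (Real.sqrt_nonneg _)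
      rw [Real.sqrt_le_left (by positivity)]
      nlinarith
    have hq : c0 n ^ 2 / 40400 ≤ v / (16 * ((1 + τ) * u) ^ 2) := by
      rw [div_le_div_iff₀ (by norm_num) (by positivity)]
      have h1 : ((1 + τ) * u) ^ 2 ≤ 101 / 100 * u ^ 2 := by
        rw [mul_pow]
        apply mul_le_mul_of_nonneg_right _ hu2.le
        nlinarith
      have h2 : c0 n ^ 2 * (16 * ((1 + τ) * u) ^ 2) ≤ c0 n ^ 2 * (16 * (101 / 100 * u ^ 2)) := by
        apply mul_le_mul_of_nonneg_left _ hcc0.le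
        linarith
      refine h2.trans ?_
      nlinarith [hlo]
    have hs0 : 0 ≤ Real.sqrt ((1 + τ) * u) := Real.sqrt_nonneg _
    calc Real.sqrt ((1 + τ) * u) * (1 - v / (16 * ((1 + τ) * u) ^ 2))
        ≤ Real.sqrt ((1 + τ) * u) * (1 - c0 n ^ 2 / 40400) :=
          mul_le_mul_of_nonneg_left (by linarith) hs0
      _ ≤ ((1 + τ) * Real.sqrt u) * (1 - c0 n ^ 2 / 40400) := by
          apply mul_le_mul_of_nonneg_right hs1
          linarith
      _ = Real.sqrt u * ((1 + τ) * (1 - c0 n ^ 2 / 40400)) := by ring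
      _ ≤ Real.sqrt u * (1 - c0 n ^ 2 / 45000) := by
          apply mul_le_mul_of_nonneg_left _ (Real.sqrt_nonneg _)
          nlinarith [mul_pos hτ0 hcc0]

open scoped Classical in
/-- The good choices of signs. -/
noncomputable def good (n D : ℕ) (h : Cn n → ℂ) (T : ℝ) (s : Finset (Cn n)) (b : Cn n → ℝ) :
    Finset (VV s → Bool) :=
  (Finset.univ : Finset (VV s → Bool)).filter fun ε => ∀ j, ¬ bad n D h T s b j ε

private theorem Ctx.p_facts (hC : Ctx n D h T s b) :
    (0 : ℝ) ≤ Real.exp (-(100 * (LL n : ℝ))) ∧ 1 ≤ 2 ^ (66 * LL n + 2) ∧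
    4 * Real.exp (-(100 * (LL n : ℝ))) * ((2 ^ (66 * LL n + 2) : ℕ) : ℝ) ≤ 1 := by
  refine ⟨(Real.exp_pos _).le, Nat.one_le_two_pow, ?_⟩
  have h1 := pd_le hC.hn
  have hc0 := c0_le hC.hn
  have hc1 := c0_pos hC.hn
  have hcc : c0 n ^ 2 ≤ 1 / 10 ^ 12 := by
    have := mul_le_mul hc0 hc0 hc1.le (by norm_num)
    nlinarith
  nlinarith

theorem good_pos (hC : Ctx n D h T s b) : 0 < (good n D h T s b).card := by
  classical
  obtain ⟨hp0, hd1, hpd⟩ := hC.p_facts
  have key := lll (V := VV s) (J := {ζ // ζ ∈ s} × Fin 4) (fun j => near D s j.1.1)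
    (bad n D h T s b) (fun j => bad_dep j) (Real.exp (-(100 * (LL n : ℝ)))) (2 ^ (66 * LL n + 2))
    hp0 hd1 hpd ?_ ?_
  · refine lt_of_lt_of_eq key.1 ?_
    unfold good
    (congr <;> exact Subsingleton.elim _ _)
  · intro j
    refine le_trans (le_of_eq ?_) ((bad_card hC j).trans (le_of_eq ?_))
    · (congr <;> exact Subsingleton.elim _ _)
    · (congr <;> exact Subsingleton.elim _ _)
  · intro j
    refine le_trans (le_of_eq ?_) (deg_le hC (hC.frame.unit j.1.1 j.1.2))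
    (congr <;> exact Subsingleton.elim _ _)

theorem avg_good (hC : Ctx n D h T s b) {z : Cn n} (hz : ‖z‖ = 1) (hT : (h z).re ≤ T) :
    ∑ ε ∈ good n D h T s b, Real.sqrt ((h z + GG n D h T s b Finset.univ ε z).re) ≤
      ((good n D h T s b).card : ℝ) * (Real.sqrt (h z).re * (1 - thet n)) := by
  classical
  obtain ⟨hp0, hd1, hpd⟩ := hC.p_facts
  have key := lll (V := VV s) (J := {ζ // ζ ∈ s} × Fin 4) (fun j => near D s j.1.1)
    (bad n D h T s b) (fun j => bad_dep j) (Real.exp (-(100 * (LL n : ℝ)))) (2 ^ (66 * LL n + 2))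
    hp0 hd1 hpd ?_ ?_
  · have hdep : DepOn (near D s z) (ff n D h T s b z) := by
      intro ε ε' hε
      unfold ff
      congr 2
      apply Finset.sum_congr rfl
      intro p _
      split_ifs with hp
      · rw [hε p hp]
      · simp
    have k2 := key.2 (near D s z) (ff n D h T s b z) hdep (fun ε => Real.sqrt_nonneg _) ?_
    · have hg : (Finset.univ.filter fun ε : VV s → Bool =>
          ∀ j : {ζ // ζ ∈ s} × Fin 4, ¬ bad n D h T s b j ε) = good n D h T s b := by
        unfold good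
        (congr <;> exact Subsingleton.elim _ _)
      have k3 : (1 - 2 * Real.exp (-(100 * (LL n : ℝ))) * ((2 ^ (66 * LL n + 2) : ℕ) : ℝ)) *
          (Fintype.card (VV s → Bool) : ℝ) * ∑ ε ∈ good n D h T s b, ff n D h T s b z ε ≤
          (∑ ε : VV s → Bool, ff n D h T s b z ε) * ((good n D h T s b).card : ℝ) := by
        refine le_trans (le_of_eq ?_) (k2.trans (le_of_eq ?_))
        · rw [← hg]
          (congr <;> exact Subsingleton.elim _ _)
        · rw [← hg]
          (congr <;> exact Subsingleton.elim _ _)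
      have h1 : ∑ ε ∈ good n D h T s b, Real.sqrt ((h z + GG n D h T s b Finset.univ ε z).re) ≤
          ∑ ε ∈ good n D h T s b, ff n D h T s b z ε :=
        Finset.sum_le_sum fun ε _ => le_f hC hz hT ε
      refine h1.trans ?_
      have h2 := avg_all hC hz hT
      have hδ := pd_le hC.hn
      have hδ0 : 0 ≤ 2 * Real.exp (-(100 * (LL n : ℝ))) * ((2 ^ (66 * LL n + 2) : ℕ) : ℝ) := by
        positivity
      set δ := 2 * Real.exp (-(100 * (LL n : ℝ))) * ((2 ^ (66 * LL n + 2) : ℕ) : ℝ) with hδd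
      have hc0 := c0_le hC.hn
      have hc1 := c0_pos hC.hn
      have hcc : c0 n ^ 2 ≤ 1 / 10 ^ 12 := by
        have := mul_le_mul hc0 hc0 hc1.le (by norm_num)
        nlinarith
      have hcc0 : 0 < c0 n ^ 2 := by positivity
      have hK : 0 < (Fintype.card (VV s → Bool) : ℝ) := by
        exact_mod_cast Fintype.card_pos
      set K := (Fintype.card (VV s → Bool) : ℝ) with hKd
      set G := ((good n D h T s b).card : ℝ) with hGd
      have hG : 0 ≤ G := Nat.cast_nonneg _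
      set X := ∑ ε ∈ good n D h T s b, ff n D h T s b z ε with hX
      set A := ∑ ε : VV s → Bool, ff n D h T s b z ε with hA
      set R := Real.sqrt (h z).re with hR
      have hR0 : 0 ≤ R := Real.sqrt_nonneg _
      have h3 : A * G ≤ K * (R * (1 - c0 n ^ 2 / 45000)) * G :=
        mul_le_mul_of_nonneg_right h2 hG
      have h4 : K * ((1 - δ) * X) ≤ K * (R * (1 - c0 n ^ 2 / 45000) * G) := by nlinarith
      have h5 : (1 - δ) * X ≤ R * (1 - c0 n ^ 2 / 45000) * G := le_of_mul_le_mul_left h4 hK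
      have h6 : 1 - c0 n ^ 2 / 45000 ≤ (1 - δ) * (1 - thet n) := by
        rw [thet_eq hC.hn]
        nlinarith [mul_nonneg hδ0 hcc0.le]
      have h7 : R * (1 - c0 n ^ 2 / 45000) * G ≤ (1 - δ) * (G * (R * (1 - thet n))) := by
        have := mul_le_mul_of_nonneg_left h6 (mul_nonneg hR0 hG)
        nlinarith
      have h8 : 0 < 1 - δ := by nlinarith
      exact le_of_mul_le_mul_left (h5.trans h7) h8
    · refine le_trans (le_of_eq ?_) (deg_le hC hz)
      (congr <;> exact Subsingleton.elim _ _)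
  · intro j
    refine le_trans (le_of_eq ?_) ((bad_card hC j).trans (le_of_eq ?_))
    · (congr <;> exact Subsingleton.elim _ _)
    · (congr <;> exact Subsingleton.elim _ _)
  · intro j
    refine le_trans (le_of_eq ?_) (deg_le hC (hC.frame.unit j.1.1 j.1.2))
    (congr <;> exact Subsingleton.elim _ _)

end Pool.Agent.DBX
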