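import Mathlib
import Pool.Agent.Lib.DBX.Defs

/-!
# DBX.MaxP: the maximum principle

PROOF. `max_norm`: `Complex.norm_le_of_forall_mem_frontier_norm_le` for the bounded set `ball 0 R`
(`G` is continuous on the closed ball and differentiable in the open ball, `DiffContOnCl`, the
frontier is the sphere `‖z‖ = R`, the closure the closed ball; `Cn n` is nontrivial).
`max_re`: for a unimodular `φ` let `F = exp (φ G - h / 2)`. On the sphere
`‖F‖ = exp (Re (φ G) - Re h / 2) ≤ exp (‖G‖ - Re h / 2) ≤ 1`, so `‖F‖ ≤ 1` on the closed ball by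
`max_norm`, i.e. `Re (φ G(z)) ≤ Re h(z) / 2`. For given `z` choose `φ` with `φ G(z) = ‖G(z)‖`
(`φ = conj G(z) / ‖G(z)‖`, or `1` when `G(z) = 0`).
-/

set_option autoImplicit false

namespace Pool.Agent.DBX

open MeasureTheory Metric Complex Real Pool.Agent.MPdb50ff

theorem max_norm {n : ℕ} [NeZero n] {R T : ℝ} (hR : 0 < R) {G : Cn n → ℂ}
    (hd : DifferentiableOn ℂ G (ball 0 R)) (hc : ContinuousOn G (closedBall 0 R))
    (hb : ∀ z : Cn n, ‖z‖ = R → ‖G z‖ ≤ T) : ∀ z ∈ closedBall (0 : Cn n) R, ‖G z‖ ≤ T := by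
  have hcl : closure (ball (0 : Cn n) R) = closedBall 0 R := closure_ball _ hR.ne'
  have hdc : DiffContOnCl ℂ G (ball (0 : Cn n) R) := ⟨hd, by rw [hcl]; exact hc⟩
  intro z hz
  refine Complex.norm_le_of_forall_mem_frontier_norm_le (isBounded_ball) hdc ?_ (by rw [hcl]; exact hz)
  intro w hw
  rw [frontier_ball _ hR.ne'] at hw
  exact hb w (by simpa using hw)

theorem max_re {n : ℕ} [NeZero n] {R : ℝ} (hR : 0 < R) {G h : Cn n → ℂ}
    (hd : DifferentiableOn ℂ G (ball 0 R)) (hc : ContinuousOn G (closedBall 0 R))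
    (hhd : DifferentiableOn ℂ h (ball 0 R)) (hhc : ContinuousOn h (closedBall 0 R))
    (hb : ∀ z : Cn n, ‖z‖ = R → ‖G z‖ ≤ (h z).re / 2) :
    ∀ z ∈ closedBall (0 : Cn n) R, ‖G z‖ ≤ (h z).re / 2 := by
  have key : ∀ φ : ℂ, ‖φ‖ = 1 → ∀ z ∈ closedBall (0 : Cn n) R,
      (φ * G z).re ≤ (h z).re / 2 := by
    intro φ hφ z hz
    have h1 : ‖Complex.exp (φ * G z - h z / 2)‖ ≤ 1 := by
      refine max_norm (G := fun z => Complex.exp (φ * G z - h z / 2)) hR ?_ ?_ ?_ z hz
      · exact ((hd.const_mul φ).sub (by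
          simpa only [div_eq_mul_inv] using hhd.mul_const ((2 : ℂ)⁻¹))).cexp
      · exact Complex.continuous_exp.comp_continuousOn
          ((continuousOn_const.mul hc).sub (hhc.div_const (2 : ℂ)))
      · intro w hw
        rw [Complex.norm_exp, ← Real.exp_zero]
        apply Real.exp_le_exp.mpr
        have h2 : (φ * G w).re ≤ ‖G w‖ := by
          calc (φ * G w).re ≤ ‖φ * G w‖ := Complex.re_le_norm _
            _ = ‖G w‖ := by rw [norm_mul, hφ, one_mul]
        have h3 : (h w / 2).re = (h w).re / 2 := by simp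
        rw [Complex.sub_re, h3]
        have := hb w hw
        linarith
    rw [Complex.norm_exp, ← Real.exp_zero] at h1
    have h2 := Real.exp_le_exp.mp h1
    have h3 : (h z / 2).re = (h z).re / 2 := by simp
    rw [Complex.sub_re, h3] at h2
    linarith
  intro z hz
  by_cases hG : G z = 0
  · have := key 1 (by simp) z hz
    rw [hG] at this ⊢
    simpa using this
  · have hn : (‖G z‖ : ℂ) ≠ 0 := by
      exact_mod_cast (norm_ne_zero_iff.mpr hG)
    have h1 := key ((starRingEnd ℂ) (G z) / ‖G z‖) (by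
      rw [norm_div, Complex.norm_conj, Complex.norm_real, norm_norm]
      exact div_self (norm_ne_zero_iff.mpr hG)) z hz
    have h2 : (starRingEnd ℂ) (G z) / (‖G z‖ : ℂ) * G z = (‖G z‖ : ℂ) := by
      rw [div_mul_eq_mul_div, mul_comm, Complex.mul_conj, Complex.normSq_eq_norm_sq]
      rw [div_eq_iff hn]
      push_cast
      ring
    rw [h2] at h1
    simpa using h1

end Pool.Agent.DBX
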