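import Mathlib
import Pool.Agent.Lib.DBX.Bad
import Pool.Agent.Lib.DBX.FarB
import Pool.Agent.Lib.DBX.MaxP

/-!
# DBX.Bdry: a good choice of signs is small everywhere

`r = rr n D`, `u z = (h z).re`.
PROOF. `sphere_bound`: let `‖z‖ = 1 + r`, `w' = z / ‖z‖`, take `ζ ∈ s` with `ρ(ζ, w') ≤ r` (`frame.cov`),
`y = z - ζ`; by `sphere_near` (`z = (1 + r) • w'`), `|⟨ζ, y⟩| ≤ 2 r`, `|y| ≤ 2 √r`, so
`y ∈ Pz ζ r 3` (`mem_Pz_three`). `GG_split` at `z₀ = ζ`: the near part has modulus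
`≤ min(u ζ, T)/2000` (`not_bad`), the far part `≤ exp(-300 L) min(u z, T)` (`norm_GG_le`, `far_le`).
Now `u ζ ≤ 648 ‖base ζ z‖² u z ≤ 648 (101/100)² u z ≤ 662 u z` (`peakH`, `base_hi`), so
`‖G z‖ ≤ (662/2000) u z + exp(-300 L) u z ≤ u z / 2` and `‖G z‖ ≤ T/2000 + exp(-300 L) T ≤ T`
(`exp(-300 L) ≤ exp(-1) ≤ 1/2`; more precisely `exp(-300 L) ≤ 1/1201` from `x + 1 ≤ exp x`).
`ball_bound`: `max_re`, `max_norm` with `R = 1 + r < 1 + 1/N` (`GG_diff`, `diffN`).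
-/

set_option autoImplicit false

namespace Pool.Agent.DBX

open MeasureTheory Metric Complex Real Pool.Agent.MPdb50ff

open scoped InnerProductSpace ComplexConjugate

variable {n D : ℕ} {h : Cn n → ℂ} {T : ℝ} {s : Finset (Cn n)} {b : Cn n → ℝ}

theorem sphere_bound (hC : Ctx n D h T s b) {ε : VV s → Bool}
    (hε : ∀ j : {ζ // ζ ∈ s} × Fin 4, ¬ bad n D h T s b j ε) {z : Cn n}
    (hz : ‖z‖ = 1 + rr n D) :
    ‖GG n D h T s b Finset.univ ε z‖ ≤ (h z).re / 2 ∧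
      ‖GG n D h T s b Finset.univ ε z‖ ≤ T := by
  have hr : 0 < rr n D := rr_pos hC.hn hC.hD
  have hR : 0 < 1 + rr n D := by linarith
  have hRc : ((1 + rr n D : ℝ) : ℂ) ≠ 0 := by
    rw [Complex.ofReal_ne_zero]
    exact hR.ne'
  obtain ⟨w', hw'⟩ : ∃ w' : Cn n, w' = (((1 + rr n D : ℝ) : ℂ))⁻¹ • z := ⟨_, rfl⟩
  have hzw : ((1 + rr n D : ℝ) : ℂ) • w' = z := by
    rw [hw', smul_smul, mul_inv_cancel₀ hRc, one_smul]
  have hw1 : ‖w'‖ = 1 := by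
    rw [hw', norm_smul, norm_inv, Complex.norm_real, Real.norm_of_nonneg hR.le, hz,
      inv_mul_cancel₀ hR.ne']
  obtain ⟨ζ, hζs, hζ⟩ := hC.frame.cov w' hw1
  have hζ1 : ‖ζ‖ = 1 := hC.frame.unit ζ hζs
  obtain ⟨h1, h2⟩ := sphere_near hr (rr_le hC.hn hC.hD) hζ1 hw1 hζ
  rw [hzw] at h1 h2
  obtain ⟨y, hy⟩ : ∃ y : Cn n, y = z - ζ := ⟨_, rfl⟩
  rw [← hy] at h1 h2
  have hzy : z = ζ + y := by
    rw [hy]
    abel
  have hyP : y ∈ Pz ζ (rr n D) 3 := mem_Pz_three hr h1 h2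
  have hnear := not_bad hC ⟨ζ, hζs⟩ (fun k => hε (⟨ζ, hζs⟩, k)) h1 h2
  have hfar := far_le hC hζ1 hyP
  have hbase := hC.base_hi hζ1 hyP
  rw [← hzy] at hfar hbase
  change ‖GG n D h T s b (near D s ζ) ε (ζ + y)‖ ≤ min (h ζ).re T / 2000 at hnear
  rw [← hzy] at hnear
  have hz8 : ‖z‖ ≤ 1 + 8 * rr n D := by
    rw [hz]
    linarith
  have hpk := hC.peakH hζ1 hz8
  have huz := hC.uz_pos hz8
  have hsum : ‖GG n D h T s b Finset.univ ε z‖ ≤ min (h ζ).re T / 2000 +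
      Real.exp (-(300 * (LL n : ℝ))) * min (h z).re T := by
    rw [GG_split ε ζ z]
    exact (norm_add_le _ _).trans (add_le_add hnear ((norm_GG_le _ _ _).trans hfar))
  have hE : Real.exp (-(300 * (LL n : ℝ))) ≤ 1 / 1201 := by
    have hL : (4 : ℝ) ≤ (LL n : ℝ) := by
      exact_mod_cast four_le_LL hC.hn
    have h3 := Real.add_one_le_exp (300 * (LL n : ℝ))
    rw [Real.exp_neg, ← one_div]
    exact one_div_le_one_div_of_le (by norm_num) (by linarith)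
  have hE0 : 0 ≤ Real.exp (-(300 * (LL n : ℝ))) := (Real.exp_pos _).le
  have hb2 : ‖base (2 * D) ζ z‖ ^ 2 ≤ (101 / 100) ^ 2 :=
    pow_le_pow_left₀ (norm_nonneg _) hbase 2
  have hu : (h ζ).re ≤ 662 * (h z).re := by
    refine hpk.trans (mul_le_mul_of_nonneg_right ?_ huz.le)
    linarith [hb2]
  have hT := hC.hT
  have m1 : min (h ζ).re T ≤ (h ζ).re := min_le_left _ _
  have m2 : min (h ζ).re T ≤ T := min_le_right _ _
  have m3 : min (h z).re T ≤ (h z).re := min_le_left _ _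
  have m4 : min (h z).re T ≤ T := min_le_right _ _
  have m0 : 0 ≤ min (h z).re T := (lt_min huz hT).le
  have hE1 : Real.exp (-(300 * (LL n : ℝ))) * min (h z).re T ≤ 1 / 1201 * min (h z).re T :=
    mul_le_mul_of_nonneg_right hE m0
  constructor
  · linarith
  · linarith

theorem ball_bound [NeZero n] (hC : Ctx n D h T s b) {ε : VV s → Bool}
    (hε : ∀ j : {ζ // ζ ∈ s} × Fin 4, ¬ bad n D h T s b j ε) :
    ∀ z ∈ closedBall (0 : Cn n) (1 + rr n D),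
      ‖GG n D h T s b Finset.univ ε z‖ ≤ (h z).re / 2 ∧
      ‖GG n D h T s b Finset.univ ε z‖ ≤ T := by
  have hr : 0 < rr n D := rr_pos hC.hn hC.hD
  have hR : 0 < 1 + rr n D := by linarith
  have h8 := eight_rr_le hC.hn hC.hD
  have hN : (0 : ℝ) < 1 / (2 * ((2 * D : ℕ) : ℝ)) := by linarith
  have h2 : 1 / ((2 * D : ℕ) : ℝ) = 2 * (1 / (2 * ((2 * D : ℕ) : ℝ))) := by
    rw [one_div, one_div, mul_inv]
    ring
  have hlt : 1 + rr n D < 1 + 1 / ((2 * D : ℕ) : ℝ) := by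
    rw [h2]
    linarith
  have hd := hC.GG_diff Finset.univ ε
  have hsub : closedBall (0 : Cn n) (1 + rr n D) ⊆ ball 0 (1 + 1 / ((2 * D : ℕ) : ℝ)) :=
    closedBall_subset_ball hlt
  have hsub' : ball (0 : Cn n) (1 + rr n D) ⊆ ball 0 (1 + 1 / ((2 * D : ℕ) : ℝ)) :=
    ball_subset_ball hlt.le
  intro z hz
  exact ⟨max_re hR (hd.mono hsub') (hd.continuousOn.mono hsub) (hC.diffN.mono hsub')
      (hC.diffN.continuousOn.mono hsub) (fun w hw => (sphere_bound hC hε hw).1) z hz,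
    max_norm hR (hd.mono hsub') (hd.continuousOn.mono hsub)
      (fun w hw => (sphere_bound hC hε hw).2) z hz⟩

end Pool.Agent.DBX
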