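import Mathlib
import Pool.Agent.Lib.DBX.Defs
import Pool.Agent.Lib.DBX.Count

/-!
# DBX.Net: a finite maximal separated set

PROOF. Call a finite set `s` of unit vectors admissible if `r < ρ(ζ, ζ')` for all distinct
`ζ, ζ' ∈ s`. Since `ρ ≤ 2` on unit vectors (`|1 - ⟨ζ, z⟩| ≤ 1 + |ζ| |z|`), `count_le` with `t = 2`
and any unit vector `z` bounds the cardinality of admissible sets by `K = ⌊(1 + 14/r)^(2n)⌋`. The
empty set is admissible. Take an admissible set `s` of maximal cardinality (`Nat.find` on the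
complement, or `Nat.findGreatest`, or `Set.Finite`/`exists_max` on the set of cardinalities).
If some unit `z` had `r < ρ(ζ, z)` for all `ζ ∈ s`, then `z ∉ s` (as `ρ(z, z) = 0 < r`) and
`insert z s` would be admissible (`ρ` is symmetric: `⟨w, z⟩ = conj ⟨z, w⟩`) and larger.
A unit vector exists since `n ≠ 0`.
-/

set_option autoImplicit false

namespace Pool.Agent.DBX

open MeasureTheory Metric Complex Real Pool.Agent.MPdb50ff

open scoped InnerProductSpace ComplexConjugate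

private theorem Net_rho_le {n : ℕ} {z w : Cn n} (hz : ‖z‖ = 1) (hw : ‖w‖ = 1) :
    rho z w ≤ 2 := by
  unfold rho
  have h1 : ‖(1 : ℂ) - ⟪z, w⟫_ℂ‖ ≤ ‖(1 : ℂ)‖ + ‖⟪z, w⟫_ℂ‖ := norm_sub_le _ _
  have h2 : ‖⟪z, w⟫_ℂ‖ ≤ ‖z‖ * ‖w‖ := norm_inner_le_norm z w
  rw [hz, hw] at h2
  rw [norm_one] at h1
  linarith

private theorem Net_rho_symm {n : ℕ} (z w : Cn n) : rho z w = rho w z := by
  unfold rho
  rw [← inner_conj_symm z w]
  have h : (1 : ℂ) - conj ⟪w, z⟫_ℂ = conj (1 - ⟪w, z⟫_ℂ) := by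
    rw [map_sub, map_one]
  rw [h, RCLike.norm_conj]

private theorem Net_rho_self {n : ℕ} {z : Cn n} (hz : ‖z‖ = 1) : rho z z = 0 := by
  unfold rho
  rw [inner_self_eq_norm_sq_to_K, hz]
  simp

private def Net_adm {n : ℕ} (r : ℝ) (s : Finset (Cn n)) : Prop :=
  (∀ ζ ∈ s, ‖ζ‖ = 1) ∧ (∀ ζ ∈ s, ∀ ζ' ∈ s, ζ ≠ ζ' → r < rho ζ ζ')

theorem exists_sep_net {n : ℕ} [NeZero n] {r : ℝ} (hr : 0 < r) :
    ∃ s : Finset (Cn n), (∀ ζ ∈ s, ‖ζ‖ = 1) ∧
      (∀ ζ ∈ s, ∀ ζ' ∈ s, ζ ≠ ζ' → r < rho ζ ζ') ∧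
      (∀ z : Cn n, ‖z‖ = 1 → ∃ ζ ∈ s, rho ζ z ≤ r) := by
  classical
  have : Nonempty (Fin n) := ⟨⟨0, Nat.pos_of_ne_zero (NeZero.ne n)⟩⟩
  have : Nontrivial (Cn n) := inferInstance
  obtain ⟨z0, hz0⟩ : ∃ z : Cn n, ‖z‖ = 1 := exists_norm_eq (Cn n) zero_le_one
  -- the bound
  set K : ℕ := ⌊(1 + 7 * 2 / r) ^ (2 * n)⌋₊ with hK
  have hbound : ∀ s : Finset (Cn n), Net_adm r s → s.card ≤ K := by
    intro s hs
    rw [hK]
    apply Nat.le_floor
    exact count_le s hr (by norm_num) hs.1 hs.2 hz0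
      (fun ζ hζ => Net_rho_le (hs.1 ζ hζ) hz0)
  let P : ℕ → Prop := fun k => ∃ s : Finset (Cn n), Net_adm r s ∧ s.card = k
  have hP0 : P 0 := ⟨∅, ⟨by simp, by simp⟩, by simp⟩
  obtain ⟨s, hs, hcard⟩ : P (Nat.findGreatest P K) := Nat.findGreatest_spec (Nat.zero_le K) hP0
  refine ⟨s, hs.1, hs.2, ?_⟩
  intro z hz
  by_contra hcon
  push Not at hcon
  have hzs : z ∉ s := by
    intro h
    have := hcon z h
    rw [Net_rho_self hz] at this
    linarith
  have hadm : Net_adm r (insert z s) := by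
    refine ⟨?_, ?_⟩
    · intro ζ hζ
      rcases Finset.mem_insert.1 hζ with h | h
      · rw [h]; exact hz
      · exact hs.1 ζ h
    · intro ζ hζ ζ' hζ' hne
      rcases Finset.mem_insert.1 hζ with h | h
      · rcases Finset.mem_insert.1 hζ' with h' | h'
        · exact absurd (h.trans h'.symm) hne
        · rw [h, Net_rho_symm]; exact hcon ζ' h'
      · rcases Finset.mem_insert.1 hζ' with h' | h'
        · rw [h']; exact hcon ζ h
        · exact hs.2 ζ h ζ' h' hne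
  have hc1 : (insert z s).card = s.card + 1 := Finset.card_insert_of_notMem hzs
  have h1 : P (s.card + 1) := ⟨insert z s, hadm, hc1⟩
  have h2 : s.card + 1 ≤ K := by rw [← hc1]; exact hbound _ hadm
  have h3 : s.card + 1 ≤ Nat.findGreatest P K := Nat.le_findGreatest h2 h1
  omega

end Pool.Agent.DBX
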