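import Mathlib
import Pool.Agent.Lib.DBX.RhoB

/-!
# DBX.Quad: weights on a covering set

PROOF. Enumerate `s` (e.g. by `s.equivFin`, or use `Finset.induction`/a linear order); the sets
`A_i = {z ∈ S : ρ(ζ_i, z) ≤ r, ρ(ζ_j, z) > r for all j < i}` (`i : Fin s.card`) are measurable
(`ρ(ζ, ·)` is continuous), pairwise disjoint, and cover the sphere by `hcov`. Put
`w(ζ_i) = σ(A_i)` (and `w = 0` off `s`). Clearly `0 ≤ w(ζ_i) ≤ σ{z : ρ(ζ_i, z) ≤ r}`.
For `F` continuous and non-negative on the sphere (hence integrable, the sphere being compact and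
`σ` finite, `sigma_prob`), `∫ F dσ = ∑_i ∫_{A_i} F dσ`. On `A_i`, `F(ζ_i) ≤ κ F(z)`; integrating,
`σ(A_i) F(ζ_i) ≤ κ ∫_{A_i} F`, and the sum over `i` gives the first inequality; the second is the
same with the roles exchanged (`∫_{A_i} F ≤ κ F(ζ_i) σ(A_i)`).
-/

/-!
# DBX.Quad: weights on a covering set

PROOF. Enumerate `s` (e.g. by `s.equivFin`, or use `Finset.induction`/a linear order); the sets
`A_i = {z ∈ S : ρ(ζ_i, z) ≤ r, ρ(ζ_j, z) > r for all j < i}` (`i : Fin s.card`) are measurable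
(`ρ(ζ, ·)` is continuous), pairwise disjoint, and cover the sphere by `hcov`. Put
`w(ζ_i) = σ(A_i)` (and `w = 0` off `s`). Clearly `0 ≤ w(ζ_i) ≤ σ{z : ρ(ζ_i, z) ≤ r}`.
For `F` continuous and non-negative on the sphere (hence integrable, the sphere being compact and
`σ` finite, `sigma_prob`), `∫ F dσ = ∑_i ∫_{A_i} F dσ`. On `A_i`, `F(ζ_i) ≤ κ F(z)`; integrating,
`σ(A_i) F(ζ_i) ≤ κ ∫_{A_i} F`, and the sum over `i` gives the first inequality; the second is the
same with the roles exchanged (`∫_{A_i} F ≤ κ F(ζ_i) σ(A_i)`).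
-/

set_option autoImplicit false

namespace Pool.Agent.DBX

open MeasureTheory Metric Complex Real Pool.Agent.MPdb50ff

open scoped InnerProductSpace ComplexConjugate

private def quad_A {n : ℕ} (r : ℝ) (s : Finset (Cn n)) (ζ : s) : Set (sphere (0 : Cn n) 1) :=
  {z | rho (ζ : Cn n) z ≤ r} ∩ ⋂ ζ' : s, {z | s.equivFin ζ' < s.equivFin ζ → r < rho (ζ' : Cn n) z}

private theorem quad_cont {n : ℕ} (ζ : Cn n) :
    Continuous (fun z : sphere (0 : Cn n) 1 => rho ζ z) := by
  unfold rho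
  fun_prop

private theorem quad_meas {n : ℕ} (r : ℝ) (s : Finset (Cn n)) (ζ : s) :
    MeasurableSet (quad_A r s ζ) := by
  refine (isClosed_le (quad_cont _) continuous_const).measurableSet.inter
    (MeasurableSet.iInter fun ζ' => ?_)
  by_cases h : s.equivFin ζ' < s.equivFin ζ
  · simp only [h, true_implies]
    exact (isOpen_lt continuous_const (quad_cont _)).measurableSet
  · simp only [h, false_implies]
    exact MeasurableSet.univ

private theorem quad_disj {n : ℕ} (r : ℝ) (s : Finset (Cn n)) :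
    Pairwise (Function.onFun Disjoint (quad_A r s)) := by
  intro ζ ζ' hne
  rw [Function.onFun, Set.disjoint_left]
  rintro z ⟨h1, h2⟩ ⟨h3, h4⟩
  rw [Set.mem_iInter] at h2 h4
  rcases lt_trichotomy (s.equivFin ζ) (s.equivFin ζ') with h | h | h
  · exact absurd h1 (not_le.2 (h4 ζ h))
  · exact hne (s.equivFin.injective h)
  · exact absurd h3 (not_le.2 (h2 ζ' h))

private theorem quad_cover {n : ℕ} {r : ℝ} (s : Finset (Cn n))
    (hcov : ∀ z : Cn n, ‖z‖ = 1 → ∃ ζ ∈ s, rho ζ z ≤ r) :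
    (⋃ ζ : s, quad_A r s ζ) = Set.univ := by
  rw [Set.eq_univ_iff_forall]
  intro z
  obtain ⟨ζ, hζ, hr⟩ := hcov z (by simp)
  classical
  have hne : (Finset.univ.filter fun ζ : s => rho (ζ : Cn n) z ≤ r).Nonempty :=
    ⟨⟨ζ, hζ⟩, by simpa using hr⟩
  obtain ⟨a, ha, hmin⟩ := Finset.exists_min_image _ (fun ζ : s => s.equivFin ζ) hne
  rw [Set.mem_iUnion]
  refine ⟨a, (Finset.mem_filter.1 ha).2, ?_⟩
  rw [Set.mem_iInter]
  intro b hb
  by_contra hcon
  exact absurd hb (not_lt.2 (hmin b (Finset.mem_filter.2 ⟨Finset.mem_univ _, not_lt.1 hcon⟩)))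

theorem exists_weights {n : ℕ} [NeZero n] {r : ℝ} (s : Finset (Cn n))
    (hcov : ∀ z : Cn n, ‖z‖ = 1 → ∃ ζ ∈ s, rho ζ z ≤ r) :
    ∃ w : Cn n → ℝ, (∀ ζ ∈ s, 0 ≤ w ζ) ∧
      (∀ ζ ∈ s, w ζ ≤ (sigma n).real {z : sphere (0 : Cn n) 1 | rho ζ z ≤ r}) ∧
      ∀ F : Cn n → ℝ, Continuous (fun z : sphere (0 : Cn n) 1 => F z) →
        ∀ κ : ℝ, 0 ≤ κ →
        ((∀ ζ ∈ s, ∀ z : Cn n, ‖z‖ = 1 → rho ζ z ≤ r → F ζ ≤ κ * F z) →
          ∑ ζ ∈ s, w ζ * F ζ ≤ κ * ∫ z : sphere (0 : Cn n) 1, F z ∂(sigma n)) ∧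
        ((∀ ζ ∈ s, ∀ z : Cn n, ‖z‖ = 1 → rho ζ z ≤ r → F z ≤ κ * F ζ) →
          ∫ z : sphere (0 : Cn n) 1, F z ∂(sigma n) ≤ κ * ∑ ζ ∈ s, w ζ * F ζ) := by
  classical
  refine ⟨fun ζ => if h : ζ ∈ s then (sigma n).real (quad_A r s ⟨ζ, h⟩) else 0, ?_, ?_, ?_⟩
  · intro ζ hζ
    simp only [hζ, dite_true]
    exact measureReal_nonneg
  · intro ζ hζ
    simp only [hζ, dite_true]
    exact measureReal_mono Set.inter_subset_left
  · intro F hF κ _
    have hint : Integrable (fun z : sphere (0 : Cn n) 1 => F z) (sigma n) :=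
      hF.integrable_of_hasCompactSupport (HasCompactSupport.of_compactSpace _)
    have hsum : ∑ ζ ∈ s, (if h : ζ ∈ s then (sigma n).real (quad_A r s ⟨ζ, h⟩) else 0) * F ζ =
        ∑ ζ : s, (sigma n).real (quad_A r s ζ) * F ζ := by
      rw [← Finset.sum_coe_sort]
      refine Finset.sum_congr rfl fun ζ _ => ?_
      rw [dif_pos ζ.2]
    have hdec : ∫ z : sphere (0 : Cn n) 1, F z ∂(sigma n) =
        ∑ ζ : s, ∫ z in quad_A r s ζ, F z ∂(sigma n) := by
      rw [← integral_iUnion_fintype (quad_meas r s) (quad_disj r s)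
        (fun ζ => hint.integrableOn), quad_cover s hcov, Measure.restrict_univ]
    have hconst : ∀ ζ : s, (sigma n).real (quad_A r s ζ) * F ζ =
        ∫ _ in quad_A r s ζ, F ζ ∂(sigma n) := by
      intro ζ
      rw [setIntegral_const, smul_eq_mul]
    rw [hsum, hdec]
    constructor
    · intro h
      rw [Finset.mul_sum]
      refine Finset.sum_le_sum fun ζ _ => ?_
      rw [hconst, ← integral_const_mul]
      refine setIntegral_mono_on (integrable_const _).integrableOn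
        (hint.const_mul κ).integrableOn (quad_meas r s ζ) ?_
      intro z hz
      exact h ζ ζ.2 z (by simp) hz.1
    · intro h
      rw [Finset.mul_sum]
      refine Finset.sum_le_sum fun ζ _ => ?_
      rw [hconst, ← integral_const_mul]
      refine setIntegral_mono_on hint.integrableOn
        (integrable_const _).integrableOn (quad_meas r s ζ) ?_
      intro z hz
      exact h ζ ζ.2 z (by simp) hz.1

end Pool.Agent.DBX
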