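import Mathlib
import Pool.Agent.Lib.DBX.Quad
import Pool.Agent.Lib.DBX.Net

/-!
# DBX.Frame: existence of frames

PROOF. Let `r = 1 / (10^6 q² N)`, so `√(N r) = 1/(1000 q) ≤ 1/100`... (precisely
`√(N r) = 1/(1000 q) ≤ 1/1000`). Take the net `s` of `exists_sep_net` and the weights `w` of
`exists_weights`. For unit `z` let `F_z(ζ) = (|base N ζ z|^(2q))⁻¹`, continuous in `ζ` on the sphere
(`base_ge_one`: the base does not vanish). Let `I(z) = ∫ F_z(ζ) dσ(ζ)`.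
* `I(z)` does not depend on the unit vector `z`: for a unitary `U` one has
  `base N (U ζ) (U z) = base N ζ z`, so `I(U z) = I(z)` (`sigma_integral_map`), and the unitary
  group is transitive (`exists_unitary`). Write `I`.
* If `ρ(ζ, ζ') ≤ r` then `F_z(ζ) ≤ (101/100) F_z(ζ')` and conversely: `base_pert` and `pow_cmp` with
  `p = 2q` (`3/2 ≤ 16/5`).
* `w ζ ≤ (101/100) I` for `ζ ∈ s`: for unit `z'` with `ρ(ζ, z') ≤ r` one has (same two lemmas,
  `base N ζ ζ = 1`) `1 ≤ (101/100) F_ζ(z')`, so integrating over `{z' : ρ(ζ, z') ≤ r}` (`F ≥ 0`)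
  `σ{z' : ρ(ζ, z') ≤ r} ≤ (101/100) I(ζ)`.
* `I > 0`: by continuity and positivity of `F_z` on the sphere (`σ` is a probability measure).
Put `b ζ = w ζ / I`. Then `0 ≤ b ≤ 101/100 ≤ 11/10`, and `exists_weights` with `κ = 101/100`,
`F = F_z` gives `(100/101) ≤ ∑ b ζ F_z(ζ) ≤ 101/100`.
-/

set_option autoImplicit false

namespace Pool.Agent.DBX

open MeasureTheory Metric Complex Real Pool.Agent.MPdb50ff

open scoped InnerProductSpace ComplexConjugate

/-- the function which is averaged -/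
private noncomputable def frame_G {n : ℕ} (N q : ℕ) (z ζ : Cn n) : ℝ :=
  (‖base N ζ z‖ ^ (2 * q))⁻¹

private theorem frame_cont {n : ℕ} (N q : ℕ) {z : Cn n} (hz : ‖z‖ = 1) :
    Continuous (fun ζ : sphere (0 : Cn n) 1 => frame_G N q z (ζ : Cn n)) := by
  have hb : Continuous (fun ζ : sphere (0 : Cn n) 1 => base N (ζ : Cn n) z) := by
    unfold base
    exact continuous_const.add (continuous_const.mul
      (continuous_const.sub (continuous_subtype_val.inner continuous_const)))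
  refine Continuous.inv₀ (hb.norm.pow (2 * q)) (fun ζ => ?_)
  have h1 := base_ge_one N (norm_eq_of_mem_sphere ζ) hz
  have h2 : 0 < ‖base N (ζ : Cn n) z‖ := by linarith
  exact (pow_pos h2 _).ne'

private theorem frame_int {n : ℕ} [NeZero n] (N q : ℕ) {z : Cn n} (hz : ‖z‖ = 1) :
    Integrable (fun ζ : sphere (0 : Cn n) 1 => frame_G N q z (ζ : Cn n)) (sigma n) := by
  refine (frame_cont N q hz).integrable_of_hasCompactSupport ?_
  exact HasCompactSupport.of_compactSpace _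

private theorem frame_inv {n : ℕ} [NeZero n] (N q : ℕ) {z z' : Cn n} (hz : ‖z‖ = 1)
    (hz' : ‖z'‖ = 1) :
    ∫ ζ : sphere (0 : Cn n) 1, frame_G N q z (ζ : Cn n) ∂(sigma n) =
      ∫ ζ : sphere (0 : Cn n) 1, frame_G N q z' (ζ : Cn n) ∂(sigma n) := by
  obtain ⟨U, hU⟩ := exists_unitary hz hz'
  rw [← sigma_integral_map U (fun ζ : sphere (0 : Cn n) 1 => frame_G N q z' (ζ : Cn n))]
  refine integral_congr_ae (Filter.Eventually.of_forall fun ζ => ?_)
  have h1 : ((sphMap U ζ : sphere (0 : Cn n) 1) : Cn n) = U (ζ : Cn n) := rfl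
  change frame_G N q z (ζ : Cn n) = frame_G N q z' ((sphMap U ζ : sphere (0 : Cn n) 1) : Cn n)
  rw [h1, ← hU]
  unfold frame_G base
  rw [LinearIsometryEquiv.inner_map_map]

private theorem frame_pos {n : ℕ} [NeZero n] (N q : ℕ) {z : Cn n} (hz : ‖z‖ = 1) :
    0 < ∫ ζ : sphere (0 : Cn n) 1, frame_G N q z (ζ : Cn n) ∂(sigma n) := by
  have hc : 0 < ((1 + (N : ℝ) * 2) ^ (2 * q))⁻¹ := by positivity
  have h1 : ∫ _ζ : sphere (0 : Cn n) 1, ((1 + (N : ℝ) * 2) ^ (2 * q))⁻¹ ∂(sigma n) ≤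
      ∫ ζ : sphere (0 : Cn n) 1, frame_G N q z (ζ : Cn n) ∂(sigma n) := by
    refine integral_mono (integrable_const _) (frame_int N q hz) (fun ζ => ?_)
    have h2 := base_ge_one N (norm_eq_of_mem_sphere ζ) hz
    have h3 := base_le N (ζ : Cn n) z
    have h4 := rho_le_two (norm_eq_of_mem_sphere ζ) hz
    have h5 : ‖base N (ζ : Cn n) z‖ ≤ 1 + (N : ℝ) * 2 := by
      have : (N : ℝ) * rho (ζ : Cn n) z ≤ (N : ℝ) * 2 :=
        mul_le_mul_of_nonneg_left h4 (Nat.cast_nonneg N)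
      linarith
    exact inv_anti₀ (pow_pos (by linarith) _) (pow_le_pow_left₀ (by linarith) h5 _)
  rw [integral_const, probReal_univ, one_smul] at h1
  linarith

private theorem frame_sqrt {N q : ℕ} (hN : 1 ≤ N) (hq : 1 ≤ q) :
    Real.sqrt (N * (1 / (10 ^ 6 * (q : ℝ) ^ 2 * N))) = 1 / (1000 * (q : ℝ)) := by
  have hN' : (0 : ℝ) < N := by exact_mod_cast hN
  have hq' : (0 : ℝ) < q := by exact_mod_cast hq
  have h : (N : ℝ) * (1 / (10 ^ 6 * (q : ℝ) ^ 2 * N)) = (1 / (1000 * (q : ℝ))) ^ 2 := by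
    field_simp
    norm_num
  rw [h, Real.sqrt_sq (by positivity)]

private theorem frame_cmp {n : ℕ} {N q : ℕ} (hN : 1 ≤ N) (hq : 1 ≤ q) {z ζ ζ' : Cn n}
    (hz : ‖z‖ = 1) (hζ : ‖ζ‖ = 1) (hζ' : ‖ζ'‖ = 1)
    (h : rho ζ ζ' ≤ 1 / (10 ^ 6 * (q : ℝ) ^ 2 * N)) :
    frame_G N q z ζ' ≤ 101 / 100 * frame_G N q z ζ ∧
      frame_G N q z ζ ≤ 101 / 100 * frame_G N q z ζ' := by
  have hN' : (0 : ℝ) < N := by exact_mod_cast hN
  have hq' : (1 : ℝ) ≤ q := by exact_mod_cast hq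
  have hs := frame_sqrt hN hq
  have hs1 : 1 / (1000 * (q : ℝ)) ≤ 1 / 100 := by
    rw [div_le_div_iff₀ (by linarith) (by norm_num)]
    linarith
  have hp := base_pert N (r := 1 / (10 ^ 6 * (q : ℝ) ^ 2 * N)) (by positivity)
    (by rw [hs]; exact hs1) hζ hζ' hz h
  rw [hs] at hp
  have h1 := base_ge_one N hζ hz
  have hB : base N ζ z ≠ 0 := by
    intro h0
    rw [h0, norm_zero] at h1
    linarith
  refine pow_cmp hq le_rfl hB (hp.trans ?_)
  refine mul_le_mul_of_nonneg_right ?_ (norm_nonneg _)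
  have : 0 ≤ 1 / (1000 * (q : ℝ)) := by positivity
  linarith

theorem exists_frame (n : ℕ) [NeZero n] (N q : ℕ) (hN : 1 ≤ N) (hq : 1 ≤ q) :
    ∃ (s : Finset (Cn n)) (b : Cn n → ℝ),
      IsFrame n N q (1 / (10 ^ 6 * (q : ℝ) ^ 2 * N)) s b := by
  classical
  have hN' : (0 : ℝ) < N := by exact_mod_cast hN
  have hq' : (0 : ℝ) < q := by exact_mod_cast hq
  have hr : (0 : ℝ) < 1 / (10 ^ 6 * (q : ℝ) ^ 2 * N) := by positivity
  obtain ⟨s, hs1, hs2, hs3⟩ := exists_sep_net (n := n) hr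
  obtain ⟨w, hw0, hw1, hw2⟩ := exists_weights s hs3
  obtain ⟨z0, hz0⟩ : ∃ z0 : Cn n, ‖z0‖ = 1 :=
    ⟨EuclideanSpace.single 0 1, by rw [PiLp.norm_single, norm_one]⟩
  set I : ℝ := ∫ ζ : sphere (0 : Cn n) 1, frame_G N q z0 (ζ : Cn n) ∂(sigma n) with hI
  have hIpos : 0 < I := frame_pos N q hz0
  have hIz : ∀ z : Cn n, ‖z‖ = 1 →
      ∫ ζ : sphere (0 : Cn n) 1, frame_G N q z (ζ : Cn n) ∂(sigma n) = I :=
    fun z hz => frame_inv N q hz hz0
  have hG0 : ∀ z ζ : Cn n, 0 ≤ frame_G N q z ζ := fun z ζ => by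
    unfold frame_G
    positivity
  have hwI : ∀ ζ ∈ s, w ζ ≤ 101 / 100 * I := by
    intro ζ hζ
    refine (hw1 ζ hζ).trans ?_
    have hζ1 := hs1 ζ hζ
    have hcont : Continuous (fun z : sphere (0 : Cn n) 1 => rho ζ (z : Cn n)) := by
      unfold rho
      exact (continuous_const.sub (continuous_const.inner continuous_subtype_val)).norm
    have hm : MeasurableSet {z : sphere (0 : Cn n) 1 |
        rho ζ (z : Cn n) ≤ 1 / (10 ^ 6 * (q : ℝ) ^ 2 * N)} :=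
      measurableSet_le hcont.measurable measurable_const
    have h1 : (sigma n).real {z : sphere (0 : Cn n) 1 |
        rho ζ (z : Cn n) ≤ 1 / (10 ^ 6 * (q : ℝ) ^ 2 * N)} =
        ∫ z : sphere (0 : Cn n) 1, {z : sphere (0 : Cn n) 1 |
        rho ζ (z : Cn n) ≤ 1 / (10 ^ 6 * (q : ℝ) ^ 2 * N)}.indicator (fun _ => (1 : ℝ)) z
          ∂(sigma n) := by
      rw [integral_indicator_const _ hm, smul_eq_mul, mul_one]
    rw [h1, ← hIz ζ hζ1, ← integral_const_mul]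
    refine integral_mono ((integrable_const _).indicator hm)
      ((frame_int N q hζ1).const_mul _) (fun z => ?_)
    by_cases hz : rho ζ (z : Cn n) ≤ 1 / (10 ^ 6 * (q : ℝ) ^ 2 * N)
    · have h2 : {z : sphere (0 : Cn n) 1 |
        rho ζ (z : Cn n) ≤ 1 / (10 ^ 6 * (q : ℝ) ^ 2 * N)}.indicator (fun _ => (1 : ℝ)) z = 1 :=
        Set.indicator_of_mem (s := {z : sphere (0 : Cn n) 1 |
        rho ζ (z : Cn n) ≤ 1 / (10 ^ 6 * (q : ℝ) ^ 2 * N)}) hz _
      have h3 := (frame_cmp hN hq hζ1 hζ1 (norm_eq_of_mem_sphere z) hz).2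
      have h4 : frame_G N q ζ ζ = 1 := by
        unfold frame_G base
        rw [inner_self_eq_norm_sq_to_K, hζ1]
        simp
      rw [h4] at h3
      change {z : sphere (0 : Cn n) 1 |
        rho ζ (z : Cn n) ≤ 1 / (10 ^ 6 * (q : ℝ) ^ 2 * N)}.indicator (fun _ => (1 : ℝ)) z ≤
        101 / 100 * frame_G N q ζ (z : Cn n)
      rw [h2]
      exact h3
    · have h2 : {z : sphere (0 : Cn n) 1 |
        rho ζ (z : Cn n) ≤ 1 / (10 ^ 6 * (q : ℝ) ^ 2 * N)}.indicator (fun _ => (1 : ℝ)) z = 0 :=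
        Set.indicator_of_notMem (s := {z : sphere (0 : Cn n) 1 |
        rho ζ (z : Cn n) ≤ 1 / (10 ^ 6 * (q : ℝ) ^ 2 * N)}) hz _
      change {z : sphere (0 : Cn n) 1 |
        rho ζ (z : Cn n) ≤ 1 / (10 ^ 6 * (q : ℝ) ^ 2 * N)}.indicator (fun _ => (1 : ℝ)) z ≤
        101 / 100 * frame_G N q ζ (z : Cn n)
      rw [h2]
      have := hG0 ζ (z : Cn n)
      linarith
  have hsum : ∀ z : Cn n, ∑ ζ ∈ s, w ζ / I * (‖base N ζ z‖ ^ (2 * q))⁻¹ =
      (∑ ζ ∈ s, w ζ * frame_G N q z ζ) / I := by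
    intro z
    rw [Finset.sum_div]
    refine Finset.sum_congr rfl fun ζ _ => ?_
    unfold frame_G
    ring
  refine ⟨s, fun ζ => w ζ / I, ⟨hs1, hs2, hs3, fun ζ hζ => div_nonneg (hw0 ζ hζ) hIpos.le, ?_, ?_,
    ?_⟩⟩
  · intro ζ hζ
    rw [div_le_iff₀ hIpos]
    have := hwI ζ hζ
    linarith
  · intro z hz
    rw [hsum z, le_div_iff₀ hIpos]
    have h := ((hw2 (frame_G N q z) (frame_cont N q hz) (101 / 100) (by norm_num)).2
      (fun ζ hζ z' hz' hρ => (frame_cmp hN hq hz (hs1 ζ hζ) hz' hρ).1))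
    rw [hIz z hz] at h
    have h5 : 0 ≤ ∑ ζ ∈ s, w ζ * frame_G N q z ζ :=
      Finset.sum_nonneg fun ζ hζ => mul_nonneg (hw0 ζ hζ) (hG0 z ζ)
    linarith
  · intro z hz
    rw [hsum z, div_le_iff₀ hIpos]
    have h := ((hw2 (frame_G N q z) (frame_cont N q hz) (101 / 100) (by norm_num)).1
      (fun ζ hζ z' hz' hρ => (frame_cmp hN hq hz (hs1 ζ hζ) hz' hρ).2))
    rw [hIz z hz] at h
    linarith

end Pool.Agent.DBX
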