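import Mathlib
import Pool.Agent.Lib.DBX.Bdry
import Pool.Agent.Lib.DBX.Avg
import Pool.Agent.Lib.DBX.Frame

/-!
# DBX.StepX: one step of the iteration
-/

set_option autoImplicit false

namespace Pool.Agent.DBX

open MeasureTheory Metric Complex Real Pool.Agent.MPdb50ff

open scoped InnerProductSpace ComplexConjugate

theorem JS_continuous {n : ℕ} {h : Cn n → ℂ} (hc : ContinuousOn h (closedBall 0 1)) (T : ℝ) :
    Continuous (fun ζ : sphere (0 : Cn n) 1 => min 1 (Real.sqrt ((h ζ).re / T))) := by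
  have h1 : Continuous (fun ζ : sphere (0 : Cn n) 1 => h ζ) :=
    hc.comp_continuous continuous_subtype_val fun ζ => sphere_subset_closedBall ζ.2
  have h2 : Continuous (fun ζ : sphere (0 : Cn n) 1 => Real.sqrt ((h ζ).re / T)) :=
    Real.continuous_sqrt.comp ((Complex.continuous_re.comp h1).div_const T)
  exact continuous_const.min h2

theorem JS_integrable {n : ℕ} [NeZero n] {h : Cn n → ℂ} (hc : ContinuousOn h (closedBall 0 1))
    (T : ℝ) :
    Integrable (fun ζ : sphere (0 : Cn n) 1 => min 1 (Real.sqrt ((h ζ).re / T))) (sigma n) :=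
  (JS_continuous hc T).integrable_of_hasCompactSupport (HasCompactSupport.of_compactSpace _)

theorem one_sub_thet_pos {n : ℕ} (hn : 2 ≤ n) : 0 < 1 - thet n := by
  have := thet_le hn
  norm_num at this ⊢
  linarith

theorem stepX {n : ℕ} [NeZero n] (hn : 2 ≤ n) {D : ℕ} (hD : 1 ≤ D) (h : Cn n → ℂ) (T : ℝ)
    (hT : 0 < T) (hd : DifferentiableOn ℂ h (ball 0 (1 + 1 / (D : ℝ))))
    (hpos : ∀ z ∈ closedBall (0 : Cn n) (1 + 1 / (2 * (D : ℝ))), 0 < (h z).re) :
    ∃ g : Cn n → ℂ,
      DifferentiableOn ℂ g (ball 0 (1 + 1 / ((MM n * D : ℕ) : ℝ))) ∧ g 0 = 0 ∧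
      (∀ z ∈ closedBall (0 : Cn n) (1 + 1 / (2 * ((MM n * D : ℕ) : ℝ))),
        ‖g z‖ ≤ (h z).re / 2 ∧ ‖g z‖ ≤ T) ∧
      JS n (fun z => h z + g z) ((1 - thet n) ^ 2 * T) ≤ JS n h T := by
  classical
  obtain ⟨s, b, hfr⟩ := exists_frame n (2 * D) (qq n) (by omega) (one_le_qq hn)
  have hr : (1 / (10 ^ 6 * (qq n : ℝ) ^ 2 * ((2 * D : ℕ) : ℝ))) = rr n D := by
    unfold rr
    push_cast
    ring_nf
  rw [hr] at hfr
  have hC : Ctx n D h T s b := ⟨hn, hD, hT, hd, hpos, hfr⟩
  have hD' : (1 : ℝ) ≤ D := by exact_mod_cast hD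
  have hrp := rr_pos hn hD
  have hMD : ((2 * D : ℕ) : ℝ) ≤ ((MM n * D : ℕ) : ℝ) := by
    have h1 : 2 ≤ MM n := by
      have := one_le_qq hn
      unfold MM
      have h2 : 1 ≤ qq n ^ 2 := Nat.one_le_pow _ _ this
      omega
    exact_mod_cast Nat.mul_le_mul_right D h1
  have hN0 : (0 : ℝ) < ((2 * D : ℕ) : ℝ) := by
    have : 0 < 2 * D := by omega
    exact_mod_cast this
  have hball : ball (0 : Cn n) (1 + 1 / ((MM n * D : ℕ) : ℝ)) ⊆
      ball 0 (1 + 1 / ((2 * D : ℕ) : ℝ)) := by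
    apply ball_subset_ball
    have := one_div_le_one_div_of_le hN0 hMD
    linarith
  have hsub1 : closedBall (0 : Cn n) 1 ⊆ ball 0 (1 + 1 / ((2 * D : ℕ) : ℝ)) := by
    apply closedBall_subset_ball
    have : 0 < 1 / ((2 * D : ℕ) : ℝ) := by positivity
    linarith
  have hθ := one_sub_thet_pos hn
  set T' : ℝ := (1 - thet n) ^ 2 * T with hT'
  have hT'0 : 0 < T' := by positivity
  have hsT' : Real.sqrt T' = (1 - thet n) * Real.sqrt T := by
    rw [hT', Real.sqrt_mul (by positivity), Real.sqrt_sq hθ.le]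
  set E := good n D h T s b with hE
  have hEpos : 0 < E.card := good_pos hC
  set G : (VV s → Bool) → Cn n → ℂ := fun ε => GG n D h T s b Finset.univ ε with hG
  -- pointwise inequality
  have hpt : ∀ ζ : sphere (0 : Cn n) 1,
      ∑ ε ∈ E, min 1 (Real.sqrt ((h ζ + G ε ζ).re / T')) ≤
        (E.card : ℝ) * min 1 (Real.sqrt ((h ζ).re / T)) := by
    intro ζ
    have hζ : ‖(ζ : Cn n)‖ = 1 := by simp
    have hu : 0 < (h ζ).re := hC.unit_pos hζ
    by_cases huT : (h ζ).re ≤ T
    · have hmin : min 1 (Real.sqrt ((h ζ).re / T)) = Real.sqrt ((h ζ).re / T) := by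
        apply min_eq_right
        exact Real.sqrt_le_one.2 ((div_le_one hT).2 huT)
      rw [hmin]
      have havg := avg_good hC hζ huT
      calc ∑ ε ∈ E, min 1 (Real.sqrt ((h ζ + G ε ζ).re / T'))
          ≤ ∑ ε ∈ E, Real.sqrt ((h ζ + G ε ζ).re / T') :=
            Finset.sum_le_sum fun ε _ => min_le_right _ _
        _ = (∑ ε ∈ E, Real.sqrt ((h ζ + G ε ζ).re)) / Real.sqrt T' := by
            rw [Finset.sum_div]
            apply Finset.sum_congr rfl
            intro ε _
            rw [Real.sqrt_div' _ hT'0.le]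
        _ ≤ ((E.card : ℝ) * (Real.sqrt (h ζ).re * (1 - thet n))) / Real.sqrt T' := by
            apply div_le_div_of_nonneg_right havg (Real.sqrt_nonneg _)
        _ = (E.card : ℝ) * Real.sqrt ((h ζ).re / T) := by
            rw [hsT', Real.sqrt_div' _ hT.le]
            have hsT : 0 < Real.sqrt T := Real.sqrt_pos.2 hT
            have hm := hθ.ne'
            field_simp
    · have hmin : min 1 (Real.sqrt ((h ζ).re / T)) = 1 := by
        apply min_eq_left
        rw [Real.one_le_sqrt]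
        exact (one_le_div hT).2 (not_le.1 huT).le
      rw [hmin, mul_one]
      calc ∑ ε ∈ E, min 1 (Real.sqrt ((h ζ + G ε ζ).re / T'))
          ≤ ∑ _ε ∈ E, (1 : ℝ) := Finset.sum_le_sum fun ε _ => min_le_left _ _
        _ = (E.card : ℝ) := by simp
  have hhcont : ContinuousOn h (closedBall (0 : Cn n) 1) := hC.diffN.continuousOn.mono hsub1
  have hGcont : ∀ ε, ContinuousOn (fun z => h z + G ε z) (closedBall (0 : Cn n) 1) := by
    intro ε
    exact hhcont.add ((hC.GG_diff Finset.univ ε).continuousOn.mono hsub1)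
  have hint : ∑ ε ∈ E, JS n (fun z => h z + G ε z) T' ≤ ∑ _ε ∈ E, JS n h T := by
    have e1 : ∑ ε ∈ E, JS n (fun z => h z + G ε z) T' =
        ∫ ζ : sphere (0 : Cn n) 1,
          ∑ ε ∈ E, min 1 (Real.sqrt ((h ζ + G ε ζ).re / T')) ∂(sigma n) := by
      unfold JS
      rw [integral_finsetSum]
      intro ε _
      exact JS_integrable (hGcont ε) T'
    have e2 : ∑ _ε ∈ E, JS n h T =
        ∫ ζ : sphere (0 : Cn n) 1,
          (E.card : ℝ) * min 1 (Real.sqrt ((h ζ).re / T)) ∂(sigma n) := by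
      unfold JS
      rw [integral_const_mul, Finset.sum_const, nsmul_eq_mul]
    rw [e1, e2]
    apply integral_mono _ _ hpt
    · apply MeasureTheory.integrable_finsetSum
      intro ε _
      exact JS_integrable (hGcont ε) T'
    · exact (JS_integrable hhcont T).const_mul _
  obtain ⟨ε, hεE, hε⟩ := Finset.exists_le_of_sum_le (Finset.card_pos.1 hEpos) hint
  have hgood : ∀ j : {ζ // ζ ∈ s} × Fin 4, ¬ bad n D h T s b j ε := by
    have := hεE
    rw [hE] at this
    unfold good at this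
    exact (Finset.mem_filter.1 this).2
  refine ⟨G ε, (hC.GG_diff Finset.univ ε).mono hball, ?_, ?_, hε⟩
  · simp only [hG, GG]
    apply Finset.sum_eq_zero
    intro p _
    simp [gg, peak]
  · rw [MM_rr hn hD]
    exact ball_bound hC hgood

end Pool.Agent.DBX
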