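import Mathlib
import Pool.Agent.Lib.DBX.StepX

/-!
# DBX.IterX: the iteration
-/

set_option autoImplicit false

namespace Pool.Agent.DBX

open MeasureTheory Metric Complex Real Pool.Agent.MPdb50ff

/-- The invariant of the iteration. -/
structure InvX (n : ℕ) (μ : ℝ) (k : ℕ) (h : Cn n → ℂ) : Prop where
  diff : DifferentiableOn ℂ h (ball 0 (1 + 1 / (MM n : ℝ) ^ k))
  pos : ∀ z ∈ closedBall (0 : Cn n) (1 + 1 / (2 * (MM n : ℝ) ^ k)), 0 < (h z).re
  zero : h 0 = 1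
  pot : JS n h (16 * μ ^ k) ≤ JS n (fun _ => 1) 16

theorem two_le_MM {n : ℕ} (hn : 2 ≤ n) : 2 ≤ MM n := by
  have := one_le_qq hn
  unfold MM
  have h2 : 1 ≤ qq n ^ 2 := Nat.one_le_pow _ _ this
  omega

theorem exists_seqX {n : ℕ} [NeZero n] (hn : 2 ≤ n) :
    ∃ H : ℕ → Cn n → ℂ,
      (∀ k, InvX n ((1 - thet n) ^ 2) k (H k)) ∧ (H 0 = fun _ => 1) ∧
      (∀ k, ∀ z ∈ closedBall (0 : Cn n) (1 + 1 / (2 * (MM n : ℝ) ^ (k + 1))),
        ‖H (k + 1) z - H k z‖ ≤ 16 * ((1 - thet n) ^ 2) ^ k) ∧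
      (∀ k, DifferentiableOn ℂ (fun z => H (k + 1) z - H k z)
        (ball 0 (1 + 1 / (MM n : ℝ) ^ (k + 1)))) := by
  set μ : ℝ := (1 - thet n) ^ 2 with hμ
  have hθ := one_sub_thet_pos hn
  have hμ0 : 0 < μ := by positivity
  have hM1 : (1 : ℝ) ≤ (MM n : ℝ) := by
    have := two_le_MM hn
    have h2 : 1 ≤ MM n := by omega
    exact_mod_cast h2
  have hM0 : (0 : ℝ) < (MM n : ℝ) := by linarith
  have hex : ∀ (k : ℕ) (h : {h : Cn n → ℂ // InvX n μ k h}),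
      ∃ h' : {h' : Cn n → ℂ // InvX n μ (k + 1) h'},
        (∀ z ∈ closedBall (0 : Cn n) (1 + 1 / (2 * (MM n : ℝ) ^ (k + 1))),
          ‖h'.1 z - h.1 z‖ ≤ 16 * μ ^ k) ∧
        DifferentiableOn ℂ (fun z => h'.1 z - h.1 z) (ball 0 (1 + 1 / (MM n : ℝ) ^ (k + 1))) := by
    rintro k ⟨h, hI⟩
    have hD : 1 ≤ MM n ^ k := Nat.one_le_pow _ _ (by have := two_le_MM hn; omega)
    have hT : 0 < 16 * μ ^ k := by positivity
    have hcast : ((MM n ^ k : ℕ) : ℝ) = (MM n : ℝ) ^ k := by push_cast; rfl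
    have hcast2 : ((MM n * MM n ^ k : ℕ) : ℝ) = (MM n : ℝ) ^ (k + 1) := by
      push_cast; ring
    have hk0 : (0 : ℝ) < (MM n : ℝ) ^ k := by positivity
    have hkk : (MM n : ℝ) ^ k ≤ (MM n : ℝ) ^ (k + 1) := pow_le_pow_right₀ hM1 (by omega)
    obtain ⟨g, hg1, hg2, hg3, hg4⟩ := stepX hn hD h (16 * μ ^ k) hT
      (by rw [hcast]; exact hI.diff) (by rw [hcast]; exact hI.pos)
    rw [hcast2] at hg1 hg3
    have hle : 1 + 1 / (MM n : ℝ) ^ (k + 1) ≤ 1 + 1 / (MM n : ℝ) ^ k := by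
      have := one_div_le_one_div_of_le hk0 hkk
      linarith
    have hle2 : 1 + 1 / (2 * (MM n : ℝ) ^ (k + 1)) ≤ 1 + 1 / (2 * (MM n : ℝ) ^ k) := by
      have : 1 / (2 * (MM n : ℝ) ^ (k + 1)) ≤ 1 / (2 * (MM n : ℝ) ^ k) := by
        apply one_div_le_one_div_of_le (by positivity)
        linarith
      linarith
    refine ⟨⟨fun z => h z + g z, ⟨?_, ?_, ?_, ?_⟩⟩, ?_, ?_⟩
    · exact (hI.diff.mono (ball_subset_ball hle)).add hg1
    · intro z hz
      obtain ⟨a1, -⟩ := hg3 z hz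
      have a2 := hI.pos z (closedBall_subset_closedBall hle2 hz)
      have a3 : -(‖g z‖) ≤ (g z).re := (abs_le.1 (Complex.abs_re_le_norm (g z))).1
      rw [Complex.add_re]
      linarith
    · simp only [hI.zero, hg2, add_zero]
    · have e : 16 * μ ^ (k + 1) = (1 - thet n) ^ 2 * (16 * μ ^ k) := by
        rw [pow_succ, ← hμ]; ring
      rw [e]
      exact hg4.trans hI.pot
    · intro z hz
      have : h z + g z - h z = g z := by ring
      simp only [this]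
      exact (hg3 z hz).2
    · refine hg1.congr ?_
      intro z _
      ring
  choose F hF1 hF2 using hex
  have h0 : InvX n μ 0 (fun _ => 1) := by
    refine ⟨differentiableOn_const _, ?_, rfl, ?_⟩
    · intro z _; simp
    · rw [pow_zero, mul_one]
  set H : ∀ k : ℕ, {h : Cn n → ℂ // InvX n μ k h} :=
    fun k => Nat.rec ⟨fun _ => 1, h0⟩ (fun k h => F k h) k with hH
  exact ⟨fun k => (H k).1, fun k => (H k).2, rfl, fun k => hF1 k (H k), fun k => hF2 k (H k)⟩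

end Pool.Agent.DBX
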