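import Mathlib
import Pool.Agent.Lib.DBX.IterX
import Pool.Agent.Lib.MP_db50ff_an.Limit

/-!
# DBX.LimitX: the limit function
-/

set_option autoImplicit false

namespace Pool.Agent.DBX

open MeasureTheory Metric Complex Real Filter Topology Pool.Agent.MPdb50ff

/-- The exponent: `α = 1 / (2 * 10^20 * n * (log n)²)` satisfies `M^α (1 - θ)² < 1`. -/
theorem alpha_ok {n : ℕ} (hn : 2 ≤ n) {α : ℝ}
    (hα : α = 1 / (2 * 10 ^ 20 * (n : ℝ) * Real.log n ^ 2)) :
    0 < α ∧ α ≤ 1 / 2 ∧ (MM n : ℝ) ^ α * (1 - thet n) ^ 2 < 1 := by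
  have hn' : (2 : ℝ) ≤ n := by exact_mod_cast hn
  have hn0 : (0 : ℝ) < n := by linarith
  have hlog2 : 0.6931471803 < Real.log 2 := Real.log_two_gt_d9
  have hlogn : Real.log 2 ≤ Real.log n := Real.log_le_log (by norm_num) hn'
  have hlogn0 : 0 < Real.log n := by linarith
  have hα0 : 0 < α := by rw [hα]; positivity
  have hell := ell_le_log hn
  have hell2 := two_le_ell hn
  have hell0 : (0 : ℝ) < (ell n : ℝ) := by
    have : 0 < ell n := by omega
    exact_mod_cast this
  have hL : (LL n : ℝ) = n * ell n := by unfold LL; push_cast; ring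
  have hM := log_MM_le hn
  have hM2 : (2 : ℝ) ≤ (MM n : ℝ) := by exact_mod_cast two_le_MM hn
  have hM0 : (0 : ℝ) < (MM n : ℝ) := by linarith
  have hθ := thet_pos hn
  have hθ1 := one_sub_thet_pos hn
  refine ⟨hα0, ?_, ?_⟩
  · rw [hα]
    apply one_div_le_one_div_of_le (by norm_num)
    have h1 : (0.69 : ℝ) ^ 2 ≤ Real.log n ^ 2 := pow_le_pow_left₀ (by norm_num) (by linarith) 2
    nlinarith
  · have hkey : Real.log (MM n : ℝ) * α ≤ thet n := by
      have h1 : Real.log (MM n : ℝ) * α ≤ (22 * (ell n : ℝ)) * α :=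
        mul_le_mul_of_nonneg_right hM hα0.le
      refine h1.trans ?_
      rw [hα]
      unfold thet
      rw [hL, mul_one_div, div_le_div_iff₀ (by positivity) (by positivity)]
      have h2 : (ell n : ℝ) ^ 2 ≤ 9 * Real.log n ^ 2 := by
        have := pow_le_pow_left₀ hell0.le hell 2
        nlinarith
      nlinarith
    have h2 : (MM n : ℝ) ^ α = Real.exp (Real.log (MM n : ℝ) * α) := Real.rpow_def_of_pos hM0 α
    have h3 : 1 - thet n ≤ Real.exp (-thet n) := by
      have := Real.add_one_le_exp (-thet n)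
      linarith
    have h4 : (1 - thet n) ^ 2 ≤ Real.exp (-(2 * thet n)) := by
      have := pow_le_pow_left₀ hθ1.le h3 2
      rw [← Real.exp_nat_mul] at this
      refine this.trans (le_of_eq ?_)
      congr 1
      push_cast
      ring
    rw [h2]
    calc Real.exp (Real.log (MM n : ℝ) * α) * (1 - thet n) ^ 2
        ≤ Real.exp (thet n) * Real.exp (-(2 * thet n)) :=
          mul_le_mul (Real.exp_le_exp.2 hkey) h4 (by positivity) (Real.exp_pos _).le
      _ = Real.exp (-thet n) := by rw [← Real.exp_add]; congr 1; ring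
      _ < 1 := by rw [Real.exp_lt_one_iff]; linarith

/-- The limit function. -/
theorem exists_limitX {n : ℕ} [NeZero n] (hn : 2 ≤ n) {α : ℝ}
    (hα : α = 1 / (2 * 10 ^ 20 * (n : ℝ) * Real.log n ^ 2)) :
    ∃ h : Cn n → ℂ,
      ContinuousOn h (closedBall 0 1) ∧ DifferentiableOn ℂ h (ball 0 1) ∧ h 0 = 1 ∧
      (∀ z ∈ closedBall (0 : Cn n) 1, 0 ≤ (h z).re) ∧
      (∃ C : ℝ, ∀ z ∈ closedBall (0 : Cn n) 1, ∀ w ∈ closedBall (0 : Cn n) 1,
          ‖h z - h w‖ ≤ C * ‖z - w‖ ^ α) ∧
      0 < sigma n {ζ : sphere (0 : Cn n) 1 | (h ζ).re = 0} := by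
  obtain ⟨hα0, hα1, hαμ⟩ := alpha_ok hn hα
  obtain ⟨H, hInv, hH0, hHb, hHd⟩ := exists_seqX (n := n) hn
  have hM2 : (2 : ℝ) ≤ (MM n : ℝ) := by exact_mod_cast two_le_MM hn
  have hθ := thet_pos hn
  have hθ1 := one_sub_thet_pos hn
  set μ : ℝ := (1 - thet n) ^ 2 with hμ
  have hμ0 : 0 < μ := by positivity
  have hμ1 : μ < 1 := by rw [hμ]; nlinarith
  generalize hM : (MM n : ℝ) = M at *
  have hM0 : 0 < M := by linarith
  have hM1 : 1 ≤ M := by linarith
  set g : ℕ → Cn n → ℂ := fun k z => H (k + 1) z - H k z with hg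
  have h4k : ∀ k : ℕ, (0 : ℝ) < 1 / (2 * M ^ (k + 1)) := fun k => by positivity
  have hb1 : ∀ k, ∀ z ∈ closedBall (0 : Cn n) 1, ‖g k z‖ ≤ 16 * μ ^ k := by
    intro k z hz
    apply hHb k z
    rw [mem_closedBall_zero_iff] at hz ⊢
    linarith [h4k k]
  have hsum16 : Summable (fun k : ℕ => 16 * μ ^ k) :=
    (summable_geometric_of_lt_one hμ0.le hμ1).mul_left 16
  have hs : ∀ z ∈ closedBall (0 : Cn n) 1, Summable (fun k => g k z) :=
    fun z hz => Summable.of_norm_bounded hsum16 (fun k => hb1 k z hz)
  set h : Cn n → ℂ := fun z => 1 + ∑' k, g k z with hh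
  have htend : ∀ z ∈ closedBall (0 : Cn n) 1, Tendsto (fun k => H k z) atTop (𝓝 (h z)) := by
    intro z hz
    have h1 := (hs z hz).hasSum.tendsto_sum_nat
    have h2 : ∀ k, ∑ i ∈ Finset.range k, g i z = H k z - 1 := by
      intro k
      simp only [hg]
      rw [Finset.sum_range_sub (fun k => H k z), hH0]
    simp only [h2] at h1
    have h3 := h1.const_add 1
    simpa [hh] using h3
  have hpos : ∀ z ∈ closedBall (0 : Cn n) 1, 0 ≤ (h z).re := by
    intro z hz
    have h1 : Tendsto (fun k => (H k z).re) atTop (𝓝 (h z).re) :=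
      (Complex.continuous_re.tendsto _).comp (htend z hz)
    refine ge_of_tendsto' h1 fun k => ?_
    refine ((hInv k).pos z ?_).le
    rw [mem_closedBall_zero_iff] at hz ⊢
    rw [hM]
    have : (0 : ℝ) < 1 / (2 * M ^ k) := by positivity
    linarith
  -- Hölder
  set r : ℝ := M ^ α * μ with hr
  have hr0 : 0 < r := by positivity
  have hholder : ∀ z ∈ closedBall (0 : Cn n) 1, ∀ w ∈ closedBall (0 : Cn n) 1,
      ‖h z - h w‖ ≤ (32 * (2 * M) ^ α * (1 - r)⁻¹) * ‖z - w‖ ^ α := by
    intro z hz w hw
    have hz' := mem_closedBall_zero_iff.1 hz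
    have hw' := mem_closedBall_zero_iff.1 hw
    have hterm : ∀ k, ‖g k z - g k w‖ ≤ (32 * (2 * M) ^ α * ‖z - w‖ ^ α) * r ^ k := by
      intro k
      have h1 := term_holder (g := g k) (T := 16 * μ ^ k) (h4k k) hα0 (by linarith)
        ((hHd k).mono (ball_subset_ball (by
          have : 1 / (2 * M ^ (k + 1)) ≤ 1 / M ^ (k + 1) := by
            apply one_div_le_one_div_of_le (by positivity)
            have : (0 : ℝ) < M ^ (k + 1) := by positivity
            linarith
          linarith))) (fun z hz => hHb k z (ball_subset_closedBall hz)) hz' hw'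
      refine h1.trans (le_of_eq ?_)
      have e1 : ‖z - w‖ / (1 / (2 * M ^ (k + 1))) = ‖z - w‖ * ((2 * M) * M ^ k) := by
        rw [pow_succ]
        field_simp
      rw [e1, Real.mul_rpow (norm_nonneg _) (by positivity),
        Real.mul_rpow (by positivity) (by positivity)]
      have e2 : (M ^ k) ^ α = (M ^ α) ^ k := by
        rw [← Real.rpow_natCast, ← Real.rpow_mul hM0.le, ← Real.rpow_natCast,
          ← Real.rpow_mul hM0.le, mul_comm]
      rw [e2, hr, mul_pow]
      ring
    have hsr : Summable (fun k : ℕ => (32 * (2 * M) ^ α * ‖z - w‖ ^ α) * r ^ k) :=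
      (summable_geometric_of_lt_one hr0.le hαμ).mul_left _
    have e1 : h z - h w = ∑' k, (g k z - g k w) := by
      rw [(hs z hz).tsum_sub (hs w hw)]
      simp only [hh]; ring
    rw [e1]
    have h2 := tsum_of_norm_bounded (hsr.hasSum) hterm
    refine h2.trans (le_of_eq ?_)
    rw [tsum_mul_left, tsum_geometric_of_lt_one hr0.le hαμ]
    ring
  have hcont : ContinuousOn h (closedBall 0 1) := by
    intro z hz
    rw [ContinuousWithinAt, tendsto_iff_norm_sub_tendsto_zero]
    have h1 : Tendsto (fun w : Cn n =>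
        (32 * (2 * M) ^ α * (1 - r)⁻¹) * ‖w - z‖ ^ α) (𝓝[closedBall 0 1] z) (𝓝 0) := by
      have h2 : Continuous fun w : Cn n => (32 * (2 * M) ^ α * (1 - r)⁻¹) * ‖w - z‖ ^ α := by
        apply continuous_const.mul
        exact (Real.continuous_rpow_const hα0.le).comp
          (continuous_norm.comp (continuous_id.sub continuous_const))
      have h3 := h2.tendsto z
      simp only [sub_self, norm_zero, Real.zero_rpow hα0.ne', mul_zero] at h3
      exact h3.mono_left nhdsWithin_le_nhds
    refine squeeze_zero' (Eventually.of_forall fun w => norm_nonneg _) ?_ h1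
    filter_upwards [self_mem_nhdsWithin] with w hw
    exact hholder w hw z hz
  have hdiff : DifferentiableOn ℂ h (ball 0 1) := by
    intro z hz
    apply DifferentiableAt.differentiableWithinAt
    rw [mem_ball_zero_iff] at hz
    set s : ℝ := (1 + ‖z‖) / 2 with hs'
    have hs1 : s < 1 := by rw [hs']; linarith
    have hs0 : 0 < s := by rw [hs']; positivity
    have hzs : z ∈ ball (0 : Cn n) s := by
      rw [mem_ball_zero_iff, hs']; linarith
    have hgd : ∀ k, ∀ x ∈ ball (0 : Cn n) s, DifferentiableAt ℂ (g k) x := by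
      intro k x hx
      have h2k : (0 : ℝ) < 1 / M ^ (k + 1) := by positivity
      rw [mem_ball_zero_iff] at hx
      apply (hHd k).differentiableAt
      apply isOpen_ball.mem_nhds
      rw [mem_ball_zero_iff]; linarith
    have hmain := hasFDerivAt_tsum_of_isPreconnected (𝕜 := ℂ) (f := g)
      (f' := fun k x => fderiv ℂ (g k) x) (u := fun k => 2 * (16 * μ ^ k) / (1 - s))
      (s := ball (0 : Cn n) s) (x₀ := z) (x := z)
      ((hsum16.mul_left 2).div_const _) isOpen_ball
      ((convex_ball (0 : Cn n) s).isPreconnected)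
      (fun k x hx => (hgd k x hx).hasFDerivAt) ?_ hzs (hs z (by
        rw [mem_closedBall_zero_iff]; exact hz.le)) hzs
    · exact (differentiableAt_const _).add hmain.differentiableAt
    · intro k x hx
      rw [mem_ball_zero_iff] at hx
      have hsub : ball x (1 - s) ⊆ ball (0 : Cn n) 1 := by
        intro y hy
        rw [mem_ball, dist_eq_norm] at hy
        rw [mem_ball_zero_iff]
        have : y = (y - x) + x := by abel
        rw [this]
        exact (norm_add_le _ _).trans_lt (by linarith)
      have h2k : (0 : ℝ) < 1 / M ^ (k + 1) := by positivity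
      apply Complex.norm_fderiv_le_div_of_mapsTo_ball _ _ (by linarith)
      · exact (hHd k).mono (hsub.trans (ball_subset_ball (by linarith)))
      · intro y hy
        rw [mem_closedBall, dist_eq_norm]
        have hy1 := hb1 k y (ball_subset_closedBall (hsub hy))
        have hx1 := hb1 k x (by rw [mem_closedBall_zero_iff]; linarith)
        calc ‖g k y - g k x‖ ≤ ‖g k y‖ + ‖g k x‖ := norm_sub_le _ _
          _ ≤ 16 * μ ^ k + 16 * μ ^ k := add_le_add hy1 hx1
          _ = 2 * (16 * μ ^ k) := by ring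
  refine ⟨h, hcont, hdiff, ?_, hpos, ⟨_, hholder⟩, ?_⟩
  · simp only [hh, hg, (hInv _).zero, sub_self, tsum_zero, add_zero]
  · -- positive measure
    by_contra hcon
    have hzero : sigma n {ζ : sphere (0 : Cn n) 1 | (h (ζ : Cn n)).re = 0} = 0 := by
      simpa using hcon
    have hzn : ∀ ζ : sphere (0 : Cn n) 1, (ζ : Cn n) ∈ closedBall (0 : Cn n) 1 :=
      fun ζ => sphere_subset_closedBall ζ.2
    have hae : ∀ᵐ ζ : sphere (0 : Cn n) 1 ∂(sigma n), 0 < (h (ζ : Cn n)).re := by
      rw [ae_iff]
      refine measure_mono_null ?_ hzero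
      intro w hw
      simp only [Set.mem_ofPred_eq, not_lt] at hw
      exact le_antisymm hw (hpos _ (hzn w))
    have hlim : Tendsto (fun k => JS n (H k) (16 * μ ^ k)) atTop
        (𝓝 (∫ _ζ : sphere (0 : Cn n) 1, (1 : ℝ) ∂(sigma n))) := by
      unfold JS
      apply tendsto_integral_of_dominated_convergence (fun _ => (1 : ℝ))
      · intro k
        refine (JS_integrable ?_ _).aestronglyMeasurable
        refine (hInv k).diff.continuousOn.mono (closedBall_subset_ball ?_)
        rw [hM]
        have : (0 : ℝ) < 1 / M ^ k := by positivity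
        linarith
      · exact integrable_const _
      · intro k
        refine Eventually.of_forall fun w => ?_
        rw [Real.norm_eq_abs, abs_of_nonneg (le_min zero_le_one (Real.sqrt_nonneg _))]
        exact min_le_left _ _
      · filter_upwards [hae] with w hw
        have h1 : Tendsto (fun k => (H k w).re) atTop (𝓝 (h w).re) :=
          (Complex.continuous_re.tendsto _).comp (htend _ (hzn w))
        have h2 : Tendsto (fun k : ℕ => 16 * μ ^ k) atTop (𝓝 0) := by
          have := (tendsto_pow_atTop_nhds_zero_of_lt_one hμ0.le hμ1).const_mul 16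
          simpa using this
        have h3 : ∀ᶠ k in atTop, (h w).re / 2 < (H k w).re :=
          h1.eventually (lt_mem_nhds (by linarith))
        have h4 : ∀ᶠ k : ℕ in atTop, 16 * μ ^ k < (h w).re / 2 :=
          h2.eventually (gt_mem_nhds (by linarith))
        refine tendsto_const_nhds.congr' ?_
        filter_upwards [h3, h4] with k hk3 hk4
        symm
        apply min_eq_left
        rw [Real.one_le_sqrt]
        have h5 : (0 : ℝ) < 16 * μ ^ k := by positivity
        exact (one_le_div h5).2 (by linarith)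
    have hle : (∫ _ζ : sphere (0 : Cn n) 1, (1 : ℝ) ∂(sigma n)) ≤ JS n (fun _ => 1) 16 :=
      le_of_tendsto' hlim fun k => (hInv k).pot
    have hJ : JS n (fun _ => 1) 16 = 1 / 4 := by
      unfold JS
      have : min 1 (Real.sqrt ((1 : ℂ).re / 16)) = 1 / 4 := by
        rw [Complex.one_re]
        have h1 : Real.sqrt (1 / 16) = 1 / 4 := by
          rw [show (1 : ℝ) / 16 = (1 / 4) ^ 2 by norm_num, Real.sqrt_sq (by norm_num)]
        rw [h1]
        norm_num
      simp only [this]
      simp
    rw [hJ] at hle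
    simp at hle
    norm_num at hle

end Pool.Agent.DBX
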